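import Mathlib

set_option autoImplicit false

/-!
Finite based complexes, their homotopy products and their duals.

`T` is a finite basis, `h : T → ℕ` the homological level, `D` the matrix of the differential
(`D s t` is the coefficient of the basis element `s` in the boundary of `t`).
-/

namespace Pool.Agent.Lib.P78a38c

open Finset

variable {R : Type*} [CommRing R] {T : Type*} [Fintype T] [DecidableEq T]

/-- A based complex, exact in levels `≥ 1`, with a single basis element `o` in level `0`. -/
structure BasedRes (R : Type*) [CommRing R] (T : Type*) [Fintype T] [DecidableEq T] where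
  h : T → ℕ
  D : T → T → R
  o : T
  h_o : h o = 0
  eq_o : ∀ t, h t = 0 → t = o
  level : ∀ s t, D s t ≠ 0 → h t = h s + 1
  sq : ∀ s t, ∑ u, D s u * D u t = 0
  exact : ∀ (i : ℕ) (v : T → R), 1 ≤ i → (∀ t, v t ≠ 0 → h t = i) →
    (∀ s, ∑ t, D s t * v t = 0) →
    ∃ w : T → R, (∀ t, w t ≠ 0 → h t = i + 1) ∧ ∀ s, ∑ t, D s t * w t = v s

namespace BasedRes

variable (F : BasedRes R T)

theorem D_eq_zero {s t : T} (hst : F.h t ≠ F.h s + 1) : F.D s t = 0 := by
  by_contra hne
  exact hst (F.level s t hne)

/-- Partial products: the Leibniz rule holds for pairs of total level `≤ N`. -/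
def IsProd (N : ℕ) (m : T → T → T → R) : Prop :=
  (∀ s t u, m s t u ≠ 0 → F.h u = F.h s + F.h t) ∧
  (∀ t u, m F.o t u = if u = t then 1 else 0) ∧
  (∀ s t, F.h s + F.h t ≤ N → ∀ v, ∑ u, F.D v u * m s t u =
    ∑ u, F.D u s * m u t v + (-1) ^ F.h s * ∑ u, F.D u t * m s u v)

theorem exists_prod_aux (N : ℕ) : ∃ m, F.IsProd N m := by
  induction N with
  | zero =>
    refine ⟨fun s t u => if s = F.o then (if u = t then 1 else 0) else 0, ?_, ?_, ?_⟩
    · intro s t u hne
      by_cases hs : s = F.o
      · by_cases hu : u = t
        · subst hu
          subst hs
          simp [F.h_o]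
        · simp [hs, hu] at hne
      · simp [hs] at hne
    · intro t u
      simp
    · intro s t hst v
      have hs : s = F.o := F.eq_o s (by omega)
      have ht : t = F.o := F.eq_o t (by omega)
      subst hs
      subst ht
      have h1 : ∀ u, F.D u F.o = 0 := fun u => F.D_eq_zero (by rw [F.h_o]; omega)
      simp [h1]
  | succ N ih =>
    obtain ⟨m, hsup, hunit, hleib⟩ := ih
    have key : ∀ s t, F.h s + F.h t = N + 1 → F.h s ≠ 0 → ∃ w : T → R,
        (∀ u, w u ≠ 0 → F.h u = F.h s + F.h t) ∧ ∀ v, ∑ u, F.D v u * w u =
          ∑ u, F.D u s * m u t v + (-1) ^ F.h s * ∑ u, F.D u t * m s u v := by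
      intro s t hst hs0
      rcases Nat.eq_zero_or_pos N with hN | hN
      · subst hN
        have hs1 : F.h s = 1 := by omega
        have ht0 : F.h t = 0 := by omega
        have ht := F.eq_o t ht0
        subst ht
        refine ⟨fun u => if u = s then 1 else 0, ?_, ?_⟩
        · intro u hu
          by_cases hus : u = s
          · subst hus
            rw [F.h_o, add_zero]
          · simp [hus] at hu
        · intro v
          have h1 : ∀ u, F.D u F.o = 0 := fun u => F.D_eq_zero (by rw [F.h_o]; omega)
          simp only [h1, zero_mul, sum_const_zero, mul_zero, add_zero, mul_ite, mul_one,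
            sum_ite_eq', mem_univ, if_true]
          by_cases hv : F.h v = 0
          · have hv' := F.eq_o v hv
            subst hv'
            rw [Finset.sum_eq_single F.o]
            · rw [hunit]
              simp
            · intro u _ hu
              have : F.D u s = 0 := F.D_eq_zero (by
                intro hh
                exact hu (F.eq_o u (by omega)))
              rw [this, zero_mul]
            · intro h
              exact absurd (mem_univ _) h
          · rw [F.D_eq_zero (s := v) (t := s) (by omega)]
            symm
            apply Finset.sum_eq_zero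
            intro u _
            by_cases hu : F.D u s = 0
            · rw [hu, zero_mul]
            · have hu1 := F.level u s hu
              have hu2 : u = F.o := F.eq_o u (by omega)
              subst hu2
              rw [hunit]
              have : v ≠ F.o := by
                intro h
                rw [h] at hv
                exact hv F.h_o
              simp [this]
      · have hrhs := F.exact N (fun v => ∑ u, F.D u s * m u t v +
          (-1) ^ F.h s * ∑ u, F.D u t * m s u v) hN ?_ ?_
        · obtain ⟨w, hw1, hw2⟩ := hrhs
          exact ⟨w, fun u hu => by rw [hw1 u hu, hst], hw2⟩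
        · intro v hv
          by_contra hne
          apply hv
          have h1 : ∑ u, F.D u s * m u t v = 0 := by
            apply Finset.sum_eq_zero
            intro u _
            by_cases hu : F.D u s = 0
            · rw [hu, zero_mul]
            · have hu1 := F.level u s hu
              have : m u t v = 0 := by
                by_contra h2
                have := hsup u t v h2
                omega
              rw [this, mul_zero]
          have h2 : ∑ u, F.D u t * m s u v = 0 := by
            apply Finset.sum_eq_zero
            intro u _
            by_cases hu : F.D u t = 0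
            · rw [hu, zero_mul]
            · have hu1 := F.level u t hu
              have : m s u v = 0 := by
                by_contra h2
                have := hsup s u v h2
                omega
              rw [this, mul_zero]
          change _ + _ = (0 : R)
          rw [h1, h2]
          ring
        · intro x
          -- the cycle condition
          have e1 : ∀ u, F.D u s * ∑ v, F.D x v * m u t v =
              F.D u s * (∑ w, F.D w u * m w t x) +
                (-1) ^ (F.h s + 1) * (F.D u s * ∑ w, F.D w t * m u w x) := by
            intro u
            by_cases hu : F.D u s = 0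
            · rw [hu]; ring
            · have hu1 := F.level u s hu
              rw [hleib u t (by omega) x, hu1]
              ring
          have e2 : ∀ u, F.D u t * ∑ v, F.D x v * m s u v =
              F.D u t * (∑ w, F.D w s * m w u x) +
                (-1) ^ (F.h s) * (F.D u t * ∑ w, F.D w u * m s w x) := by
            intro u
            by_cases hu : F.D u t = 0
            · rw [hu]; ring
            · have hu1 := F.level u t hu
              rw [hleib s u (by omega) x]
              ring
          have f1 : ∑ v, F.D x v * (∑ u, F.D u s * m u t v) =
              ∑ u, F.D u s * ∑ v, F.D x v * m u t v := by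
            simp only [Finset.mul_sum]
            rw [Finset.sum_comm]
            refine Finset.sum_congr rfl fun u _ => Finset.sum_congr rfl fun v _ => by ring
          have f2 : ∑ v, F.D x v * (∑ u, F.D u t * m s u v) =
              ∑ u, F.D u t * ∑ v, F.D x v * m s u v := by
            simp only [Finset.mul_sum]
            rw [Finset.sum_comm]
            refine Finset.sum_congr rfl fun u _ => Finset.sum_congr rfl fun v _ => by ring
          have z1 : ∑ u, F.D u s * (∑ w, F.D w u * m w t x) = 0 := by
            have : ∑ u, F.D u s * (∑ w, F.D w u * m w t x) =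
                ∑ w, (∑ u, F.D w u * F.D u s) * m w t x := by
              simp only [Finset.mul_sum, Finset.sum_mul]
              rw [Finset.sum_comm]
              refine Finset.sum_congr rfl fun u _ => Finset.sum_congr rfl fun v _ => by ring
            rw [this]
            simp [F.sq]
          have z2 : ∑ u, F.D u t * (∑ w, F.D w u * m s w x) = 0 := by
            have : ∑ u, F.D u t * (∑ w, F.D w u * m s w x) =
                ∑ w, (∑ u, F.D w u * F.D u t) * m s w x := by
              simp only [Finset.mul_sum, Finset.sum_mul]
              rw [Finset.sum_comm]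
              refine Finset.sum_congr rfl fun u _ => Finset.sum_congr rfl fun v _ => by ring
            rw [this]
            simp [F.sq]
          have z3 : ∑ u, F.D u s * ∑ w, F.D w t * m u w x =
              ∑ u, F.D u t * (∑ w, F.D w s * m w u x) := by
            simp only [Finset.mul_sum]
            rw [Finset.sum_comm]
            refine Finset.sum_congr rfl fun u _ => Finset.sum_congr rfl fun v _ => by ring
          have g1 : ∑ u, F.D u s * ∑ v, F.D x v * m u t v =
              (-1) ^ (F.h s + 1) * ∑ u, F.D u t * (∑ w, F.D w s * m w u x) := by
            rw [Finset.sum_congr rfl fun u _ => e1 u, Finset.sum_add_distrib, z1, zero_add,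
              ← Finset.mul_sum, z3]
          have g2 : ∑ u, F.D u t * ∑ v, F.D x v * m s u v =
              ∑ u, F.D u t * (∑ w, F.D w s * m w u x) := by
            rw [Finset.sum_congr rfl fun u _ => e2 u, Finset.sum_add_distrib,
              ← Finset.mul_sum, z2]
            ring
          have : ∑ v, F.D x v * (∑ u, F.D u s * m u t v +
              (-1) ^ F.h s * ∑ u, F.D u t * m s u v) =
              ∑ v, F.D x v * (∑ u, F.D u s * m u t v) +
              (-1) ^ F.h s * ∑ v, F.D x v * (∑ u, F.D u t * m s u v) := by
            rw [Finset.mul_sum (s := univ) (a := ((-1 : R) ^ F.h s)), ← Finset.sum_add_distrib]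
            refine Finset.sum_congr rfl fun v _ => by ring
          rw [this, f1, f2, g1, g2]
          ring
    choose! w hw1 hw2 using key
    refine ⟨fun s t => if F.h s + F.h t = N + 1 ∧ F.h s ≠ 0 then w s t else m s t, ?_, ?_, ?_⟩
    · intro s t u hne
      by_cases hc : F.h s + F.h t = N + 1 ∧ F.h s ≠ 0
      · simp only [if_pos hc] at hne
        exact hw1 s t hc.1 hc.2 u hne
      · simp only [if_neg hc] at hne
        exact hsup s t u hne
    · intro t u
      simp only [F.h_o, ne_eq, not_true_eq_false, and_false, if_false]
      exact hunit t u
    · intro s t hst v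
      have r1 : ∀ u, F.D u s * (if F.h u + F.h t = N + 1 ∧ F.h u ≠ 0 then w u t else m u t) v =
          F.D u s * m u t v := by
        intro u
        by_cases hu : F.D u s = 0
        · rw [hu, zero_mul, zero_mul]
        · have hu1 := F.level u s hu
          have : ¬ (F.h u + F.h t = N + 1 ∧ F.h u ≠ 0) := by omega
          simp only [this, if_false]
      have r2 : ∀ u, F.D u t * (if F.h s + F.h u = N + 1 ∧ F.h s ≠ 0 then w s u else m s u) v =
          F.D u t * m s u v := by
        intro u
        by_cases hu : F.D u t = 0
        · rw [hu, zero_mul, zero_mul]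
        · have hu1 := F.level u t hu
          have : ¬ (F.h s + F.h u = N + 1 ∧ F.h s ≠ 0) := by omega
          simp only [this, if_false]
      rw [Finset.sum_congr rfl fun u _ => r1 u, Finset.sum_congr rfl fun u _ => r2 u]
      by_cases hc : F.h s + F.h t = N + 1 ∧ F.h s ≠ 0
      · simp only [if_pos hc]
        exact hw2 s t hc.1 hc.2 v
      · simp only [if_neg hc]
        by_cases hle : F.h s + F.h t ≤ N
        · exact hleib s t hle v
        · have hs0 : F.h s = 0 := by omega
          have hs := F.eq_o s hs0
          subst hs
          have h1 : ∀ u, F.D u F.o = 0 := fun u => F.D_eq_zero (by rw [F.h_o]; omega)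
          simp [hunit, h1, F.h_o]

/-- A homotopy-associative product on the complex. -/
theorem exists_prod : ∃ m : T → T → T → R,
    (∀ s t u, m s t u ≠ 0 → F.h u = F.h s + F.h t) ∧
    (∀ t u, m F.o t u = if u = t then 1 else 0) ∧
    (∀ s t v, ∑ u, F.D v u * m s t u =
      ∑ u, F.D u s * m u t v + (-1) ^ F.h s * ∑ u, F.D u t * m s u v) := by
  obtain ⟨m, h1, h2, h3⟩ := F.exists_prod_aux (2 * univ.sup F.h)
  refine ⟨m, h1, h2, fun s t v => h3 s t ?_ v⟩
  have := Finset.le_sup (f := F.h) (mem_univ s)
  have := Finset.le_sup (f := F.h) (mem_univ t)
  omega

/-- Multiplication by an element of the ideal generated by the boundaries in level `0` is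
null-homotopic. -/
theorem exists_homotopy {g : R} (hg : ∃ y : T → R, (∀ t, y t ≠ 0 → F.h t = 1) ∧
    ∑ t, F.D F.o t * y t = g) :
    ∃ S : T → T → R, (∀ s t, S s t ≠ 0 → F.h s = F.h t + 1) ∧
      ∀ v t, ∑ u, F.D v u * S u t + ∑ u, S v u * F.D u t = if v = t then g else 0 := by
  obtain ⟨m, hsup, hunit, hleib⟩ := F.exists_prod
  obtain ⟨y, hy, hyg⟩ := hg
  refine ⟨fun u t => ∑ s, y s * m s t u, ?_, ?_⟩
  · intro u t hne
    obtain ⟨s, -, hs⟩ := Finset.exists_ne_zero_of_sum_ne_zero hne
    have h1 := hy s (left_ne_zero_of_mul hs)
    have h2 := hsup s t u (right_ne_zero_of_mul hs)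
    omega
  · intro v t
    have e1 : ∑ u, F.D v u * ∑ s, y s * m s t u = ∑ s, y s * ∑ u, F.D v u * m s t u := by
      simp only [Finset.mul_sum]
      rw [Finset.sum_comm]
      refine Finset.sum_congr rfl fun u _ => Finset.sum_congr rfl fun v _ => by ring
    have e2 : ∀ s, y s * ∑ u, F.D v u * m s t u =
        y s * (∑ u, F.D u s * m u t v) - y s * ∑ u, F.D u t * m s u v := by
      intro s
      rw [hleib]
      by_cases h0 : y s = 0
      · rw [h0]; ring
      · rw [hy s h0]; ring
    have e3 : ∑ s, y s * (∑ u, F.D u s * m u t v) = if v = t then g else 0 := by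
      have e4 : ∀ s, y s * (∑ u, F.D u s * m u t v) = F.D F.o s * y s * m F.o t v := by
        intro s
        by_cases h0 : y s = 0
        · rw [h0]; ring
        · rw [Finset.sum_eq_single F.o]
          · ring
          · intro u _ hu
            rw [F.D_eq_zero (s := u) (t := s), zero_mul]
            intro h1
            rw [hy s h0] at h1
            exact hu (F.eq_o u (by omega))
          · intro h
            exact absurd (mem_univ _) h
      rw [Finset.sum_congr rfl fun s _ => e4 s, ← Finset.sum_mul, hyg, hunit]
      simp
    have e5 : ∑ u, (∑ s, y s * m s u v) * F.D u t = ∑ s, y s * ∑ u, F.D u t * m s u v := by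
      simp only [Finset.mul_sum, Finset.sum_mul]
      rw [Finset.sum_comm]
      refine Finset.sum_congr rfl fun u _ => Finset.sum_congr rfl fun v _ => by ring
    rw [e1, e5, Finset.sum_congr rfl fun s _ => e2 s, Finset.sum_sub_distrib, e3]
    ring

end BasedRes

end Pool.Agent.Lib.P78a38c
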