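import Mathlib
import Pool.Agent.Lib.P78a38c.Core

set_option autoImplicit false

/-! From a sequence of matrices to a finite based complex. -/

namespace Pool.Agent.Lib.P78a38c

open Finset

variable {R : Type*} [CommRing R]

section

variable (n : ℕ) (rank : ℕ → ℕ)
  (d : ∀ i, Matrix (Fin (rank i)) (Fin (rank (i + 1))) R)

/-- The basis of all the free modules in levels `≤ n`. -/
abbrev Tot : Type := Σ i : Fin (n + 1), Fin (rank i)

/-- The component in level `i` of a vector. -/
def hat (v : Tot n rank → R) (i : ℕ) : Fin (rank i) → R :=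
  fun l => if h : i < n + 1 then v ⟨⟨i, h⟩, l⟩ else 0

/-- The total differential. -/
def totD (s t : Tot n rank) : R :=
  if h : (t.1 : ℕ) = s.1 + 1 then d s.1 s.2 (Fin.cast (congrArg rank h) t.2) else 0

theorem sum_totD (hn : ∀ i, n < i → rank i = 0) (v : Tot n rank → R) (i : ℕ) (hi : i < n + 1)
    (k : Fin (rank i)) : ∑ t, totD n rank d ⟨⟨i, hi⟩, k⟩ t * v t =
      (d i).mulVec (hat n rank v (i + 1)) k := by
  rw [Fintype.sum_sigma]
  by_cases h : i + 1 < n + 1
  · rw [Finset.sum_eq_single ⟨i + 1, h⟩]
    · unfold Matrix.mulVec dotProduct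
      refine Finset.sum_congr rfl fun l _ => ?_
      simp [totD, hat, h]
    · intro j _ hj
      apply Finset.sum_eq_zero
      intro l _
      unfold totD
      rw [dif_neg, zero_mul]
      intro h2
      apply hj
      ext
      exact h2
    · intro h2
      exact absurd (mem_univ _) h2
  · have h1 : rank (i + 1) = 0 := hn _ (by omega)
    have : IsEmpty (Fin (rank (i + 1))) := by
      rw [h1]
      infer_instance
    have h2 : (d i).mulVec (hat n rank v (i + 1)) k = 0 := by
      unfold Matrix.mulVec dotProduct
      simp
    rw [h2]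
    apply Finset.sum_eq_zero
    intro j _
    apply Finset.sum_eq_zero
    intro l _
    unfold totD
    rw [dif_neg, zero_mul]
    have := j.2
    change ¬ ((j : ℕ) = i + 1)
    omega

end

theorem hat_totD {n : ℕ} {rank : ℕ → ℕ}
    {d : ∀ i, Matrix (Fin (rank i)) (Fin (rank (i + 1))) R} (t : Tot n rank) (i : ℕ) :
    ∃ w, hat n rank (fun u => totD n rank d u t) i = (d i).mulVec w := by
  by_cases hi : i < n + 1
  · by_cases ht : (t.1 : ℕ) = i + 1
    · refine ⟨Pi.single (Fin.cast (congrArg rank ht) t.2) 1, ?_⟩
      ext1 l
      simp only [hat, hi, dif_pos, totD, ht, Matrix.mulVec_single, MulOpposite.op_one, one_smul]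
      rfl
    · refine ⟨0, ?_⟩
      ext1 l
      simp [hat, hi, totD, ht]
  · refine ⟨0, ?_⟩
    ext1 l
    simp [hat, hi]

/-- The based complex of a sequence of matrices. -/
noncomputable def toBased (n : ℕ) (rank : ℕ → ℕ)
    (d : ∀ i, Matrix (Fin (rank i)) (Fin (rank (i + 1))) R)
    (h1 : rank 0 = 1) (hn : ∀ i, n < i → rank i = 0)
    (hex : ∀ i (v : Fin (rank (i + 1)) → R),
      (d i).mulVec v = 0 ↔ ∃ w, (d (i + 1)).mulVec w = v) :
    BasedRes R (Tot n rank) where
  h t := t.1
  D := totD n rank d
  o := ⟨⟨0, Nat.succ_pos n⟩, Fin.cast h1.symm 0⟩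
  h_o := rfl
  eq_o := by
    rintro ⟨⟨i, hi⟩, k⟩ h
    change i = 0 at h
    subst h
    congr 1
    have : Subsingleton (Fin (rank 0)) := by
      rw [h1]
      infer_instance
    exact Subsingleton.elim _ _
  level := by
    intro s t hst
    by_contra h
    exact hst (dif_neg h)
  sq := by
    rintro ⟨⟨i, hi⟩, k⟩ t
    rw [sum_totD n rank d hn _ i hi k]
    obtain ⟨w, hw⟩ := hat_totD (n := n) (rank := rank) (d := d) t (i + 1)
    rw [hw]
    have := (hex i ((d (i + 1)).mulVec w)).2 ⟨w, rfl⟩
    rw [this]
    rfl
  exact := by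
    intro i v hi hv hker
    by_cases hin : i < n + 1
    · obtain ⟨j, rfl⟩ : ∃ j, i = j + 1 := ⟨i - 1, by omega⟩
      have hj : j < n + 1 := by omega
      have h2 : (d j).mulVec (hat n rank v (j + 1)) = 0 := by
        ext1 k
        rw [← sum_totD n rank d hn v j hj k]
        exact hker _
      obtain ⟨w', hw'⟩ := (hex j _).1 h2
      refine ⟨fun t => if h : (t.1 : ℕ) = j + 1 + 1 then w' (Fin.cast (congrArg rank h) t.2)
        else 0, ?_, ?_⟩
      · intro t ht
        by_contra h
        exact ht (dif_neg h)
      · rintro ⟨⟨a, ha⟩, k⟩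
        rw [sum_totD n rank d hn _ a ha k]
        by_cases haj : a = j + 1
        · subst haj
          have h3 : hat n rank (fun t => if h : (t.1 : ℕ) = j + 1 + 1 then
              w' (Fin.cast (congrArg rank h) t.2) else 0) (j + 1 + 1) = w' := by
            by_cases hlt : j + 1 + 1 < n + 1
            · ext1 l
              simp [hat, hlt]
            · have h1 : rank (j + 1 + 1) = 0 := hn _ (by omega)
              have : IsEmpty (Fin (rank (j + 1 + 1))) := by
                rw [h1]
                infer_instance
              exact Subsingleton.elim _ _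
          rw [h3, hw']
          simp [hat, ha]
        · have h3 : hat n rank (fun t => if h : (t.1 : ℕ) = j + 1 + 1 then
              w' (Fin.cast (congrArg rank h) t.2) else 0) (a + 1) = 0 := by
            ext1 l
            by_cases hlt : a + 1 < n + 1
            · simp only [hat, hlt, dif_pos, Pi.zero_apply]
              rw [dif_neg (by omega)]
            · simp [hat, hlt]
          rw [h3, Matrix.mulVec_zero]
          symm
          by_contra h
          exact haj (hv _ h)
    · refine ⟨0, fun t ht => absurd rfl ht, fun s => ?_⟩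
      have : v s = 0 := by
        by_contra h
        have := hv s h
        have := s.1.2
        omega
      simp [this]

end Pool.Agent.Lib.P78a38c
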