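import Mathlib

set_option autoImplicit false

/-! Points imposing independent conditions, and two functionals without common annihilator. -/

namespace Pool.Agent.Lib.P78a38c

open MvPolynomial Module

variable {K : Type*} [Field K]

/-- Forms of degree `d` in `m` variables. -/
noncomputable def Frm (K : Type*) [Field K] (m d : ℕ) : Submodule K (MvPolynomial (Fin m) K) :=
  restrictSupport K (↑(Finset.finsuppAntidiag (Finset.univ : Finset (Fin m)) d) :
    Set (Fin m →₀ ℕ))

theorem mem_Frm {m d : ℕ} {p : MvPolynomial (Fin m) K} :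
    p ∈ Frm K m d ↔ ∀ ν, coeff ν p ≠ 0 → ν.degree = d := by
  unfold Frm
  rw [mem_restrictSupport_iff]
  constructor
  · intro h ν hν
    have := h (mem_support_iff.2 hν)
    simp only [Finset.mem_coe, Finset.mem_finsuppAntidiag] at this
    rw [Finsupp.degree_eq_sum]
    exact this.1
  · intro h ν hν
    simp only [Finset.mem_coe, Finset.mem_finsuppAntidiag]
    refine ⟨?_, Finset.subset_univ _⟩
    have := h ν (mem_support_iff.1 hν)
    rwa [Finsupp.degree_eq_sum] at this

theorem finrank_Frm (m d : ℕ) : finrank K (Frm K m d) = (m + d - 1).choose d := by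
  unfold Frm
  rw [finrank_eq_card_basis (basisRestrictSupport K
    (↑(Finset.finsuppAntidiag (Finset.univ : Finset (Fin m)) d) : Set (Fin m →₀ ℕ)))]
  simp [Finset.card_finsuppAntidiag_nat_eq_choose]

instance (m d : ℕ) : FiniteDimensional K (Frm K m d) := by
  unfold Frm
  exact (basisRestrictSupport K (↑(Finset.finsuppAntidiag (Finset.univ : Finset (Fin m)) d) :
    Set (Fin m →₀ ℕ))).finiteDimensional_of_finite

/-- The forms in `U` vanishing at the points of the list. -/
def Van {m : ℕ} (U : Submodule K (MvPolynomial (Fin m) K)) (L : List (Fin m → K)) :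
    Submodule K (MvPolynomial (Fin m) K) where
  carrier := {u | u ∈ U ∧ ∀ y ∈ L, eval y u = 0}
  zero_mem' := ⟨U.zero_mem, fun y _ => map_zero _⟩
  add_mem' := fun ha hb => ⟨U.add_mem ha.1 hb.1, fun y hy => by
    rw [map_add, ha.2 y hy, hb.2 y hy, add_zero]⟩
  smul_mem' := fun c a ha => ⟨U.smul_mem c ha.1, fun y hy => by
    rw [smul_eval, ha.2 y hy, mul_zero]⟩

theorem mem_Van {m : ℕ} {U : Submodule K (MvPolynomial (Fin m) K)} {L : List (Fin m → K)}
    {u : MvPolynomial (Fin m) K} : u ∈ Van U L ↔ u ∈ U ∧ ∀ y ∈ L, eval y u = 0 := Iff.rfl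

/-- The points of the list impose independent conditions on `U`. -/
def Ind {m : ℕ} (U : Submodule K (MvPolynomial (Fin m) K)) : List (Fin m → K) → Prop
  | [] => True
  | x :: L => (∃ u ∈ Van U L, eval x u ≠ 0) ∧ Ind U L

theorem van_le {m : ℕ} (U : Submodule K (MvPolynomial (Fin m) K)) (L : List (Fin m → K)) :
    Van U L ≤ U := fun _ h => h.1

theorem finrank_van {m : ℕ} (U : Submodule K (MvPolynomial (Fin m) K)) [FiniteDimensional K U]
    (L : List (Fin m → K)) : finrank K U ≤ finrank K (Van U L) + L.length := by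
  induction L with
  | nil =>
    have : Van U [] = U := by
      ext u
      simp [mem_Van]
    rw [this]
    simp
  | cons x L ih =>
    have hfin : FiniteDimensional K (Van U L) := Submodule.finiteDimensional_of_le (van_le U L)
    let f : Van U L →ₗ[K] K := ((aeval x).toLinearMap : MvPolynomial (Fin m) K →ₗ[K] K).comp
      (Van U L).subtype
    have h1 := f.finrank_range_add_finrank_ker
    have h2 : finrank K (LinearMap.range f) ≤ 1 := by
      have := Submodule.finrank_le (LinearMap.range f)
      rwa [finrank_self] at this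
    have h3 : finrank K (LinearMap.ker f) ≤ finrank K (Van U (x :: L)) := by
      have hfin2 : FiniteDimensional K (Van U (x :: L)) :=
        Submodule.finiteDimensional_of_le (van_le U _)
      let g : LinearMap.ker f →ₗ[K] Van U (x :: L) :=
        LinearMap.codRestrict _ ((Van U L).subtype.comp (LinearMap.ker f).subtype) (by
          rintro ⟨⟨u, hu⟩, hk⟩
          refine ⟨hu.1, ?_⟩
          intro y hy
          rcases List.mem_cons.1 hy with rfl | hy
          · have : f ⟨u, hu⟩ = 0 := hk
            simpa [f, aeval_def, eval₂_eq_eval_map] using this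
          · exact hu.2 y hy)
      apply LinearMap.finrank_le_finrank_of_injective (f := g)
      intro a b hab
      have := congrArg Subtype.val hab
      exact Subtype.ext (Subtype.ext this)
    rw [List.length_cons]
    omega

theorem finrank_van_of_ind {m : ℕ} (U : Submodule K (MvPolynomial (Fin m) K))
    [FiniteDimensional K U] (L : List (Fin m → K)) (h : Ind U L) :
    finrank K (Van U L) + L.length ≤ finrank K U := by
  induction L with
  | nil =>
    have : Van U [] = U := by
      ext u
      simp [mem_Van]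
    rw [this]
    simp
  | cons x L ih =>
    obtain ⟨⟨u, hu, hux⟩, hL⟩ := h
    have h1 := ih hL
    have hfin : FiniteDimensional K (Van U L) := Submodule.finiteDimensional_of_le (van_le U L)
    have hlt : Van U (x :: L) < Van U L := by
      refine lt_of_le_of_ne (fun v hv => ⟨hv.1, fun y hy => hv.2 y (List.mem_cons_of_mem _ hy)⟩) ?_
      intro heq
      rw [← heq] at hu
      exact hux (hu.2 x List.mem_cons_self)
    have h2 := Submodule.finrank_lt_finrank_of_lt hlt
    rw [List.length_cons]
    omega

theorem exists_ne_zero_van {m : ℕ} (U : Submodule K (MvPolynomial (Fin m) K))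
    [FiniteDimensional K U] (L : List (Fin m → K)) (h : L.length < finrank K U) :
    ∃ u ∈ Van U L, u ≠ 0 := by
  have h1 := finrank_van U L
  have h2 : Van U L ≠ ⊥ := by
    intro h3
    rw [h3, finrank_bot] at h1
    omega
  obtain ⟨u, hu, hne⟩ := Submodule.exists_mem_ne_zero_of_ne_bot h2
  exact ⟨u, hu, hne⟩

/-- Adding one point. -/
theorem exists_point [Infinite K] {m : ℕ} (V W : Submodule K (MvPolynomial (Fin m) K))
    [FiniteDimensional K V] [FiniteDimensional K W] (M L : List (Fin m → K))
    (hM : Ind V M) (hL : Ind W L) (hM' : M.length < finrank K V) (hL' : L.length < finrank K W) :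
    ∃ x, Ind V (x :: M) ∧ Ind W (x :: L) := by
  obtain ⟨h, hh, hh0⟩ := exists_ne_zero_van V M hM'
  obtain ⟨g, hg, hg0⟩ := exists_ne_zero_van W L hL'
  have : ∃ x, eval x (h * g) ≠ 0 := by
    by_contra hcon
    push Not at hcon
    exact mul_ne_zero hh0 hg0 (MvPolynomial.funext fun x => by rw [hcon x, map_zero])
  obtain ⟨x, hx⟩ := this
  rw [map_mul] at hx
  exact ⟨x, ⟨⟨h, hh, left_ne_zero_of_mul hx⟩, hM⟩, ⟨⟨g, hg, right_ne_zero_of_mul hx⟩, hL⟩⟩

theorem exists_points [Infinite K] {m : ℕ} (V W : Submodule K (MvPolynomial (Fin m) K))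
    [FiniteDimensional K V] [FiniteDimensional K W] (a b : ℕ) (hab : a + b ≤ finrank K V)
    (ha : a ≤ finrank K W) (hb : b ≤ finrank K W) :
    ∃ L₁ L₂ : List (Fin m → K), L₁.length = a ∧ L₂.length = b ∧ Ind V (L₂ ++ L₁) ∧
      Ind W L₁ ∧ Ind W L₂ := by
  induction b with
  | zero =>
    induction a with
    | zero => exact ⟨[], [], rfl, rfl, trivial, trivial, trivial⟩
    | succ a ih =>
      obtain ⟨L₁, L₂, h1, h2, h3, h4, h5⟩ := ih (by omega) (by omega)
      have hL₂ : L₂ = [] := List.eq_nil_of_length_eq_zero h2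
      subst hL₂
      obtain ⟨x, hx1, hx2⟩ := exists_point V W L₁ L₁ h3 h4 (by omega) (by omega)
      exact ⟨x :: L₁, [], by simp [h1], rfl, hx1, hx2, trivial⟩
  | succ b ih =>
    obtain ⟨L₁, L₂, h1, h2, h3, h4, h5⟩ := ih (by omega) (by omega)
    obtain ⟨x, hx1, hx2⟩ := exists_point V W (L₂ ++ L₁) L₂ h3 h5
      (by rw [List.length_append]; omega) (by omega)
    exact ⟨L₁, x :: L₂, h1, by simp [h2], hx1, h4, hx2⟩

/-- Independence: a combination of the evaluations which vanishes on `W` is trivial. -/
theorem ind_eq_zero {m : ℕ} (W : Submodule K (MvPolynomial (Fin m) K)) (L : List (Fin m → K))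
    (hL : Ind W L) (a : (Fin m → K) → K)
    (h : ∀ g ∈ W, (L.map fun x => a x * eval x g).sum = 0) : ∀ x ∈ L, a x = 0 := by
  induction L with
  | nil => intro x hx; simp at hx
  | cons y L ih =>
    obtain ⟨⟨u, hu, huy⟩, hL'⟩ := hL
    have h1 := h u hu.1
    rw [List.map_cons, List.sum_cons] at h1
    have h2 : (L.map fun x => a x * eval x u).sum = 0 := by
      apply List.sum_eq_zero
      intro z hz
      obtain ⟨x, hx, rfl⟩ := List.mem_map.1 hz
      rw [hu.2 x hx, mul_zero]
    rw [h2, add_zero] at h1
    have hay : a y = 0 := (mul_eq_zero.1 h1).resolve_right huy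
    intro x hx
    rcases List.mem_cons.1 hx with rfl | hx
    · exact hay
    · refine ih hL' ?_ x hx
      intro g hg
      have h3 := h g hg
      rw [List.map_cons, List.sum_cons, hay, zero_mul, zero_add] at h3
      exact h3

/-- The functional `g ↦ ∑ g_D(x)`, where `g_D` is the component of degree `D`. -/
noncomputable def functional {m : ℕ} (D : ℕ) (L : List (Fin m → K)) :
    MvPolynomial (Fin m) K →ₗ[K] K :=
  (L.map fun x => ((aeval x).toLinearMap : MvPolynomial (Fin m) K →ₗ[K] K).comp
    (homogeneousComponent D)).sum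

theorem functional_apply {m : ℕ} (D : ℕ) (L : List (Fin m → K)) (g : MvPolynomial (Fin m) K) :
    functional D L g = (L.map fun x => eval x (homogeneousComponent D g)).sum := by
  unfold functional
  induction L with
  | nil => simp
  | cons x L ih =>
    rw [List.map_cons, List.sum_cons, List.map_cons, List.sum_cons, LinearMap.add_apply, ih]
    congr 1

/-- Two functionals on the forms of degree `14` in four variables such that no nonzero form of
degree `8` annihilates both. -/
theorem exists_functionals (K : Type*) [Field K] [Infinite K] :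
    ∃ l₁ l₂ : MvPolynomial (Fin 4) K →ₗ[K] K,
      (∀ d, d ≠ 14 → ∀ g ∈ Frm K 4 d, l₁ g = 0 ∧ l₂ g = 0) ∧
      ∀ h ∈ Frm K 4 8, (∀ g ∈ Frm K 4 6, l₁ (h * g) = 0) → (∀ g ∈ Frm K 4 6, l₂ (h * g) = 0) →
        h = 0 := by
  have r8 : finrank K (Frm K 4 8) = 165 := by
    rw [finrank_Frm]
    rfl
  have r6 : finrank K (Frm K 4 6) = 84 := by
    rw [finrank_Frm]
    rfl
  obtain ⟨L₁, L₂, h1, h2, hV, hW1, hW2⟩ := exists_points (Frm K 4 8) (Frm K 4 6) 84 81
    (by rw [r8]) (by rw [r6]) (by rw [r6]; norm_num)
  have hcomp : ∀ (d : ℕ) (g : MvPolynomial (Fin 4) K), g ∈ Frm K 4 d →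
      homogeneousComponent 14 g = if d = 14 then g else 0 := by
    intro d g hg
    ext ν
    rw [coeff_homogeneousComponent]
    by_cases hν : coeff ν g = 0
    · rw [hν]
      split_ifs <;> simp [hν]
    · have := mem_Frm.1 hg ν hν
      subst this
      split_ifs <;> simp
  have hmul : ∀ h ∈ Frm K 4 8, ∀ g ∈ Frm K 4 6, h * g ∈ Frm K 4 14 := by
    classical
    intro h hh g hg
    rw [mem_Frm] at hh hg ⊢
    intro ν hν
    rw [coeff_mul] at hν
    obtain ⟨x, hx, hne⟩ := Finset.exists_ne_zero_of_sum_ne_zero hν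
    have e1 := hh x.1 (left_ne_zero_of_mul hne)
    have e2 := hg x.2 (right_ne_zero_of_mul hne)
    rw [← Finset.HasAntidiagonal.mem_antidiagonal.1 hx, map_add, e1, e2]
  have hfun : ∀ L : List (Fin 4 → K), Ind (Frm K 4 6) L → ∀ h ∈ Frm K 4 8,
      (∀ g ∈ Frm K 4 6, functional 14 L (h * g) = 0) → ∀ x ∈ L, eval x h = 0 := by
    intro L hL h hh hz
    refine ind_eq_zero (Frm K 4 6) L hL (fun x => eval x h) ?_
    intro g hg
    have := hz g hg
    rw [functional_apply, hcomp 14 _ (hmul h hh g hg), if_pos rfl] at this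
    simpa [map_mul] using this
  refine ⟨functional 14 L₁, functional 14 L₂, ?_, ?_⟩
  · intro d hd g hg
    rw [functional_apply, functional_apply, hcomp d g hg, if_neg hd]
    simp
  · intro h hh hz1 hz2
    have e1 := hfun L₁ hW1 h hh hz1
    have e2 := hfun L₂ hW2 h hh hz2
    have hvan : h ∈ Van (Frm K 4 8) (L₂ ++ L₁) := by
      refine ⟨hh, fun y hy => ?_⟩
      rcases List.mem_append.1 hy with hy | hy
      · exact e2 y hy
      · exact e1 y hy
    have h3 := finrank_van_of_ind _ _ hV
    rw [List.length_append, h1, h2, r8] at h3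
    have hfin : FiniteDimensional K (Van (Frm K 4 8) (L₂ ++ L₁)) :=
      Submodule.finiteDimensional_of_le (van_le _ _)
    have h4 : Van (Frm K 4 8) (L₂ ++ L₁) = ⊥ := by
      apply Submodule.finrank_eq_zero.1
      omega
    rw [h4] at hvan
    exact (Submodule.mem_bot K).1 hvan

end Pool.Agent.Lib.P78a38c
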