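import Mathlib

set_option autoImplicit false

/-! Koszul complexes of commuting endomorphisms, defined recursively. -/

namespace Pool.Agent.Lib.P78a38c

universe u v

/-- Chains of the Koszul complex of `r` operators on `M`. -/
def Kos (M : Type u) : ℕ → Type u
  | 0 => M
  | r + 1 => Kos M r × Kos M r

instance Kos.instAddCommGroup (M : Type u) [AddCommGroup M] : (r : ℕ) → AddCommGroup (Kos M r)
  | 0 => inferInstanceAs (AddCommGroup M)
  | r + 1 =>
    letI := Kos.instAddCommGroup M r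
    inferInstanceAs (AddCommGroup (Kos M r × Kos M r))

section

variable {M : Type u} [AddCommGroup M] {N : Type v} [AddCommGroup N]

/-- The pair of two chains. -/
def kmk {r : ℕ} (a b : Kos M r) : Kos M (r + 1) := Prod.mk a b

omit [AddCommGroup M] in
theorem exists_kmk {r : ℕ} (c : Kos M (r + 1)) : ∃ a b : Kos M r, c = kmk a b :=
  ⟨Prod.fst c, Prod.snd c, rfl⟩

omit [AddCommGroup M] in
theorem kmk_inj {r : ℕ} {a b a' b' : Kos M r} (h : kmk a b = kmk a' b') : a = a' ∧ b = b' :=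
  ⟨congrArg Prod.fst h, congrArg Prod.snd h⟩

theorem kmk_zero {r : ℕ} : kmk (0 : Kos M r) 0 = 0 := rfl

theorem kmk_add {r : ℕ} (a b a' b' : Kos M r) : kmk a b + kmk a' b' = kmk (a + a') (b + b') := rfl

theorem kmk_sub {r : ℕ} (a b a' b' : Kos M r) : kmk a b - kmk a' b' = kmk (a - a') (b - b') := rfl

/-- Functoriality. -/
def kmap (f : M →+ N) : (r : ℕ) → Kos M r →+ Kos N r
  | 0 => f
  | r + 1 => (kmap f r).prodMap (kmap f r)

/-- The Koszul differential. -/
def kD (X : ℕ → M →+ M) : (r : ℕ) → Kos M r →+ Kos M r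
  | 0 => 0
  | r + 1 => ((kD X r).comp (AddMonoidHom.fst (Kos M r) (Kos M r)) +
      (kmap (X r) r).comp (AddMonoidHom.snd (Kos M r) (Kos M r))).prod
      (-(kD X r).comp (AddMonoidHom.snd (Kos M r) (Kos M r)))

/-- Chains of homological degree `p` with entries in `G`. -/
def lev (G : AddSubgroup M) : (r : ℕ) → ℤ → AddSubgroup (Kos M r)
  | 0, p => if p = 0 then G else ⊥
  | r + 1, p => (lev G r p).prod (lev G r (p - 1))

theorem kD_zero (X : ℕ → M →+ M) (c : Kos M 0) : kD X 0 c = 0 := rfl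

theorem kD_succ (X : ℕ → M →+ M) (r : ℕ) (a b : Kos M r) :
    kD X (r + 1) (kmk a b) =
      kmk (kD X r a + kmap (X r) r b) (- kD X r b) := rfl

theorem kmap_succ (f : M →+ N) (r : ℕ) (a b : Kos M r) :
    kmap f (r + 1) (kmk a b) = kmk (kmap f r a) (kmap f r b) := rfl

theorem mem_lev_succ (G : AddSubgroup M) (r : ℕ) (p : ℤ) (a b : Kos M r) :
    kmk a b ∈ lev G (r + 1) p ↔
      a ∈ lev G r p ∧ b ∈ lev G r (p - 1) := Iff.rfl

theorem mem_lev_zero_zero (G : AddSubgroup M) (c : Kos M 0) : c ∈ lev G 0 0 ↔ c ∈ G := by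
  change c ∈ (if (0 : ℤ) = 0 then G else ⊥) ↔ _
  rw [if_pos rfl]

theorem mem_lev_zero_ne (G : AddSubgroup M) {p : ℤ} (hp : p ≠ 0) (c : Kos M 0) :
    c ∈ lev G 0 p ↔ c = 0 := by
  change c ∈ (if p = 0 then G else ⊥) ↔ _
  rw [if_neg hp]
  exact AddSubgroup.mem_bot

theorem kmap_comp {P : Type*} [AddCommGroup P] (g : N →+ P) (f : M →+ N) (r : ℕ) (c : Kos M r) :
    kmap (g.comp f) r c = kmap g r (kmap f r c) := by
  induction r with
  | zero => rfl
  | succ r ih =>
    obtain ⟨a, b, rfl⟩ := exists_kmk c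
    rw [kmap_succ, kmap_succ, kmap_succ, ih, ih]

theorem kmap_id' (f : M →+ M) (hf : ∀ x, f x = x) (r : ℕ) (c : Kos M r) : kmap f r c = c := by
  induction r with
  | zero => exact hf c
  | succ r ih =>
    obtain ⟨a, b, rfl⟩ := exists_kmk c
    rw [kmap_succ, ih, ih]

theorem kmap_add (f g : M →+ N) (r : ℕ) (c : Kos M r) :
    kmap (f + g) r c = kmap f r c + kmap g r c := by
  induction r with
  | zero => rfl
  | succ r ih =>
    obtain ⟨a, b, rfl⟩ := exists_kmk c
    rw [kmap_succ, kmap_succ, kmap_succ, ih, ih]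
    rfl

theorem kmap_eq_zero (f : M →+ N) (hf : ∀ x, f x = 0) (r : ℕ) (c : Kos M r) :
    kmap f r c = 0 := by
  induction r with
  | zero => exact hf c
  | succ r ih =>
    obtain ⟨a, b, rfl⟩ := exists_kmk c
    rw [kmap_succ, ih, ih]
    rfl

/-- Compatibility of the differential with maps. -/
theorem kD_kmap (X : ℕ → M →+ M) (Y : ℕ → N →+ N) (f : M →+ N) (r : ℕ)
    (h : ∀ i < r, ∀ x, f (X i x) = Y i (f x)) (c : Kos M r) :
    kD Y r (kmap f r c) = kmap f r (kD X r c) := by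
  induction r with
  | zero =>
    rw [kD_zero, kD_zero, map_zero]
  | succ r ih =>
    obtain ⟨a, b, rfl⟩ := exists_kmk c
    rw [kD_succ, kmap_succ, kmap_succ, kD_succ, ih (fun i hi => h i (by omega)),
      ih (fun i hi => h i (by omega)), map_add, map_neg]
    have h1 : kmap (Y r) r (kmap f r b) = kmap f r (kmap (X r) r b) := by
      rw [← kmap_comp, ← kmap_comp]
      have : (Y r).comp f = f.comp (X r) := AddMonoidHom.ext fun x => (h r (by omega) x).symm
      rw [this]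
    rw [h1]

theorem kD_congr (X Y : ℕ → M →+ M) (r : ℕ) (h : ∀ i < r, X i = Y i) (c : Kos M r) :
    kD X r c = kD Y r c := by
  induction r with
  | zero => rfl
  | succ r ih =>
    obtain ⟨a, b, rfl⟩ := exists_kmk c
    rw [kD_succ, kD_succ, ih (fun i hi => h i (by omega)), ih (fun i hi => h i (by omega)),
      h r (by omega)]

theorem kD_kD (X : ℕ → M →+ M) (r : ℕ) (h : ∀ i < r, ∀ j < r, ∀ x, X i (X j x) = X j (X i x))
    (c : Kos M r) : kD X r (kD X r c) = 0 := by
  induction r with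
  | zero => rfl
  | succ r ih =>
    obtain ⟨a, b, rfl⟩ := exists_kmk c
    have ih' := ih (fun i hi j hj => h i (by omega) j (by omega))
    rw [kD_succ, kD_succ, map_add, map_neg, map_neg, ih', ih', neg_neg,
      kD_kmap X X (X r) r (fun i hi x => h r (by omega) i (by omega) x)]
    have : (0 : Kos M r) + kmap (X r) r (kD X r b) + -(kmap (X r) r) (kD X r b) = 0 := by abel
    rw [this, kmk_zero]

theorem kmap_mem (f : M →+ N) {G : AddSubgroup M} {G' : AddSubgroup N}
    (h : ∀ x ∈ G, f x ∈ G') (r : ℕ) (p : ℤ) (c : Kos M r) (hc : c ∈ lev G r p) :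
    kmap f r c ∈ lev G' r p := by
  induction r generalizing p with
  | zero =>
    by_cases hp : p = 0
    · subst hp
      rw [mem_lev_zero_zero] at hc ⊢
      exact h c hc
    · rw [mem_lev_zero_ne _ hp] at hc ⊢
      rw [hc, map_zero]
  | succ r ih =>
    obtain ⟨a, b, rfl⟩ := exists_kmk c
    rw [mem_lev_succ] at hc
    rw [kmap_succ, mem_lev_succ]
    exact ⟨ih p a hc.1, ih (p - 1) b hc.2⟩

theorem lev_mono {G G' : AddSubgroup M} (h : G ≤ G') (r : ℕ) (p : ℤ) (c : Kos M r)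
    (hc : c ∈ lev G r p) : c ∈ lev G' r p := by
  have := kmap_mem (AddMonoidHom.id M) (G' := G') (fun x hx => h hx) r p c hc
  rwa [kmap_id' _ (fun _ => rfl)] at this

theorem kD_mem (X : ℕ → M →+ M) {G G' : AddSubgroup M} (r : ℕ)
    (h : ∀ i < r, ∀ x ∈ G', X i x ∈ G) (p : ℤ) (c : Kos M r) (hc : c ∈ lev G' r (p + 1)) :
    kD X r c ∈ lev G r p := by
  induction r generalizing p with
  | zero => exact zero_mem _
  | succ r ih =>
    obtain ⟨a, b, rfl⟩ := exists_kmk c
    rw [mem_lev_succ] at hc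
    rw [kD_succ, mem_lev_succ]
    have hb : b ∈ lev G' r p := by
      have := hc.2
      rwa [add_sub_cancel_right] at this
    refine ⟨add_mem (ih (fun i hi => h i (by omega)) p a hc.1)
      (kmap_mem (X r) (h r (by omega)) r p b hb), neg_mem ?_⟩
    apply ih (fun i hi => h i (by omega)) (p - 1)
    rwa [sub_add_cancel]

/-- Chains in degrees outside `0, …, r` vanish. -/
theorem lev_eq_zero (G : AddSubgroup M) (r : ℕ) (p : ℤ) (hp : p < 0 ∨ (r : ℤ) < p) (c : Kos M r)
    (hc : c ∈ lev G r p) : c = 0 := by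
  induction r generalizing p with
  | zero => exact (mem_lev_zero_ne G (by push_cast at hp; omega) c).1 hc
  | succ r ih =>
    obtain ⟨a, b, rfl⟩ := exists_kmk c
    rw [mem_lev_succ] at hc
    push_cast at hp
    rw [ih p (by omega) a hc.1, ih (p - 1) (by omega) b hc.2]
    rfl

/-- Exactness of the Koszul complex in homological degree `p`: cycles with entries in `G` are
boundaries of chains with entries in `G'`. -/
def Ex (X : ℕ → M →+ M) (r : ℕ) (p : ℤ) (G' G : AddSubgroup M) : Prop :=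
  ∀ c ∈ lev G r p, kD X r c = 0 → ∃ c' ∈ lev G' r (p + 1), kD X r c' = c

theorem Ex.mono {X : ℕ → M →+ M} {r : ℕ} {p : ℤ} {G' G G₁' G₁ : AddSubgroup M}
    (h : Ex X r p G' G) (h1 : G₁ ≤ G) (h2 : G' ≤ G₁') : Ex X r p G₁' G₁ := by
  intro c hc hD
  obtain ⟨c', hc', hDc'⟩ := h c (lev_mono h1 r p c hc) hD
  exact ⟨c', lev_mono h2 r (p + 1) c' hc', hDc'⟩

theorem Ex.congr {X Y : ℕ → M →+ M} {r : ℕ} {p : ℤ} {G' G : AddSubgroup M}
    (h : Ex X r p G' G) (hXY : ∀ i < r, X i = Y i) : Ex Y r p G' G := by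
  intro c hc hD
  rw [← kD_congr X Y r hXY] at hD
  obtain ⟨c', hc', hDc'⟩ := h c hc hD
  exact ⟨c', hc', by rw [← kD_congr X Y r hXY, hDc']⟩

theorem ex_zero (X : ℕ → M →+ M) (p : ℤ) (hp : p ≠ 0) (G' G : AddSubgroup M) :
    Ex X 0 p G' G := by
  intro c hc _
  rw [mem_lev_zero_ne _ hp] at hc
  exact ⟨0, zero_mem _, by rw [hc, map_zero]⟩

/-- The general step: exactness for `r` operators gives exactness for `r + 1` operators. -/
theorem ex_step {X : ℕ → M →+ M} {r : ℕ} {p : ℤ} {G' G : AddSubgroup M}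
    (hX : ∀ x ∈ G', X r x ∈ G) (hcomm : ∀ i < r, ∀ x, X r (X i x) = X i (X r x))
    (h1 : Ex X r (p - 1) G' G) (h2 : Ex X r p G' G) : Ex X (r + 1) p G' G := by
  intro c hc hD
  obtain ⟨a, b, rfl⟩ := exists_kmk c
  rw [mem_lev_succ] at hc
  rw [kD_succ] at hD
  rw [← kmk_zero] at hD
  have hD1 : kD X r a + kmap (X r) r b = 0 := (kmk_inj hD).1
  have hD2 : kD X r b = 0 := neg_eq_zero.1 (kmk_inj hD).2
  obtain ⟨b', hb', hDb'⟩ := h1 b hc.2 hD2
  rw [sub_add_cancel] at hb'
  have hcomm' := kD_kmap X X (X r) r hcomm b'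
  obtain ⟨a', ha', hDa'⟩ := h2 (a + kmap (X r) r b')
    (add_mem hc.1 (kmap_mem (X r) hX r p b' hb')) (by
      rw [map_add, hcomm', hDb', hD1])
  refine ⟨kmk a' (-b'), ?_, ?_⟩
  · rw [mem_lev_succ, add_sub_cancel_right]
    exact ⟨ha', neg_mem hb'⟩
  · rw [kD_succ, map_neg, map_neg, hDa', hDb', neg_neg, add_neg_cancel_right]

/-- The regular step: the last operator has a left inverse commuting with the others. -/
theorem ex_reg {X : ℕ → M →+ M} {r : ℕ} {p : ℤ} {G' G : AddSubgroup M} (Δ : M →+ M)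
    (hΔX : ∀ x, Δ (X r x) = x) (hΔc : ∀ i < r, ∀ x, Δ (X i x) = X i (Δ x))
    (hΔ : ∀ x ∈ G, Δ x ∈ G') (hX : ∀ x ∈ G', X r x ∈ G)
    (hcomm : ∀ i < r, ∀ x, X r (X i x) = X i (X r x))
    (h : Ex X r p G' G) : Ex X (r + 1) p G' G := by
  intro c hc hD
  obtain ⟨a, b, rfl⟩ := exists_kmk c
  rw [mem_lev_succ] at hc
  rw [kD_succ] at hD
  rw [← kmk_zero] at hD
  have hD1 : kD X r a + kmap (X r) r b = 0 := (kmk_inj hD).1
  have hΔa := kmap_mem Δ hΔ r p a hc.1
  have e1 := kD_kmap X X Δ r hΔc a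
  have e2 := kD_kmap X X (X r) r hcomm (kmap Δ r a)
  have e3 : kmap Δ r (kmap (X r) r b) = b := by
    rw [← kmap_comp]
    exact kmap_id' _ hΔX r b
  have e4 : kmap Δ r (kD X r a) = - b := by
    have := congrArg (kmap Δ r) hD1
    rw [map_add, e3, map_zero] at this
    exact eq_neg_of_add_eq_zero_left this
  obtain ⟨a', ha', hDa'⟩ := h (a - kmap (X r) r (kmap Δ r a))
    (sub_mem hc.1 (kmap_mem (X r) hX r p _ hΔa)) (by
      rw [map_sub, e2, e1, e4, map_neg, sub_neg_eq_add, hD1])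
  refine ⟨kmk a' (kmap Δ r a), ?_, ?_⟩
  · rw [mem_lev_succ, add_sub_cancel_right]
    exact ⟨ha', hΔa⟩
  · rw [kD_succ, hDa', e1, e4, neg_neg, sub_add_cancel]

/-- The coregular step: the last operator has a right inverse commuting with the others. -/
theorem ex_coreg {X : ℕ → M →+ M} {r : ℕ} {p : ℤ} {G' G : AddSubgroup M} (Δ : M →+ M)
    (hΔX : ∀ x, X r (Δ x) = x) (hΔc : ∀ i < r, ∀ x, Δ (X i x) = X i (Δ x))
    (hΔ : ∀ x ∈ G, Δ x ∈ G') (hX : ∀ i < r + 1, ∀ x ∈ G', X i x ∈ G)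
    (hcomm : ∀ i < r, ∀ x, X r (X i x) = X i (X r x))
    (h : Ex X r (p - 1) G' G) : Ex X (r + 1) p G' G := by
  intro c hc hD
  obtain ⟨a, b, rfl⟩ := exists_kmk c
  rw [mem_lev_succ] at hc
  rw [kD_succ] at hD
  rw [← kmk_zero] at hD
  have hD1 : kD X r a + kmap (X r) r b = 0 := (kmk_inj hD).1
  have hD2 : kD X r b = 0 := neg_eq_zero.1 (kmk_inj hD).2
  have hΔa := kmap_mem Δ hΔ r p a hc.1
  have eX : ∀ w, kmap (X r) r (kmap Δ r w) = w := by
    intro w
    rw [← kmap_comp]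
    exact kmap_id' _ hΔX r w
  have hcX : ∀ w, kD X r (kmap (X r) r w) = kmap (X r) r (kD X r w) :=
    kD_kmap X X (X r) r hcomm
  have hcΔ : ∀ w, kD X r (kmap Δ r w) = kmap Δ r (kD X r w) := kD_kmap X X Δ r hΔc
  -- the modified second component
  have hb2 : b + kD X r (kmap Δ r a) ∈ lev G r (p - 1) := by
    refine add_mem hc.2 (kD_mem X r (fun i hi => hX i (by omega)) (p - 1) _ ?_)
    rwa [sub_add_cancel]
  have hb3 : kmap (X r) r (b + kD X r (kmap Δ r a)) = 0 := by
    rw [map_add, ← hcX, eX, add_comm, hD1]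
  have hb4 : kD X r (b + kD X r (kmap Δ r a)) = 0 := by
    rw [map_add, hD2, zero_add, hcΔ, hcΔ]
    have h1 : kD X r a = - kmap (X r) r b := eq_neg_of_add_eq_zero_left hD1
    rw [h1, map_neg, hcX, hD2, map_zero, neg_zero, map_zero]
  obtain ⟨w, hw, hDw⟩ := h _ hb2 hb4
  rw [sub_add_cancel] at hw
  have hw' : w - kmap Δ r (kmap (X r) r w) ∈ lev G' r p :=
    sub_mem hw (kmap_mem Δ hΔ r p _ (kmap_mem (X r) (hX r (by omega)) r p _ hw))
  have hDw' : kD X r (w - kmap Δ r (kmap (X r) r w)) = b + kD X r (kmap Δ r a) := by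
    rw [map_sub, hcΔ (kmap (X r) r w), hcX w, hDw, hb3, map_zero, sub_zero]
  have hXw' : kmap (X r) r (w - kmap Δ r (kmap (X r) r w)) = 0 := by
    rw [map_sub, eX, sub_self]
  generalize w - kmap Δ r (kmap (X r) r w) = w' at hw' hDw' hXw'
  refine ⟨kmk 0 (kmap Δ r a - w'), ?_, ?_⟩
  · rw [mem_lev_succ, add_sub_cancel_right]
    exact ⟨zero_mem _, sub_mem hΔa hw'⟩
  · rw [kD_succ, map_zero, zero_add, map_sub, eX, hXw', sub_zero, map_sub, hDw']
    congr 1
    abel

/-- Lifting chains along a map which is surjective on the entries. -/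
theorem kmap_lift (f : M →+ N) (G : AddSubgroup M) (r : ℕ) (p : ℤ) (c : Kos N r)
    (hc : c ∈ lev (G.map f) r p) : ∃ c' ∈ lev G r p, kmap f r c' = c := by
  induction r generalizing p with
  | zero =>
    by_cases hp : p = 0
    · subst hp
      rw [mem_lev_zero_zero] at hc
      obtain ⟨x, hx, hfx⟩ := hc
      exact ⟨x, (mem_lev_zero_zero G x).2 hx, hfx⟩
    · rw [mem_lev_zero_ne _ hp] at hc
      exact ⟨0, zero_mem _, by rw [hc, map_zero]⟩
  | succ r ih =>
    obtain ⟨a, b, rfl⟩ := exists_kmk c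
    rw [mem_lev_succ] at hc
    obtain ⟨a', ha', hfa⟩ := ih p a hc.1
    obtain ⟨b', hb', hfb⟩ := ih (p - 1) b hc.2
    exact ⟨kmk a' b', ⟨ha', hb'⟩, by rw [kmap_succ, hfa, hfb]⟩

theorem kmap_ker (f : M →+ N) (G : AddSubgroup M) (r : ℕ) (p : ℤ) (c : Kos M r)
    (hc : c ∈ lev G r p) (h : kmap f r c = 0) : c ∈ lev (G ⊓ f.ker) r p := by
  induction r generalizing p with
  | zero =>
    by_cases hp : p = 0
    · subst hp
      rw [mem_lev_zero_zero] at hc ⊢
      exact ⟨hc, h⟩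
    · rw [mem_lev_zero_ne _ hp] at hc ⊢
      exact hc
  | succ r ih =>
    obtain ⟨a, b, rfl⟩ := exists_kmk c
    rw [mem_lev_succ] at hc ⊢
    rw [kmap_succ] at h
    rw [← kmk_zero] at h
    exact ⟨ih p a hc.1 (kmk_inj h).1, ih (p - 1) b hc.2 (kmk_inj h).2⟩

/-- Dimension shifting, first direction. -/
theorem shift_forward {X : ℕ → M →+ M} {Y : ℕ → N →+ N} (f : M →+ N) (n : ℕ) (p : ℤ)
    (hf : ∀ i < n, ∀ x, f (X i x) = Y i (f x)) (G₀ G₁ G₂ : AddSubgroup M)
    (hX1 : ∀ i < n, ∀ x ∈ G₀, X i x ∈ G₁)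
    (hcomm : ∀ i < n, ∀ j < n, ∀ x, X i (X j x) = X j (X i x))
    (h1 : ∀ c ∈ lev (G₂ ⊓ f.ker) n (p - 1), kD X n c = 0 → ∃ u ∈ lev G₁ n p, kD X n u = c)
    (h2 : Ex Y n p (G₀.map f) (G₁.map f)) : Ex X n (p - 1) (G₁ ⊓ f.ker) (G₂ ⊓ f.ker) := by
  intro c hc hD
  obtain ⟨u, hu, hDu⟩ := h1 c hc hD
  have hfc : kmap f n c = 0 := by
    have : kmap f n c ∈ lev (⊥ : AddSubgroup N) n (p - 1) :=
      kmap_mem f (G := G₂ ⊓ f.ker) (G' := ⊥) (fun x hx => AddSubgroup.mem_bot.2 hx.2) n (p - 1) c hc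
    have h3 : ∀ (r : ℕ) (q : ℤ) (d : Kos N r), d ∈ lev (⊥ : AddSubgroup N) r q → d = 0 := by
      intro r
      induction r with
      | zero =>
        intro q d hd
        by_cases hq : q = 0
        · subst hq
          rw [mem_lev_zero_zero] at hd
          exact hd
        · exact (mem_lev_zero_ne _ hq d).1 hd
      | succ r ih =>
        intro q d hd
        obtain ⟨a, b, rfl⟩ := exists_kmk d
        rw [mem_lev_succ] at hd
        rw [ih q a hd.1, ih (q - 1) b hd.2]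
        rfl
    exact h3 _ _ _ this
  obtain ⟨v, hv, hDv⟩ := h2 (kmap f n u)
      (kmap_mem f (G := G₁) (G' := G₁.map f) (fun x hx => ⟨x, hx, rfl⟩) n p u hu) (by
    rw [kD_kmap X Y f n hf, hDu, hfc])
  obtain ⟨v', hv', hfv'⟩ := kmap_lift f G₀ n (p + 1) v hv
  refine ⟨u - kD X n v', ?_, ?_⟩
  · rw [sub_add_cancel]
    apply kmap_ker f G₁ n p
    · exact sub_mem hu (kD_mem X n hX1 p v' hv')
    · rw [map_sub, ← kD_kmap X Y f n hf, hfv', hDv, sub_self]
  · rw [map_sub, hDu, kD_kD X n hcomm, sub_zero]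

/-- Dimension shifting, second direction. -/
theorem shift_backward {X : ℕ → M →+ M} {Y : ℕ → N →+ N} (f : M →+ N) (n : ℕ) (p : ℤ)
    (hf : ∀ i < n, ∀ x, f (X i x) = Y i (f x)) (G₀ G₁ G₂ : AddSubgroup M)
    (hX2 : ∀ i < n, ∀ x ∈ G₁, X i x ∈ G₂)
    (hcomm : ∀ i < n, ∀ j < n, ∀ x, X i (X j x) = X j (X i x))
    (h1 : Ex X n p G₀ G₁)
    (h2 : Ex X n (p - 1) (G₁ ⊓ f.ker) (G₂ ⊓ f.ker)) : Ex Y n p (G₀.map f) (G₁.map f) := by
  intro c hc hD
  obtain ⟨u, hu, hfu⟩ := kmap_lift f G₁ n p c hc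
  obtain ⟨v, hv, hDv⟩ := h2 (kD X n u) (by
      apply kmap_ker f G₂ n (p - 1)
      · apply kD_mem X n hX2 (p - 1)
        rwa [sub_add_cancel]
      · rw [← kD_kmap X Y f n hf, hfu, hD]) (kD_kD X n hcomm u)
  rw [sub_add_cancel] at hv
  obtain ⟨w, hw, hDw⟩ := h1 (u - v) (sub_mem hu (lev_mono inf_le_left n p v hv)) (by
    rw [map_sub, hDv, sub_self])
  refine ⟨kmap f n w,
    kmap_mem f (G := G₀) (G' := G₀.map f) (fun x hx => ⟨x, hx, rfl⟩) n (p + 1) w hw, ?_⟩
  have hfv : kmap f n v = 0 := by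
    have : ∀ (r : ℕ) (q : ℤ) (d : Kos M r), d ∈ lev (G₁ ⊓ f.ker) r q → kmap f r d = 0 := by
      intro r
      induction r with
      | zero =>
        intro q d hd
        by_cases hq : q = 0
        · subst hq
          rw [mem_lev_zero_zero] at hd
          exact hd.2
        · rw [(mem_lev_zero_ne _ hq d).1 hd, map_zero]
      | succ r ih =>
        intro q d hd
        obtain ⟨a, b, rfl⟩ := exists_kmk d
        rw [mem_lev_succ] at hd
        rw [kmap_succ, ih q a hd.1, ih (q - 1) b hd.2]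
        rfl
    exact this _ _ _ hv
  rw [kD_kmap X Y f n hf, hDw, map_sub, hfu, hfv, sub_zero]

/-- The embedding in homological degree `0`. -/
def emb (r : ℕ) (x : M) : Kos M r :=
  match r with
  | 0 => x
  | _ + 1 => kmk (emb _ x) 0

theorem emb_mem (G : AddSubgroup M) (r : ℕ) (x : M) (hx : x ∈ G) : emb r x ∈ lev G r 0 := by
  induction r with
  | zero => exact (mem_lev_zero_zero G x).2 hx
  | succ r ih => exact ⟨ih, zero_mem _⟩

theorem kD_emb (X : ℕ → M →+ M) (r : ℕ) (x : M) : kD X r (emb r x) = 0 := by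
  induction r with
  | zero => rfl
  | succ r ih =>
    change kD X (r + 1) (kmk (emb r x) 0) = 0
    rw [kD_succ, ih, map_zero, map_zero, neg_zero, add_zero, kmk_zero]

theorem kmap_emb (f : M →+ N) (r : ℕ) (x : M) : kmap f r (emb r x) = emb r (f x) := by
  induction r with
  | zero => rfl
  | succ r ih =>
    change kmap f (r + 1) (kmk (emb r x) 0) = _
    rw [kmap_succ, ih, map_zero]
    rfl

theorem emb_add (r : ℕ) (x y : M) : emb r (x + y) = emb r x + emb r y := by
  induction r with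
  | zero => rfl
  | succ r ih =>
    change kmk (emb r (x + y)) 0 = kmk (emb r x) 0 + kmk (emb r y) 0
    rw [ih, kmk_add, add_zero]

theorem eq_emb (G : AddSubgroup M) (r : ℕ) (c : Kos M r) (hc : c ∈ lev G r 0) :
    ∃ x ∈ G, c = emb r x := by
  induction r with
  | zero => exact ⟨c, (mem_lev_zero_zero G c).1 hc, rfl⟩
  | succ r ih =>
    obtain ⟨a, b, rfl⟩ := exists_kmk c
    rw [mem_lev_succ] at hc
    obtain ⟨x, hx, hax⟩ := ih a hc.1
    refine ⟨x, hx, ?_⟩
    rw [lev_eq_zero G r (0 - 1) (Or.inl (by norm_num)) b hc.2, hax]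
    rfl

theorem emb_injective (r : ℕ) : Function.Injective (emb r : M → Kos M r) := by
  induction r with
  | zero => exact fun _ _ h => h
  | succ r ih => exact fun x y h => ih (kmk_inj h).1

/-- Boundaries in homological degree `0`. -/
theorem kD_one (X : ℕ → M →+ M) (G : AddSubgroup M) (r : ℕ) (c : Kos M r)
    (hc : c ∈ lev G r 1) : ∃ g : ℕ → M, (∀ i, g i ∈ G) ∧
      kD X r c = emb r (∑ i ∈ Finset.range r, X i (g i)) := by
  induction r with
  | zero => exact ⟨fun _ => 0, fun _ => zero_mem _, rfl⟩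
  | succ r ih =>
    obtain ⟨a, b, rfl⟩ := exists_kmk c
    rw [mem_lev_succ, sub_self] at hc
    obtain ⟨g, hg, hDa⟩ := ih a hc.1
    obtain ⟨x, hx, rfl⟩ := eq_emb G r b hc.2
    refine ⟨fun i => if i = r then x else g i, ?_, ?_⟩
    · intro i
      dsimp only
      split_ifs
      · exact hx
      · exact hg i
    · have : ∑ i ∈ Finset.range (r + 1), X i ((fun i => if i = r then x else g i) i) =
          ∑ i ∈ Finset.range r, X i (g i) + X r x := by
        rw [Finset.sum_range_succ]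
        congr 1
        · refine Finset.sum_congr rfl fun i hi => ?_
          have := Finset.mem_range.1 hi
          simp only
          rw [if_neg (by omega)]
        · simp
      rw [this, kD_succ, hDa, kD_emb, kmap_emb, ← emb_add, neg_zero]
      rfl

/-- The embedding in the top homological degree. -/
def topEmb (r : ℕ) (x : M) : Kos M r :=
  match r with
  | 0 => x
  | _ + 1 => kmk 0 (topEmb _ x)

theorem topEmb_mem (G : AddSubgroup M) (r : ℕ) (x : M) (hx : x ∈ G) :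
    topEmb r x ∈ lev G r r := by
  induction r with
  | zero => exact (mem_lev_zero_zero G x).2 hx
  | succ r ih =>
    refine ⟨zero_mem _, ?_⟩
    push_cast
    rw [add_sub_cancel_right]
    exact ih

theorem topEmb_injective (r : ℕ) : Function.Injective (topEmb r : M → Kos M r) := by
  induction r with
  | zero => exact fun _ _ h => h
  | succ r ih => exact fun x y h => ih (kmk_inj h).2

theorem topEmb_zero (r : ℕ) : topEmb r (0 : M) = 0 := by
  induction r with
  | zero => rfl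
  | succ r ih =>
    change kmk 0 (topEmb r 0) = 0
    rw [ih, kmk_zero]

theorem kmap_topEmb (f : M →+ N) (r : ℕ) (x : M) : kmap f r (topEmb r x) = topEmb r (f x) := by
  induction r with
  | zero => rfl
  | succ r ih =>
    change kmap f (r + 1) (kmk 0 (topEmb r x)) = _
    rw [kmap_succ, ih, map_zero]
    rfl

theorem kD_topEmb (X : ℕ → M →+ M) (r : ℕ) (x : M) (hx : ∀ i < r, X i x = 0) :
    kD X r (topEmb r x) = 0 := by
  induction r with
  | zero => rfl
  | succ r ih =>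
    change kD X (r + 1) (kmk 0 (topEmb r x)) = 0
    rw [kD_succ, ih (fun i hi => hx i (by omega)), map_zero, kmap_topEmb, hx r (by omega),
      topEmb_zero, neg_zero, add_zero, kmk_zero]

end

end Pool.Agent.Lib.P78a38c
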