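import Mathlib
import Pool.Agent.Lib.P78a38c.Kos

set_option autoImplicit false

/-! Koszul complexes of free modules over a polynomial ring. -/

namespace Pool.Agent.Lib.P78a38c

open MvPolynomial

variable {K : Type*} [Field K] {n : ℕ}

/-- Multiplication by the `i`-th variable. -/
noncomputable def xop (K : Type*) [Field K] (n i : ℕ) :
    MvPolynomial (Fin n) K →+ MvPolynomial (Fin n) K :=
  if h : i < n then AddMonoidHom.mulLeft (X ⟨i, h⟩) else 0

/-- Division by the `i`-th variable. -/
noncomputable def dop (K : Type*) [Field K] (n i : ℕ) :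
    MvPolynomial (Fin n) K →+ MvPolynomial (Fin n) K :=
  if h : i < n then
    { toFun := fun p => p.divMonomial (Finsupp.single ⟨i, h⟩ 1)
      map_zero' := zero_divMonomial _
      map_add' := fun p q => add_divMonomial p q _ }
  else 0

theorem xop_apply {i : ℕ} (h : i < n) (p : MvPolynomial (Fin n) K) :
    xop K n i p = X ⟨i, h⟩ * p := by
  unfold xop
  rw [dif_pos h]
  rfl

theorem dop_apply {i : ℕ} (h : i < n) (p : MvPolynomial (Fin n) K) :
    dop K n i p = p.divMonomial (Finsupp.single ⟨i, h⟩ 1) := by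
  unfold dop
  rw [dif_pos h]
  rfl

theorem dop_xop {i : ℕ} (h : i < n) (p : MvPolynomial (Fin n) K) :
    dop K n i (xop K n i p) = p := by
  rw [xop_apply h, dop_apply h, X_mul_divMonomial]

theorem coeff_dop {i : ℕ} (h : i < n) (p : MvPolynomial (Fin n) K) (ν : Fin n →₀ ℕ) :
    coeff ν (dop K n i p) = coeff (Finsupp.single ⟨i, h⟩ 1 + ν) p := by
  rw [dop_apply h]
  exact coeff_divMonomial _ _ _

theorem dop_xop_ne {i j : ℕ} (hi : i < n) (hj : j < n) (hij : i ≠ j)
    (p : MvPolynomial (Fin n) K) :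
    dop K n i (xop K n j p) = xop K n j (dop K n i p) := by
  classical
  have hne : (⟨i, hi⟩ : Fin n) ≠ (⟨j, hj⟩ : Fin n) := fun h => hij (congrArg Fin.val h)
  ext ν
  rw [coeff_dop hi, xop_apply hj, xop_apply hj, coeff_X_mul', coeff_X_mul', coeff_dop hi]
  have h1 : (⟨j, hj⟩ : Fin n) ∈ (Finsupp.single (⟨i, hi⟩ : Fin n) 1 + ν).support ↔
      (⟨j, hj⟩ : Fin n) ∈ ν.support := by
    rw [Finsupp.mem_support_iff, Finsupp.mem_support_iff, Finsupp.add_apply,
      Finsupp.single_eq_of_ne hne.symm, zero_add]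
  by_cases h2 : (⟨j, hj⟩ : Fin n) ∈ ν.support
  · rw [if_pos (h1.2 h2), if_pos h2]
    congr 1
    ext k
    simp only [Finsupp.coe_tsub, Finsupp.coe_add, Pi.sub_apply, Pi.add_apply]
    by_cases hk : k = ⟨j, hj⟩
    · subst hk
      rw [Finsupp.single_eq_of_ne hne.symm, Finsupp.single_eq_same]
      omega
    · rw [Finsupp.single_eq_of_ne (a := (⟨j, hj⟩ : Fin n)) hk]
      omega
  · rw [if_neg (fun h => h2 (h1.1 h)), if_neg h2]

theorem xop_comm (i j : ℕ) (p : MvPolynomial (Fin n) K) :
    xop K n i (xop K n j p) = xop K n j (xop K n i p) := by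
  by_cases hi : i < n
  · by_cases hj : j < n
    · rw [xop_apply hi, xop_apply hj, xop_apply hj, xop_apply hi]
      ring
    · unfold xop
      rw [dif_neg hj]
      simp
  · unfold xop
    rw [dif_neg hi]
    simp

/-- Polynomials all of whose monomials have degree `i - c`. -/
def hgrp (K : Type*) [Field K] (n : ℕ) (c : ℕ) (i : ℤ) : AddSubgroup (MvPolynomial (Fin n) K) where
  carrier := {p | ∀ ν, coeff ν p ≠ 0 → (ν.degree : ℤ) + c = i}
  zero_mem' := fun ν h => absurd (coeff_zero ν) h
  add_mem' := by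
    intro p q hp hq ν h
    rw [coeff_add] at h
    by_cases h1 : coeff ν p = 0
    · by_cases h2 : coeff ν q = 0
      · rw [h1, h2, add_zero] at h
        exact absurd rfl h
      · exact hq ν h2
    · exact hp ν h1
  neg_mem' := by
    intro p hp ν h
    rw [coeff_neg] at h
    exact hp ν (fun h1 => h (by rw [h1, neg_zero]))

theorem xop_mem {c : ℕ} {i : ℤ} (j : ℕ) (p : MvPolynomial (Fin n) K) (hp : p ∈ hgrp K n c (i - 1)) :
    xop K n j p ∈ hgrp K n c i := by
  classical
  by_cases hj : j < n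
  · intro ν h
    rw [xop_apply hj, coeff_X_mul'] at h
    split_ifs at h with h1
    · have h2 := hp _ h
      have h3 : Finsupp.single (⟨j, hj⟩ : Fin n) 1 ≤ ν := by
        rw [Finsupp.single_le_iff]
        exact Nat.one_le_iff_ne_zero.2 (Finsupp.mem_support_iff.1 h1)
      have h4 : ν.degree = (ν - Finsupp.single (⟨j, hj⟩ : Fin n) 1).degree + 1 := by
        conv_lhs => rw [← tsub_add_cancel_of_le h3]
        rw [map_add, Finsupp.degree_single]
      rw [h4]
      push_cast
      linarith
    · exact absurd rfl h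
  · unfold xop
    rw [dif_neg hj]
    exact zero_mem _

theorem dop_mem {c : ℕ} {i : ℤ} (j : ℕ) (p : MvPolynomial (Fin n) K) (hp : p ∈ hgrp K n c i) :
    dop K n j p ∈ hgrp K n c (i - 1) := by
  by_cases hj : j < n
  · intro ν h
    rw [coeff_dop hj] at h
    have h2 := hp _ h
    rw [map_add, Finsupp.degree_single] at h2
    push_cast at h2
    linarith
  · unfold dop
    rw [dif_neg hj]
    exact zero_mem _

section vectors

variable {k : ℕ}

/-- Multiplication by a variable on vectors. -/
noncomputable def vx (K : Type*) [Field K] (n k : ℕ) (i : ℕ) :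
    (Fin k → MvPolynomial (Fin n) K) →+ (Fin k → MvPolynomial (Fin n) K) :=
  (xop K n i).compLeft (Fin k)

/-- Homogeneous vectors. -/
def Hm (K : Type*) [Field K] (n : ℕ) {k : ℕ} (e : Fin k → ℕ) (i : ℤ) :
    AddSubgroup (Fin k → MvPolynomial (Fin n) K) where
  carrier := {v | ∀ l, v l ∈ hgrp K n (e l) i}
  zero_mem' := fun _ => zero_mem _
  add_mem' := fun hv hw l => add_mem (hv l) (hw l)
  neg_mem' := fun hv l => neg_mem (hv l)

theorem vx_apply (i : ℕ) (v : Fin k → MvPolynomial (Fin n) K) (l : Fin k) :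
    vx K n k i v l = xop K n i (v l) := rfl

theorem vx_eq {i : ℕ} (h : i < n) (v : Fin k → MvPolynomial (Fin n) K) :
    vx K n k i v = (X ⟨i, h⟩ : MvPolynomial (Fin n) K) • v := by
  ext1 l
  rw [vx_apply, xop_apply h]
  rfl

theorem vx_comm (i j : ℕ) (v : Fin k → MvPolynomial (Fin n) K) :
    vx K n k i (vx K n k j v) = vx K n k j (vx K n k i v) := by
  ext1 l
  exact xop_comm i j (v l)

theorem vx_mem (e : Fin k → ℕ) (i : ℤ) (j : ℕ) (v : Fin k → MvPolynomial (Fin n) K)
    (hv : v ∈ Hm K n e (i - 1)) : vx K n k j v ∈ Hm K n e i :=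
  fun l => xop_mem j (v l) (hv l)

/-- The Koszul complex of a free module is exact in positive degrees. -/
theorem ex_free (e : Fin k → ℕ) (i : ℤ) (p : ℤ) (hp : p ≠ 0) (r : ℕ) (hr : r ≤ n) :
    Ex (vx K n k) r p (Hm K n e (i - 1)) (Hm K n e i) := by
  induction r with
  | zero => exact ex_zero _ p hp _ _
  | succ r ih =>
    refine ex_reg ((dop K n r).compLeft (Fin k)) ?_ ?_ ?_ ?_ ?_ (ih (by omega))
    · intro v
      ext1 l
      exact dop_xop (by omega) (v l)
    · intro j hj v
      ext1 l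
      exact dop_xop_ne (by omega) (by omega) (by omega) (v l)
    · intro v hv l
      exact dop_mem r (v l) (hv l)
    · intro v hv
      exact vx_mem e i r v hv
    · intro j hj v
      exact vx_comm r j v

/-- Vectors without constant terms are boundaries. -/
theorem exists_boundary (e : Fin k → ℕ) (i : ℤ) (r : ℕ) (hr : r ≤ n) :
    ∀ u ∈ Hm K n e i, (∀ l ν, coeff ν (u l) ≠ 0 → ∃ j : Fin n, (j : ℕ) < r ∧ ν j ≠ 0) →
    ∃ w ∈ lev (Hm K n e (i - 1)) r 1, kD (vx K n k) r w = emb r u := by
  classical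
  induction r with
  | zero =>
    intro u hu h
    have : u = 0 := by
      ext1 l
      ext ν
      by_contra h1
      obtain ⟨j, hj, -⟩ := h l ν h1
      omega
    subst this
    exact ⟨0, zero_mem _, rfl⟩
  | succ r ih =>
    intro u hu h
    have hrn : r < n := by omega
    let Δu : Fin k → MvPolynomial (Fin n) K := fun l => dop K n r (u l)
    have hΔu : Δu ∈ Hm K n e (i - 1) := fun l => dop_mem r (u l) (hu l)
    have hXΔu := vx_mem e i r Δu hΔu
    obtain ⟨w, hw, hDw⟩ := ih (by omega) (u - vx K n k r Δu) (sub_mem hu hXΔu) (by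
      intro l ν hν
      have h1 : coeff ν ((u - vx K n k r Δu) l) =
          coeff ν (u l) - coeff ν (xop K n r (dop K n r (u l))) := by
        rw [Pi.sub_apply, vx_apply, coeff_sub]
      rw [h1, xop_apply hrn, coeff_X_mul'] at hν
      by_cases h2 : (⟨r, hrn⟩ : Fin n) ∈ ν.support
      · exfalso
        apply hν
        rw [if_pos h2, coeff_dop hrn, add_tsub_cancel_of_le, sub_self]
        rw [Finsupp.single_le_iff]
        exact Nat.one_le_iff_ne_zero.2 (Finsupp.mem_support_iff.1 h2)
      · rw [if_neg h2, sub_zero] at hν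
        obtain ⟨j, hj, hj2⟩ := h l ν hν
        refine ⟨j, ?_, hj2⟩
        by_contra h3
        have h4 : j = ⟨r, hrn⟩ := Fin.ext (by change (j : ℕ) = r; omega)
        rw [h4] at hj2
        exact h2 (Finsupp.mem_support_iff.2 hj2))
    refine ⟨kmk w (emb r Δu), ?_, ?_⟩
    · rw [mem_lev_succ, sub_self]
      exact ⟨hw, emb_mem _ r Δu hΔu⟩
    · rw [kD_succ, hDw, kmap_emb, ← emb_add, sub_add_cancel, kD_emb, neg_zero]
      rfl

end vectors

end Pool.Agent.Lib.P78a38c
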