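import Mathlib
import Pool.Agent.Lib.P78a38c.Poly
import Pool.Agent.Lib.P78a38c.Points

set_option autoImplicit false

/-! The graded module `S' ⊕ Hom(S', K)` and its Koszul complexes. -/

namespace Pool.Agent.Lib.P78a38c

open MvPolynomial

variable {K : Type*} [Field K]

theorem mem_hgrp_iff {n : ℕ} (d : ℕ) (p : MvPolynomial (Fin n) K) :
    p ∈ hgrp K n 0 d ↔ p ∈ Frm K n d := by
  rw [mem_Frm]
  constructor
  · intro h ν hν
    have := h ν hν
    push_cast at this
    omega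
  · intro h ν hν
    have := h ν hν
    push_cast
    omega

theorem hgrp_neg {n : ℕ} (i : ℤ) (hi : i < 0) (p : MvPolynomial (Fin n) K)
    (hp : p ∈ hgrp K n 0 i) : p = 0 := by
  ext ν
  by_contra h
  have := hp ν h
  push_cast at this
  omega

theorem Frm_mul {n a b : ℕ} {p q : MvPolynomial (Fin n) K} (hp : p ∈ Frm K n a)
    (hq : q ∈ Frm K n b) : p * q ∈ Frm K n (a + b) := by
  classical
  rw [mem_Frm] at hp hq ⊢
  intro ν hν
  rw [coeff_mul] at hν
  obtain ⟨x, hx, hne⟩ := Finset.exists_ne_zero_of_sum_ne_zero hν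
  have e1 := hp x.1 (left_ne_zero_of_mul hne)
  have e2 := hq x.2 (right_ne_zero_of_mul hne)
  rw [← Finset.HasAntidiagonal.mem_antidiagonal.1 hx, map_add, e1, e2]

theorem X_mem_Frm {n : ℕ} (i : Fin n) : (X i : MvPolynomial (Fin n) K) ∈ Frm K n 1 := by
  classical
  rw [mem_Frm]
  intro ν hν
  rw [coeff_X] at hν
  have : Finsupp.single i 1 = ν := by
    by_contra h
    exact hν (if_neg h)
  rw [← this, Finsupp.degree_single]

theorem hc_mem_Frm {n : ℕ} (d : ℕ) (p : MvPolynomial (Fin n) K) :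
    homogeneousComponent d p ∈ Frm K n d := by
  rw [mem_Frm]
  intro ν hν
  rw [coeff_homogeneousComponent] at hν
  by_contra h
  exact hν (if_neg h)

theorem hc_of_mem {n : ℕ} {d : ℕ} {p : MvPolynomial (Fin n) K} (hp : p ∈ Frm K n d) (e : ℕ) :
    homogeneousComponent e p = if e = d then p else 0 := by
  ext ν
  rw [coeff_homogeneousComponent]
  by_cases hν : coeff ν p = 0
  · rw [hν]
    split_ifs <;> simp [hν]
  · have := mem_Frm.1 hp ν hν
    subst this
    by_cases h : e = ν.degree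
    · subst h
      simp
    · rw [if_neg (fun h2 => h h2.symm), if_neg h, coeff_zero]

/-- Koszul exactness on the polynomial ring itself. -/
theorem ex_poly {n : ℕ} (c : ℕ) (i p : ℤ) (hp : p ≠ 0) (r : ℕ) (hr : r ≤ n) :
    Ex (xop K n) r p (hgrp K n c (i - 1)) (hgrp K n c i) := by
  induction r with
  | zero => exact ex_zero _ p hp _ _
  | succ r ih =>
    refine ex_reg (dop K n r) (fun p => dop_xop (by omega) p) ?_ (fun p hp => dop_mem r p hp)
      (fun p hp => xop_mem r p hp) (fun j _ p => xop_comm r j p) (ih (by omega))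
    intro j hj p
    exact dop_xop_ne (by omega) (by omega) (by omega) p

section dual

variable (K) (n : ℕ)

/-- The transpose of the multiplication by a variable. -/
noncomputable def yop (i : ℕ) : (MvPolynomial (Fin n) K →ₗ[K] K) →+
    (MvPolynomial (Fin n) K →ₗ[K] K) :=
  if h : i < n then
    { toFun := fun φ => φ.comp (LinearMap.mulLeft K (X ⟨i, h⟩))
      map_zero' := LinearMap.zero_comp _
      map_add' := fun _ _ => LinearMap.add_comp _ _ _ }
  else 0

/-- Division by a variable as a linear map. -/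
noncomputable def dopL (i : Fin n) : MvPolynomial (Fin n) K →ₗ[K] MvPolynomial (Fin n) K where
  toFun p := p.divMonomial (Finsupp.single i 1)
  map_add' p q := add_divMonomial p q _
  map_smul' c p := by
    ext ν
    simp only [coeff_divMonomial, coeff_smul, RingHom.id_apply]

/-- The transpose of the division by a variable. -/
noncomputable def zop (i : ℕ) : (MvPolynomial (Fin n) K →ₗ[K] K) →+
    (MvPolynomial (Fin n) K →ₗ[K] K) :=
  if h : i < n then
    { toFun := fun φ => φ.comp (dopL K n ⟨i, h⟩)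
      map_zero' := LinearMap.zero_comp _
      map_add' := fun _ _ => LinearMap.add_comp _ _ _ }
  else 0

variable {K} {n}

theorem yop_apply {i : ℕ} (h : i < n) (φ : MvPolynomial (Fin n) K →ₗ[K] K)
    (g : MvPolynomial (Fin n) K) : yop K n i φ g = φ (X ⟨i, h⟩ * g) := by
  unfold yop
  rw [dif_pos h]
  rfl

theorem zop_apply {i : ℕ} (h : i < n) (φ : MvPolynomial (Fin n) K →ₗ[K] K)
    (g : MvPolynomial (Fin n) K) : zop K n i φ g = φ (dop K n i g) := by
  unfold zop
  rw [dif_pos h, dop_apply h]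
  rfl

theorem yop_zop {i : ℕ} (h : i < n) (φ : MvPolynomial (Fin n) K →ₗ[K] K) :
    yop K n i (zop K n i φ) = φ := by
  refine LinearMap.ext fun g => ?_
  rw [yop_apply h, zop_apply h, ← xop_apply h, dop_xop h]

theorem yop_comm {i j : ℕ} (hi : i < n) (hj : j < n) (φ : MvPolynomial (Fin n) K →ₗ[K] K) :
    yop K n i (yop K n j φ) = yop K n j (yop K n i φ) := by
  refine LinearMap.ext fun g => ?_
  rw [yop_apply hi, yop_apply hj, yop_apply hj, yop_apply hi]
  congr 1
  ring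

theorem zop_yop {i j : ℕ} (hi : i < n) (hj : j < n) (hij : i ≠ j)
    (φ : MvPolynomial (Fin n) K →ₗ[K] K) :
    zop K n i (yop K n j φ) = yop K n j (zop K n i φ) := by
  refine LinearMap.ext fun g => ?_
  rw [zop_apply hi, yop_apply hj, yop_apply hj, zop_apply hi, ← xop_apply hj, ← xop_apply hj,
    dop_xop_ne hi hj hij]

/-- Functionals supported in degree `k`. -/
def Dgrp (K : Type*) [Field K] (n : ℕ) (k : ℤ) : AddSubgroup (MvPolynomial (Fin n) K →ₗ[K] K) where
  carrier := {φ | ∀ d : ℕ, (d : ℤ) ≠ k → ∀ g ∈ Frm K n d, φ g = 0}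
  zero_mem' := fun _ _ _ _ => rfl
  add_mem' := fun h1 h2 d hd g hg => by
    rw [LinearMap.add_apply, h1 d hd g hg, h2 d hd g hg, add_zero]
  neg_mem' := fun h d hd g hg => by
    rw [LinearMap.neg_apply, h d hd g hg, neg_zero]

theorem yop_mem {i : ℕ} (h : i < n) (k : ℤ) (φ : MvPolynomial (Fin n) K →ₗ[K] K)
    (hφ : φ ∈ Dgrp K n (k + 1)) : yop K n i φ ∈ Dgrp K n k := by
  intro d hd g hg
  rw [yop_apply h]
  refine hφ (1 + d) ?_ _ (Frm_mul (X_mem_Frm _) hg)
  push_cast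
  omega

theorem zop_mem {i : ℕ} (h : i < n) (k : ℤ) (φ : MvPolynomial (Fin n) K →ₗ[K] K)
    (hφ : φ ∈ Dgrp K n k) : zop K n i φ ∈ Dgrp K n (k + 1) := by
  intro d hd g hg
  rw [zop_apply h]
  have h1 := dop_mem i g ((mem_hgrp_iff d g).2 hg)
  rcases Nat.eq_zero_or_pos d with rfl | hd0
  · rw [hgrp_neg _ (by norm_num) _ h1, map_zero]
  · have e : ((d : ℤ) - 1) = ((d - 1 : ℕ) : ℤ) := by omega
    rw [e, mem_hgrp_iff] at h1
    exact hφ (d - 1) (by omega) _ h1

/-- Koszul exactness for the dual. -/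
theorem ex_dual (r : ℕ) (hr : r ≤ n) (p : ℤ) (hp : p ≠ r) (k : ℤ) :
    Ex (yop K n) r p (Dgrp K n (k + 1)) (Dgrp K n k) := by
  induction r generalizing p with
  | zero => exact ex_zero _ p (by simpa using hp) _ _
  | succ r ih =>
    refine ex_coreg (zop K n r) (fun φ => yop_zop (by omega) φ) ?_
      (fun φ hφ => zop_mem (by omega) k φ hφ) (fun i hi φ hφ => yop_mem (by omega) k φ hφ)
      (fun i hi φ => yop_comm (by omega) (by omega) φ)
      (ih (by omega) (p - 1) (by push_cast at hp; omega))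
    intro i hi φ
    exact zop_yop (by omega) (by omega) (by omega) φ

/-- Two functionals supported in degree `k` which agree on the forms of degree `k` are equal. -/
theorem Dgrp_ext {k : ℤ} {φ ψ : MvPolynomial (Fin n) K →ₗ[K] K} (hφ : φ ∈ Dgrp K n k)
    (hψ : ψ ∈ Dgrp K n k) (h : ∀ d : ℕ, (d : ℤ) = k → ∀ g ∈ Frm K n d, φ g = ψ g) : φ = ψ := by
  refine LinearMap.ext fun g => ?_
  rw [← sum_homogeneousComponent g, map_sum, map_sum]
  refine Finset.sum_congr rfl fun d _ => ?_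
  by_cases hd : (d : ℤ) = k
  · exact h d hd _ (hc_mem_Frm d g)
  · rw [hφ d hd _ (hc_mem_Frm d g), hψ d hd _ (hc_mem_Frm d g)]

end dual

/-- Products of Koszul complexes. -/
theorem ex_prod {M₁ M₂ : Type*} [AddCommGroup M₁] [AddCommGroup M₂] {X₁ : ℕ → M₁ →+ M₁}
    {X₂ : ℕ → M₂ →+ M₂} {Y : ℕ → (M₁ × M₂) →+ (M₁ × M₂)} {r : ℕ} {p : ℤ}
    {G₁' G₁ : AddSubgroup M₁} {G₂' G₂ : AddSubgroup M₂}
    (hY : ∀ i < r, ∀ x, Y i x = (X₁ i x.1, X₂ i x.2))
    (h1 : Ex X₁ r p G₁' G₁) (h2 : Ex X₂ r p G₂' G₂) :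
    Ex Y r p (G₁'.prod G₂') (G₁.prod G₂) := by
  intro c hc hD
  have f1 := kD_kmap Y X₁ (AddMonoidHom.fst M₁ M₂) r (fun i hi x => by rw [hY i hi]; rfl) c
  have f2 := kD_kmap Y X₂ (AddMonoidHom.snd M₁ M₂) r (fun i hi x => by rw [hY i hi]; rfl) c
  rw [hD, map_zero] at f1 f2
  obtain ⟨c₁, hc₁, hDc₁⟩ := h1 _ (kmap_mem (AddMonoidHom.fst M₁ M₂) (G' := G₁)
    (fun x (hx : x ∈ G₁.prod G₂) => hx.1) r p c hc) f1
  obtain ⟨c₂, hc₂, hDc₂⟩ := h2 _ (kmap_mem (AddMonoidHom.snd M₁ M₂) (G' := G₂)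
    (fun x (hx : x ∈ G₁.prod G₂) => hx.2) r p c hc) f2
  refine ⟨kmap (AddMonoidHom.inl M₁ M₂) r c₁ + kmap (AddMonoidHom.inr M₁ M₂) r c₂,
    add_mem (kmap_mem (AddMonoidHom.inl M₁ M₂) (G := G₁') (G' := G₁'.prod G₂')
        (fun x hx => ⟨hx, zero_mem _⟩) r _ c₁ hc₁)
      (kmap_mem (AddMonoidHom.inr M₁ M₂) (G := G₂') (G' := G₁'.prod G₂')
        (fun x hx => ⟨zero_mem _, hx⟩) r _ c₂ hc₂), ?_⟩
  rw [map_add, kD_kmap X₁ Y (AddMonoidHom.inl M₁ M₂) r (fun i hi x => by
      rw [hY i hi]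
      change (X₁ i x, (0 : M₂)) = (X₁ i x, X₂ i 0)
      rw [map_zero]), kD_kmap X₂ Y (AddMonoidHom.inr M₁ M₂) r (fun i hi x => by
      rw [hY i hi]
      change ((0 : M₁), X₂ i x) = (X₁ i 0, X₂ i x)
      rw [map_zero]), hDc₁, hDc₂, ← kmap_comp, ← kmap_comp, ← kmap_add]
  exact kmap_id' _ (fun x => by simp) r c

end Pool.Agent.Lib.P78a38c
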