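import Mathlib
import Pool.Agent.Lib.P78a38c.Model

set_option autoImplicit false

/-! The example in six variables. -/

namespace Pool.Agent.Lib.P78a38c

open MvPolynomial Module

variable {K : Type*} [Field K]

theorem mem_Frm_iff {n d : ℕ} {p : MvPolynomial (Fin n) K} :
    p ∈ Frm K n d ↔ p.IsHomogeneous d := by
  rw [mem_Frm]
  unfold IsHomogeneous IsWeightedHomogeneous
  constructor
  · intro h ν hν
    rw [← h ν hν, Finsupp.degree_eq_weight_one]
    rfl
  · intro h ν hν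
    rw [← h hν, Finsupp.degree_eq_weight_one]
    rfl

section maps

/-- The projection `K[x₀, …, x₅] → K[x₀, …, x₃]` which kills the last two variables. -/
noncomputable def rho (K : Type*) [Field K] :
    MvPolynomial (Fin 6) K →ₐ[K] MvPolynomial (Fin 4) K :=
  aeval fun i : Fin 6 => if h : (i : ℕ) < 4 then X ⟨i, h⟩ else 0

/-- The inclusion. -/
noncomputable def iota (K : Type*) [Field K] :
    MvPolynomial (Fin 4) K →ₐ[K] MvPolynomial (Fin 6) K :=
  rename (Fin.castLE (by norm_num : 4 ≤ 6))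

theorem rho_iota (p : MvPolynomial (Fin 4) K) : rho K (iota K p) = p := by
  unfold rho iota
  rw [aeval_rename]
  have : ((fun i : Fin 6 => if h : (i : ℕ) < 4 then (X ⟨i, h⟩ : MvPolynomial (Fin 4) K) else 0) ∘
      Fin.castLE (by norm_num : 4 ≤ 6)) = X := by
    ext1 i
    simp [i.2]
  rw [this, aeval_X_left_apply]

theorem rho_X_lt {i : ℕ} (hi : i < 4) : rho K (X ⟨i, by omega⟩) = X ⟨i, hi⟩ := by
  unfold rho
  rw [aeval_X, dif_pos hi]

theorem rho_X_ge {i : ℕ} (hi : i < 6) (h4 : ¬ i < 4) : rho K (X ⟨i, hi⟩) = 0 := by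
  unfold rho
  rw [aeval_X, dif_neg h4]

theorem rho_mem {d : ℕ} {p : MvPolynomial (Fin 6) K} (hp : p ∈ Frm K 6 d) :
    rho K p ∈ Frm K 4 d := by
  rw [mem_Frm_iff] at hp ⊢
  have := hp.aeval (n := 1) (fun i : Fin 6 => if h : (i : ℕ) < 4 then
    (X ⟨i, h⟩ : MvPolynomial (Fin 4) K) else 0) (by
      intro i
      split_ifs
      · exact isHomogeneous_X _ _
      · exact isHomogeneous_zero _ _ _)
  rwa [one_mul] at this

theorem iota_mem {d : ℕ} {p : MvPolynomial (Fin 4) K} (hp : p ∈ Frm K 4 d) :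
    iota K p ∈ Frm K 6 d := by
  rw [mem_Frm_iff] at hp ⊢
  exact hp.rename_isHomogeneous

theorem pderiv_iota (j : Fin 6) (hj : 4 ≤ (j : ℕ)) (p : MvPolynomial (Fin 4) K) :
    pderiv j (iota K p) = 0 := by
  apply pderiv_eq_zero_of_notMem_vars
  intro h
  classical
  have h1 := vars_rename (Fin.castLE (by norm_num : 4 ≤ 6)) p h
  obtain ⟨i, -, hi⟩ := Finset.mem_image.1 h1
  rw [← hi] at hj
  have := i.2
  simp at hj
  omega

theorem constantCoeff_rho (p : MvPolynomial (Fin 6) K) :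
    constantCoeff (rho K p) = constantCoeff p := by
  induction p using MvPolynomial.induction_on with
  | C a => simp [rho]
  | add p q hp hq => rw [map_add, map_add, map_add, hp, hq]
  | mul_X p i hp =>
    rw [map_mul, map_mul, map_mul, constantCoeff_X, mul_zero]
    by_cases hi : (i : ℕ) < 4
    · have : rho K (X i) = X ⟨i, hi⟩ := rho_X_lt (K := K) hi
      rw [this, constantCoeff_X, mul_zero]
    · have : rho K (X i) = 0 := rho_X_ge (K := K) i.2 hi
      rw [this, map_zero, mul_zero]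

theorem pderiv_mem {d : ℕ} (i : Fin 6) {p : MvPolynomial (Fin 6) K} (hp : p ∈ Frm K 6 (d + 1)) :
    pderiv i p ∈ Frm K 6 d := by
  rw [mem_Frm_iff] at hp ⊢
  exact hp.pderiv

theorem pderiv_zero' (i : Fin 6) {p : MvPolynomial (Fin 6) K} (hp : p ∈ Frm K 6 0) :
    pderiv i p = 0 := by
  rw [mem_Frm_iff] at hp
  have : p.totalDegree = 0 := (totalDegree_zero_iff_isHomogeneous _).2 hp
  rw [totalDegree_eq_zero_iff_eq_C.1 this, pderiv_C]

theorem rho_pderiv_mul (j : Fin 6) (q p : MvPolynomial (Fin 6) K) :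
    rho K (pderiv j (q * p)) = rho K (pderiv j q) * rho K p + rho K q * rho K (pderiv j p) := by
  rw [pderiv_mul, map_add, map_mul, map_mul]

/-- The functional `g ↦ l (h * g)`. -/
noncomputable def act {n : ℕ} (l : MvPolynomial (Fin n) K →ₗ[K] K) :
    MvPolynomial (Fin n) K →+ (MvPolynomial (Fin n) K →ₗ[K] K) where
  toFun h := l.comp (LinearMap.mulLeft K h)
  map_zero' := by
    refine LinearMap.ext fun g => ?_
    rw [LinearMap.comp_apply, LinearMap.mulLeft_apply, zero_mul, map_zero]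
    rfl
  map_add' h h' := by
    refine LinearMap.ext fun g => ?_
    rw [LinearMap.add_apply, LinearMap.comp_apply, LinearMap.comp_apply, LinearMap.comp_apply,
      LinearMap.mulLeft_apply, LinearMap.mulLeft_apply, LinearMap.mulLeft_apply, add_mul, map_add]

theorem act_apply {n : ℕ} (l : MvPolynomial (Fin n) K →ₗ[K] K) (h g : MvPolynomial (Fin n) K) :
    act l h g = l (h * g) := rfl

end maps

section model

variable (l₁ l₂ : MvPolynomial (Fin 4) K →ₗ[K] K)

/-- The second component of `π`. -/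
noncomputable def piTwo : MvPolynomial (Fin 6) K →+ (MvPolynomial (Fin 4) K →ₗ[K] K) :=
  (act l₁).comp ((rho K).toRingHom.toAddMonoidHom.comp
      (pderiv (4 : Fin 6)).toLinearMap.toAddMonoidHom) +
    (act l₂).comp ((rho K).toRingHom.toAddMonoidHom.comp
      (pderiv (5 : Fin 6)).toLinearMap.toAddMonoidHom)

theorem piTwo_apply (p : MvPolynomial (Fin 6) K) (g : MvPolynomial (Fin 4) K) :
    piTwo l₁ l₂ p g = l₁ (rho K (pderiv 4 p) * g) + l₂ (rho K (pderiv 5 p) * g) := rfl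

/-- The map whose kernel is the ideal. -/
noncomputable def piMap : MvPolynomial (Fin 6) K →+
    MvPolynomial (Fin 4) K × (MvPolynomial (Fin 4) K →ₗ[K] K) :=
  (rho K).toRingHom.toAddMonoidHom.prod (piTwo l₁ l₂)

theorem piMap_apply (p : MvPolynomial (Fin 6) K) :
    piMap l₁ l₂ p = (rho K p, piTwo l₁ l₂ p) := rfl

/-- The operators on the target of `π`. -/
noncomputable def Yop (i : ℕ) : (MvPolynomial (Fin 4) K × (MvPolynomial (Fin 4) K →ₗ[K] K)) →+
    (MvPolynomial (Fin 4) K × (MvPolynomial (Fin 4) K →ₗ[K] K)) :=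
  if i < 4 then (xop K 4 i).prodMap (yop K 4 i)
  else if i = 4 then (AddMonoidHom.inr _ _).comp ((act l₁).comp (AddMonoidHom.fst _ _))
  else (AddMonoidHom.inr _ _).comp ((act l₂).comp (AddMonoidHom.fst _ _))

theorem Yop_lt {i : ℕ} (hi : i < 4)
    (x : MvPolynomial (Fin 4) K × (MvPolynomial (Fin 4) K →ₗ[K] K)) :
    Yop l₁ l₂ i x = (xop K 4 i x.1, yop K 4 i x.2) := by
  unfold Yop
  rw [if_pos hi]
  rfl

theorem Yop_four (x : MvPolynomial (Fin 4) K × (MvPolynomial (Fin 4) K →ₗ[K] K)) :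
    Yop l₁ l₂ 4 x = (0, act l₁ x.1) := rfl

theorem Yop_five (x : MvPolynomial (Fin 4) K × (MvPolynomial (Fin 4) K →ₗ[K] K)) :
    Yop l₁ l₂ 5 x = (0, act l₂ x.1) := rfl

theorem yop_act (l : MvPolynomial (Fin 4) K →ₗ[K] K) {i : ℕ} (hi : i < 4)
    (h : MvPolynomial (Fin 4) K) : yop K 4 i (act l h) = act l (xop K 4 i h) := by
  refine LinearMap.ext fun g => ?_
  rw [yop_apply hi, act_apply, act_apply, xop_apply hi]
  congr 1
  ring

theorem Yop_comm (i j : ℕ) (hi : i < 6) (hj : j < 6)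
    (x : MvPolynomial (Fin 4) K × (MvPolynomial (Fin 4) K →ₗ[K] K)) :
    Yop l₁ l₂ i (Yop l₁ l₂ j x) = Yop l₁ l₂ j (Yop l₁ l₂ i x) := by
  by_cases hi4 : i < 4
  · by_cases hj4 : j < 4
    · rw [Yop_lt _ _ hi4, Yop_lt _ _ hj4, Yop_lt _ _ hj4, Yop_lt _ _ hi4]
      exact Prod.ext (xop_comm i j x.1) (yop_comm hi4 hj4 x.2)
    · have : j = 4 ∨ j = 5 := by omega
      rcases this with rfl | rfl
      · rw [Yop_four, Yop_four, Yop_lt _ _ hi4, Yop_lt _ _ hi4]
        refine Prod.ext (map_zero _) ?_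
        exact yop_act l₁ hi4 x.1
      · rw [Yop_five, Yop_five, Yop_lt _ _ hi4, Yop_lt _ _ hi4]
        refine Prod.ext (map_zero _) ?_
        exact yop_act l₂ hi4 x.1
  · have h1 : i = 4 ∨ i = 5 := by omega
    by_cases hj4 : j < 4
    · rcases h1 with rfl | rfl
      · rw [Yop_four, Yop_four, Yop_lt _ _ hj4, Yop_lt _ _ hj4]
        refine Prod.ext (map_zero _).symm ?_
        exact (yop_act l₁ hj4 x.1).symm
      · rw [Yop_five, Yop_five, Yop_lt _ _ hj4, Yop_lt _ _ hj4]
        refine Prod.ext (map_zero _).symm ?_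
        exact (yop_act l₂ hj4 x.1).symm
    · have h2 : j = 4 ∨ j = 5 := by omega
      rcases h1 with rfl | rfl <;> rcases h2 with rfl | rfl <;>
        simp only [Yop_four, Yop_five, map_zero]

theorem rho_pderiv_X_mul_lt {i : ℕ} (hi : i < 4) (j : Fin 6) (hj : 4 ≤ (j : ℕ))
    (p : MvPolynomial (Fin 6) K) :
    rho K (pderiv j (X ⟨i, by omega⟩ * p)) = X ⟨i, hi⟩ * rho K (pderiv j p) := by
  rw [pderiv_mul, pderiv_X_of_ne, zero_mul, zero_add, map_mul, rho_X_lt hi]
  intro h
  rw [← h] at hj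
  change 4 ≤ i at hj
  omega

theorem piMap_xop (i : ℕ) (hi : i < 6) (p : MvPolynomial (Fin 6) K) :
    piMap l₁ l₂ (xop K 6 i p) = Yop l₁ l₂ i (piMap l₁ l₂ p) := by
  rw [xop_apply hi, piMap_apply, piMap_apply]
  by_cases hi4 : i < 4
  · rw [Yop_lt _ _ hi4]
    refine Prod.ext ?_ ?_
    · change rho K _ = xop K 4 i (rho K p)
      rw [map_mul, rho_X_lt hi4, xop_apply hi4]
    · refine LinearMap.ext fun g => ?_
      change piTwo l₁ l₂ _ g = yop K 4 i (piTwo l₁ l₂ p) g
      rw [yop_apply hi4, piTwo_apply, piTwo_apply, rho_pderiv_X_mul_lt hi4 4 (by decide),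
        rho_pderiv_X_mul_lt hi4 5 (by decide)]
      congr 2 <;> ring
  · have h1 : i = 4 ∨ i = 5 := by omega
    rcases h1 with rfl | rfl
    · rw [Yop_four]
      refine Prod.ext ?_ ?_
      · change rho K _ = 0
        rw [map_mul, rho_X_ge hi hi4, zero_mul]
      · refine LinearMap.ext fun g => ?_
        change piTwo l₁ l₂ _ g = act l₁ (rho K p) g
        rw [piTwo_apply, act_apply, rho_pderiv_mul, rho_pderiv_mul]
        have e1 : pderiv (4 : Fin 6) (X (⟨4, hi⟩ : Fin 6) : MvPolynomial (Fin 6) K) = 1 :=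
          pderiv_X_self _
        have e2 : pderiv (5 : Fin 6) (X (⟨4, hi⟩ : Fin 6) : MvPolynomial (Fin 6) K) = 0 :=
          pderiv_X_of_ne (by intro h; exact absurd (congrArg Fin.val h) (by norm_num))
        rw [e1, e2, map_one, map_zero, rho_X_ge hi hi4, one_mul, zero_mul, zero_mul, zero_mul,
          add_zero, add_zero, zero_mul, map_zero, add_zero]
    · rw [Yop_five]
      refine Prod.ext ?_ ?_
      · change rho K _ = 0
        rw [map_mul, rho_X_ge hi hi4, zero_mul]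
      · refine LinearMap.ext fun g => ?_
        change piTwo l₁ l₂ _ g = act l₂ (rho K p) g
        rw [piTwo_apply, act_apply, rho_pderiv_mul, rho_pderiv_mul]
        have e1 : pderiv (5 : Fin 6) (X (⟨5, hi⟩ : Fin 6) : MvPolynomial (Fin 6) K) = 1 :=
          pderiv_X_self _
        have e2 : pderiv (4 : Fin 6) (X (⟨5, hi⟩ : Fin 6) : MvPolynomial (Fin 6) K) = 0 :=
          pderiv_X_of_ne (by intro h; exact absurd (congrArg Fin.val h) (by norm_num))
        rw [e1, e2, map_one, map_zero, rho_X_ge hi hi4, one_mul, zero_mul, zero_mul, zero_mul,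
          add_zero, add_zero, zero_mul, map_zero, zero_add]

/-- The ideal. -/
noncomputable def theIdeal : Ideal (MvPolynomial (Fin 6) K) where
  carrier := {p | piMap l₁ l₂ p = 0}
  zero_mem' := map_zero _
  add_mem' := fun {a b} ha hb => by
    change piMap l₁ l₂ (a + b) = 0
    rw [map_add]
    rw [show piMap l₁ l₂ a = 0 from ha, show piMap l₁ l₂ b = 0 from hb, add_zero]
  smul_mem' := fun q p hp => by
    have hp' : piMap l₁ l₂ p = 0 := hp
    rw [piMap_apply] at hp'
    have h1 : rho K p = 0 := congrArg Prod.fst hp'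
    have h2 : piTwo l₁ l₂ p = 0 := congrArg Prod.snd hp'
    change piMap l₁ l₂ (q * p) = 0
    rw [piMap_apply]
    refine Prod.ext ?_ ?_
    · change rho K (q * p) = 0
      rw [map_mul, h1, mul_zero]
    · refine LinearMap.ext fun g => ?_
      change piTwo l₁ l₂ (q * p) g = 0
      have h3 : piTwo l₁ l₂ p (rho K q * g) = 0 := by
        rw [h2]
        rfl
      rw [piTwo_apply] at h3
      rw [piTwo_apply, rho_pderiv_mul, rho_pderiv_mul, h1, mul_zero, mul_zero, zero_add, zero_add,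
        ← h3]
      congr 2 <;> ring

theorem mem_theIdeal (p : MvPolynomial (Fin 6) K) :
    p ∈ theIdeal l₁ l₂ ↔ piMap l₁ l₂ p = 0 := Iff.rfl

theorem constantCoeff_theIdeal (p : MvPolynomial (Fin 6) K) (hp : p ∈ theIdeal l₁ l₂) :
    constantCoeff p = 0 := by
  rw [mem_theIdeal, piMap_apply] at hp
  have h1 : rho K p = 0 := congrArg Prod.fst hp
  rw [← constantCoeff_rho, h1, map_zero]

theorem theIdeal_ne_top : theIdeal l₁ l₂ ≠ ⊤ := by
  intro h
  have h1 : (1 : MvPolynomial (Fin 6) K) ∈ theIdeal l₁ l₂ := by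
    rw [h]
    trivial
  have h2 := constantCoeff_theIdeal l₁ l₂ 1 h1
  rw [map_one] at h2
  exact one_ne_zero h2


theorem act_mem {l : MvPolynomial (Fin 4) K →ₗ[K] K}
    (hl : ∀ d, d ≠ 14 → ∀ g ∈ Frm K 4 d, l g = 0) {e : ℕ} {h : MvPolynomial (Fin 4) K}
    (hh : h ∈ Frm K 4 e) : act l h ∈ Dgrp K 4 (14 - e) := by
  intro d hd g hg
  rw [act_apply]
  refine hl (e + d) ?_ _ (Frm_mul hh hg)
  intro h1
  apply hd
  omega

variable (h₁ : ∀ d, d ≠ 14 → ∀ g ∈ Frm K 4 d, l₁ g = 0)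
  (h₂ : ∀ d, d ≠ 14 → ∀ g ∈ Frm K 4 d, l₂ g = 0)

include h₁ h₂ in
theorem piTwo_mem {d : ℕ} {p : MvPolynomial (Fin 6) K} (hp : p ∈ Frm K 6 d) :
    piTwo l₁ l₂ p ∈ Dgrp K 4 (15 - d) := by
  rcases Nat.eq_zero_or_pos d with rfl | hd
  · have : piTwo l₁ l₂ p = 0 := by
      refine LinearMap.ext fun g => ?_
      rw [piTwo_apply, pderiv_zero' 4 hp, pderiv_zero' 5 hp, map_zero, zero_mul, map_zero,
        map_zero, add_zero]
      rfl
    rw [this]
    exact zero_mem _
  · obtain ⟨e, rfl⟩ : ∃ e, d = e + 1 := ⟨d - 1, by omega⟩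
    have e1 : (15 - ((e + 1 : ℕ) : ℤ)) = 14 - e := by
      push_cast
      ring
    rw [e1]
    have : piTwo l₁ l₂ p = act l₁ (rho K (pderiv 4 p)) + act l₂ (rho K (pderiv 5 p)) := rfl
    rw [this]
    exact add_mem (act_mem h₁ (rho_mem (pderiv_mem 4 hp))) (act_mem h₂ (rho_mem (pderiv_mem 5 hp)))

include h₁ h₂ in
theorem piMap_mem (i : ℤ) {p : MvPolynomial (Fin 6) K} (hp : p ∈ hgrp K 6 0 i) :
    piMap l₁ l₂ p ∈ (hgrp K 4 0 i).prod (Dgrp K 4 (15 - i)) := by
  rcases lt_or_ge i 0 with hi | hi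
  · rw [hgrp_neg i hi p hp, map_zero]
    exact zero_mem _
  · obtain ⟨d, rfl⟩ := Int.eq_ofNat_of_zero_le hi
    rw [mem_hgrp_iff] at hp
    exact ⟨(mem_hgrp_iff d _).2 (rho_mem hp), piTwo_mem l₁ l₂ h₁ h₂ hp⟩

theorem rho_hc (d : ℕ) (p : MvPolynomial (Fin 6) K) :
    rho K (homogeneousComponent d p) = homogeneousComponent d (rho K p) := by
  conv_rhs => rw [← sum_homogeneousComponent p, map_sum, map_sum]
  rw [Finset.sum_congr rfl fun e _ => hc_of_mem (rho_mem (hc_mem_Frm e p)) d]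
  rw [Finset.sum_ite_eq (Finset.range (p.totalDegree + 1)) d]
  split_ifs with h
  · rfl
  · rw [homogeneousComponent_eq_zero, map_zero]
    rw [Finset.mem_range] at h
    omega

include h₁ h₂ in
theorem theIdeal_homogeneous (p : MvPolynomial (Fin 6) K) (hp : p ∈ theIdeal l₁ l₂) (d : ℕ) :
    homogeneousComponent d p ∈ theIdeal l₁ l₂ := by
  rw [mem_theIdeal, piMap_apply] at hp ⊢
  have hp1 : rho K p = 0 := congrArg Prod.fst hp
  have hp2 : piTwo l₁ l₂ p = 0 := congrArg Prod.snd hp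
  refine Prod.ext ?_ ?_
  · change rho K (homogeneousComponent d p) = 0
    rw [rho_hc, hp1, map_zero]
  · change piTwo l₁ l₂ (homogeneousComponent d p) = 0
    refine Dgrp_ext (piTwo_mem l₁ l₂ h₁ h₂ (hc_mem_Frm d p)) (zero_mem _) ?_
    intro e he g hg
    change _ = (0 : K)
    have h3 : piTwo l₁ l₂ p g = 0 := by
      rw [hp2]
      rfl
    rw [← sum_homogeneousComponent p, map_sum, LinearMap.sum_apply] at h3
    by_cases hd : d ∈ Finset.range (p.totalDegree + 1)
    · rw [Finset.sum_eq_single_of_mem d hd] at h3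
      · exact h3
      · intro d' _ hdd
        refine piTwo_mem l₁ l₂ h₁ h₂ (hc_mem_Frm d' p) e ?_ g hg
        intro h4
        apply hdd
        omega
    · rw [homogeneousComponent_eq_zero, map_zero]
      · rfl
      · rw [Finset.mem_range] at hd
        omega

/-- The map `(u, v) ↦ (g ↦ l₁ (u g) + l₂ (v g))` for forms `u`, `v` of degree `e`, `g` a form of
degree `k`. -/
noncomputable def pairing (e k : ℕ) : (Frm K 4 e × Frm K 4 e) →ₗ[K] Dual K (Frm K 4 k) where
  toFun x :=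
    { toFun := fun g => l₁ (x.1 * g) + l₂ (x.2 * g)
      map_add' := fun g g' => by
        rw [Submodule.coe_add, mul_add, mul_add, map_add, map_add]
        ring
      map_smul' := fun c g => by
        rw [Submodule.coe_smul, mul_smul_comm, mul_smul_comm, map_smul, map_smul]
        simp [mul_add] }
  map_add' x y := by
    refine LinearMap.ext fun g => ?_
    change l₁ (((x + y).1 : MvPolynomial (Fin 4) K) * g) +
      l₂ (((x + y).2 : MvPolynomial (Fin 4) K) * g) = (l₁ (x.1 * g) + l₂ (x.2 * g)) +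
      (l₁ (y.1 * g) + l₂ (y.2 * g))
    rw [Prod.fst_add, Prod.snd_add, Submodule.coe_add, Submodule.coe_add, add_mul, add_mul,
      map_add, map_add]
    ring
  map_smul' c x := by
    refine LinearMap.ext fun g => ?_
    change l₁ (((c • x).1 : MvPolynomial (Fin 4) K) * g) +
      l₂ (((c • x).2 : MvPolynomial (Fin 4) K) * g) = c • (l₁ (x.1 * g) + l₂ (x.2 * g))
    rw [Prod.smul_fst, Prod.smul_snd, Submodule.coe_smul, Submodule.coe_smul, smul_mul_assoc,
      smul_mul_assoc, map_smul, map_smul, smul_add]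

theorem pairing_apply (e k : ℕ) (x : Frm K 4 e × Frm K 4 e) (g : Frm K 4 k) :
    pairing l₁ l₂ e k x g = l₁ (x.1 * g) + l₂ (x.2 * g) := rfl

theorem pairing_surjective
    (h₃ : ∀ h ∈ Frm K 4 8, (∀ g ∈ Frm K 4 6, l₁ (h * g) = 0) → (∀ g ∈ Frm K 4 6, l₂ (h * g) = 0) →
        h = 0) (e k : ℕ) (hk : k ≤ 8) (hek : e + k = 14) :
    Function.Surjective (pairing l₁ l₂ e k) := by
  rw [← LinearMap.range_eq_top]
  have h0 : (LinearMap.range (pairing l₁ l₂ e k)).dualCoannihilator = ⊥ := by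
    rw [eq_bot_iff]
    rintro ⟨h, hh⟩ hmem
    rw [Submodule.mem_dualCoannihilator] at hmem
    rw [Submodule.mem_bot]
    apply Subtype.ext
    change h = 0
    have hmul : ∀ g ∈ Frm K 4 6, (X 0 ^ (8 - k) * g : MvPolynomial (Fin 4) K) ∈ Frm K 4 e := by
      intro g hg
      have hX : (X 0 ^ (8 - k) : MvPolynomial (Fin 4) K) ∈ Frm K 4 (8 - k) := by
        rw [mem_Frm_iff]
        exact isHomogeneous_X_pow _ _
      have := Frm_mul hX hg
      have e1 : 8 - k + 6 = e := by omega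
      rwa [e1] at this
    have hz : (X 0 ^ (8 - k) * h : MvPolynomial (Fin 4) K) = 0 := by
      apply h₃
      · have hX : (X 0 ^ (8 - k) : MvPolynomial (Fin 4) K) ∈ Frm K 4 (8 - k) := by
          rw [mem_Frm_iff]
          exact isHomogeneous_X_pow _ _
        have := Frm_mul hX hh
        have e1 : 8 - k + k = 8 := by omega
        rwa [e1] at this
      · intro g hg
        have := hmem _ ⟨(⟨_, hmul g hg⟩, 0), rfl⟩
        rw [pairing_apply] at this
        simp only [ZeroMemClass.coe_zero, zero_mul, map_zero, add_zero] at this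
        rw [← this]
        congr 1
        ring
      · intro g hg
        have := hmem _ ⟨(0, ⟨_, hmul g hg⟩), rfl⟩
        rw [pairing_apply] at this
        simp only [ZeroMemClass.coe_zero, zero_mul, map_zero, zero_add] at this
        rw [← this]
        congr 1
        ring
    exact (mul_eq_zero.1 hz).resolve_left (pow_ne_zero _ (X_ne_zero _))
  have h1 := Subspace.dualCoannihilator_dualAnnihilator_eq
    (W := LinearMap.range (pairing l₁ l₂ e k))
  rw [h0, Submodule.dualAnnihilator_bot] at h1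
  exact h1.symm

include h₁ h₂ in
theorem exists_uv
    (h₃ : ∀ h ∈ Frm K 4 8, (∀ g ∈ Frm K 4 6, l₁ (h * g) = 0) → (∀ g ∈ Frm K 4 6, l₂ (h * g) = 0) →
        h = 0) (e : ℕ) (he : 6 ≤ e) (φ : MvPolynomial (Fin 4) K →ₗ[K] K)
    (hφ : φ ∈ Dgrp K 4 (14 - e)) :
    ∃ u ∈ Frm K 4 e, ∃ v ∈ Frm K 4 e, φ = act l₁ u + act l₂ v := by
  rcases lt_or_ge 14 e with he2 | he2
  · refine ⟨0, zero_mem _, 0, zero_mem _, ?_⟩
    rw [map_zero, map_zero, add_zero]
    refine Dgrp_ext hφ (zero_mem _) ?_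
    intro d hd
    omega
  · obtain ⟨k, hk⟩ : ∃ k, e + k = 14 := ⟨14 - e, by omega⟩
    obtain ⟨⟨u, v⟩, huv⟩ := pairing_surjective l₁ l₂ h₃ e k (by omega) hk
      (φ.comp (Frm K 4 k).subtype)
    refine ⟨u, u.2, v, v.2, ?_⟩
    refine Dgrp_ext hφ (add_mem (act_mem h₁ u.2) (act_mem h₂ v.2)) ?_
    intro d hd g hg
    have e1 : d = k := by omega
    subst e1
    have := LinearMap.congr_fun huv ⟨g, hg⟩
    rw [pairing_apply] at this
    exact this.symm

/-- The image of the forms of degree `i`. -/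
noncomputable def Ngrp (i : ℤ) :
    AddSubgroup (MvPolynomial (Fin 4) K × (MvPolynomial (Fin 4) K →ₗ[K] K)) :=
  (hgrp K 6 0 i).map (piMap l₁ l₂)

theorem rho_pderiv_X_self_mul (j : Fin 6) (hj : 4 ≤ (j : ℕ)) (u : MvPolynomial (Fin 4) K) :
    rho K (pderiv j (X j * iota K u)) = u := by
  rw [rho_pderiv_mul, pderiv_X_self, map_one, one_mul, rho_iota, pderiv_iota j hj, map_zero,
    mul_zero, add_zero]

theorem rho_pderiv_X_ne_mul (i j : Fin 6) (hj : 4 ≤ (j : ℕ)) (hij : i ≠ j)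
    (u : MvPolynomial (Fin 4) K) :
    rho K (pderiv j (X i * iota K u)) = 0 := by
  rw [rho_pderiv_mul, pderiv_X_of_ne hij, map_zero, zero_mul, pderiv_iota j hj, map_zero,
    mul_zero, add_zero]

include h₁ h₂ in
theorem Ngrp_eq
    (h₃ : ∀ h ∈ Frm K 4 8, (∀ g ∈ Frm K 4 6, l₁ (h * g) = 0) → (∀ g ∈ Frm K 4 6, l₂ (h * g) = 0) →
        h = 0) (i : ℤ) (hi : 7 ≤ i) :
    Ngrp l₁ l₂ i = (hgrp K 4 0 i).prod (Dgrp K 4 (15 - i)) := by
  apply le_antisymm
  · rintro _ ⟨p, hp, rfl⟩
    exact piMap_mem l₁ l₂ h₁ h₂ i hp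
  · obtain ⟨e, rfl⟩ : ∃ e : ℕ, i = (e + 1 : ℕ) := ⟨(i - 1).toNat, by omega⟩
    rintro ⟨h, φ⟩ ⟨hh, hφ⟩
    have hh' : h ∈ Frm K 4 (e + 1) := (mem_hgrp_iff (e + 1) h).1 hh
    have e1 : (15 - ((e + 1 : ℕ) : ℤ)) = 14 - e := by
      push_cast
      ring
    have hφ' : φ ∈ Dgrp K 4 (14 - e) := by
      rw [← e1]
      exact hφ
    obtain ⟨u, hu, v, hv, hφe⟩ := exists_uv l₁ l₂ h₁ h₂ h₃ e (by omega) φ hφ'
    refine ⟨iota K h + X 4 * iota K u + X 5 * iota K v, ?_, ?_⟩
    · refine (mem_hgrp_iff (e + 1) _).2 ?_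
      refine add_mem (add_mem (iota_mem hh') ?_) ?_
      · have := Frm_mul (X_mem_Frm (K := K) (4 : Fin 6)) (iota_mem hu)
        rwa [add_comm 1 e] at this
      · have := Frm_mul (X_mem_Frm (K := K) (5 : Fin 6)) (iota_mem hv)
        rwa [add_comm 1 e] at this
    · rw [piMap_apply]
      refine Prod.ext ?_ ?_
      · change rho K _ = h
        have r4 : rho K (X (4 : Fin 6)) = 0 := rho_X_ge (K := K) (i := 4) (by norm_num) (by norm_num)
        have r5 : rho K (X (5 : Fin 6)) = 0 := rho_X_ge (K := K) (i := 5) (by norm_num) (by norm_num)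
        rw [map_add, map_add, map_mul, map_mul, rho_iota, r4, r5, zero_mul, zero_mul, add_zero,
          add_zero]
      · change piTwo l₁ l₂ _ = φ
        have hj4 : 4 ≤ ((4 : Fin 6) : ℕ) := by decide
        have hj5 : 4 ≤ ((5 : Fin 6) : ℕ) := by decide
        rw [hφe]
        refine LinearMap.ext fun g => ?_
        rw [piTwo_apply, LinearMap.add_apply, act_apply, act_apply, map_add, map_add, map_add,
          map_add, map_add, map_add, map_add, map_add, pderiv_iota 4 hj4, pderiv_iota 5 hj5,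
          rho_pderiv_X_self_mul 4 hj4, rho_pderiv_X_self_mul 5 hj5,
          rho_pderiv_X_ne_mul 5 4 hj4 (by decide), rho_pderiv_X_ne_mul 4 5 hj5 (by decide),
          map_zero, zero_add, zero_add, add_zero, zero_add]

end model

end Pool.Agent.Lib.P78a38c
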