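import Mathlib

set_option autoImplicit false

namespace Pool.Agent.Lib.P78a38c

open MvPolynomial

/-- A minimal graded free resolution
`⋯ → F₂ → F₁ → F₀ = S → S/I → 0` of `S/I`, where `S = K[x₁, …, xₙ]`, given by matrices:
`F i` is the graded free module with `rank i` basis elements, the `k`-th one in degree `deg i k`. -/
structure MinimalResolution (K : Type*) [Field K] (n : ℕ)
    (I : Ideal (MvPolynomial (Fin n) K)) where
  /-- the rank of `F i` -/
  rank : ℕ → ℕ
  /-- the degree of the `k`-th basis element of `F i` -/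
  deg : (i : ℕ) → Fin (rank i) → ℕ
  /-- the matrix of the differential `F (i + 1) → F i` -/
  d : (i : ℕ) → Matrix (Fin (rank i)) (Fin (rank (i + 1))) (MvPolynomial (Fin n) K)
  /-- `F 0 = S`, generated in degree `0` -/
  rank_zero : rank 0 = 1
  deg_zero : ∀ k, deg 0 k = 0
  /-- the differentials have degree `0`: the `(k, l)` entry of `d i` is homogeneous of degree
  `deg (i + 1) l - deg i k` (and it is `0` if this number is negative) -/
  homogeneous : ∀ i k l, ∀ ν ∈ (d i k l).support, ν.degree + deg i k = deg (i + 1) l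
  /-- minimality: the entries lie in the ideal `(x₁, …, xₙ)` -/
  minimal : ∀ i k l, constantCoeff (d i k l) = 0
  /-- the image of `F 1 → F 0 = S` is the ideal `I` -/
  exact_zero : ∀ f : MvPolynomial (Fin n) K,
    f ∈ I ↔ ∃ v : Fin (rank 1) → MvPolynomial (Fin n) K, (d 0).mulVec v = fun _ => f
  /-- exactness at `F (i + 1)` -/
  exact_succ : ∀ i (v : Fin (rank (i + 1)) → MvPolynomial (Fin n) K),
    (d i).mulVec v = 0 ↔ ∃ w, (d (i + 1)).mulVec w = v

/-- `t_i(S/I)`: the largest degree of a basis element of `F i`, and `⊥` (that is `-∞`) if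
`F i = 0`. -/
def MinimalResolution.t {K : Type*} [Field K] {n : ℕ} {I : Ideal (MvPolynomial (Fin n) K)}
    (F : MinimalResolution K n I) (i : ℕ) : WithBot ℕ :=
  Finset.univ.sup fun k : Fin (F.rank i) => (F.deg i k : WithBot ℕ)

end Pool.Agent.Lib.P78a38c
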