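import Mathlib
import Pool.Agent.Lib.P78a38c.Core

set_option autoImplicit false

/-! Exactness of the dual complex in the levels below the grade. -/

namespace Pool.Agent.Lib.P78a38c

open Finset

universe u v

variable {R : Type u} [CommRing R] {T : Type v} [Fintype T] [DecidableEq T]

namespace BasedRes

variable (F : BasedRes R T)

/-- The complex `Hom(F, N)` is exact in level `q`. -/
def DualExact (N : Type*) [AddCommGroup N] [Module R N] (q : ℕ) : Prop :=
  ∀ φ : T → N, (∀ t, φ t ≠ 0 → F.h t = q) → (∀ t, ∑ u, F.D u t • φ u = 0) →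
    ∃ χ : T → N, (∀ u, χ u ≠ 0 → F.h u + 1 = q) ∧ ∀ t, φ t = ∑ u, F.D u t • χ u

/-- The ideal generated by the entries of the first differential. -/
def augIdeal : Set R := {g | ∃ y : T → R, (∀ t, y t ≠ 0 → F.h t = 1) ∧
    ∑ t, F.D F.o t * y t = g}

theorem sum_sum_zero {N : Type*} [AddCommGroup N] [Module R N] (ω : T → N) (t : T) :
    ∑ u, F.D u t • ∑ v, F.D v u • ω v = 0 := by
  have : ∑ u, F.D u t • ∑ v, F.D v u • ω v = ∑ v, (∑ u, F.D v u * F.D u t) • ω v := by
    simp only [Finset.smul_sum, Finset.sum_smul]
    rw [Finset.sum_comm]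
    refine Finset.sum_congr rfl fun u _ => Finset.sum_congr rfl fun v _ => ?_
    rw [smul_smul, mul_comm]
  rw [this]
  simp [F.sq]

/-- `g φ` is a coboundary when `φ` is a cocycle and `g` is in the ideal. -/
theorem smul_cocycle {g : R} (hg : g ∈ F.augIdeal) {N : Type*} [AddCommGroup N] [Module R N]
    {q : ℕ} (φ : T → N) (hφ : ∀ t, φ t ≠ 0 → F.h t = q)
    (hc : ∀ t, ∑ u, F.D u t • φ u = 0) :
    ∃ χ : T → N, (∀ u, χ u ≠ 0 → F.h u + 1 = q) ∧ ∀ t, g • φ t = ∑ u, F.D u t • χ u := by
  obtain ⟨S, hS, hSD⟩ := F.exists_homotopy hg
  refine ⟨fun u => ∑ v, S v u • φ v, ?_, ?_⟩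
  · intro u hne
    obtain ⟨v, -, hv⟩ := Finset.exists_ne_zero_of_sum_ne_zero hne
    have h1 : S v u ≠ 0 := by
      intro h
      rw [h, zero_smul] at hv
      exact hv rfl
    have h2 : φ v ≠ 0 := by
      intro h
      rw [h, smul_zero] at hv
      exact hv rfl
    have := hS v u h1
    have := hφ v h2
    omega
  · intro t
    have e1 : g • φ t = ∑ v, (∑ u, F.D v u * S u t + ∑ u, S v u * F.D u t) • φ v := by
      rw [Finset.sum_congr rfl fun v _ => by rw [hSD v t]]
      simp
    rw [e1]
    simp only [add_smul, Finset.sum_add_distrib]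
    have e2 : ∑ v, (∑ u, F.D v u * S u t) • φ v = ∑ u, S u t • ∑ v, F.D v u • φ v := by
      simp only [Finset.smul_sum, Finset.sum_smul]
      rw [Finset.sum_comm]
      refine Finset.sum_congr rfl fun u _ => Finset.sum_congr rfl fun v _ => ?_
      rw [smul_smul, mul_comm]
    have e3 : ∑ v, (∑ u, S v u * F.D u t) • φ v = ∑ u, F.D u t • ∑ v, S v u • φ v := by
      simp only [Finset.smul_sum, Finset.sum_smul]
      rw [Finset.sum_comm]
      refine Finset.sum_congr rfl fun u _ => Finset.sum_congr rfl fun v _ => ?_
      rw [smul_smul, mul_comm]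
    rw [e2, e3]
    simp [hc]

/-- If the ideal contains a weakly `N`-regular sequence of length `> q` then `Hom(F, N)` is
exact in level `q`. -/
theorem dualExact_of_regular (rs : List R) : ∀ (N : Type u) [AddCommGroup N] [Module R N],
    (∀ r ∈ rs, r ∈ F.augIdeal) → RingTheory.Sequence.IsWeaklyRegular N rs →
    ∀ q < rs.length, F.DualExact N q := by
  classical
  induction rs with
  | nil => intro N _ _ _ _ q hq; simp at hq
  | cons g rs ih =>
    intro N _ _ hmem hreg q hq φ hφ hc
    rw [RingTheory.Sequence.isWeaklyRegular_cons_iff] at hreg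
    obtain ⟨hg, hreg⟩ := hreg
    obtain ⟨χ, hχ, hχφ⟩ := F.smul_cocycle (hmem g (by simp)) φ hφ hc
    rcases q with _ | q
    · have hχ0 : ∀ u, χ u = 0 := by
        intro u
        by_contra h
        have := hχ u h
        omega
      refine ⟨fun _ => 0, fun u h => absurd rfl h, fun t => ?_⟩
      have h1 := hχφ t
      simp only [hχ0, smul_zero, sum_const_zero] at h1
      simp only [smul_zero, sum_const_zero]
      exact hg (by simpa using h1)
    · have hq' : q < rs.length := by simpa using hq
      let mk : N →ₗ[R] QuotSMulTop g N := Submodule.mkQ _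
      have hmk : Function.Surjective mk := Submodule.mkQ_surjective _
      have hker : ∀ x, mk x = 0 ↔ ∃ y, x = g • y := by
        intro x
        change Submodule.mkQ _ x = 0 ↔ _
        rw [Submodule.mkQ_apply, Submodule.Quotient.mk_eq_zero, Submodule.mem_smul_pointwise_iff_exists]
        constructor
        · rintro ⟨y, -, hy⟩
          exact ⟨y, hy.symm⟩
        · rintro ⟨y, hy⟩
          exact ⟨y, trivial, hy.symm⟩
      obtain ⟨ω, hω, hωχ⟩ := ih (QuotSMulTop g N) (fun r hr => hmem r (by simp [hr])) hreg q hq'
        (fun t => mk (χ t)) (by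
          intro t ht
          have : χ t ≠ 0 := by
            intro h
            rw [h, map_zero] at ht
            exact ht rfl
          have := hχ t this
          omega) (by
          intro t
          have : ∑ u, F.D u t • mk (χ u) = mk (∑ u, F.D u t • χ u) := by
            simp
          rw [this, ← hχφ, hker]
          exact ⟨φ t, rfl⟩)
      choose lift hlift using hmk
      let ω' : T → N := fun t => if ω t = 0 then 0 else lift (ω t)
      have hω' : ∀ t, mk (ω' t) = ω t := by
        intro t
        by_cases h : ω t = 0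
        · simp [ω', h]
        · simp [ω', h, hlift]
      have hω'2 : ∀ t, ω' t ≠ 0 → F.h t + 1 = q := by
        intro t ht
        apply hω
        intro h
        exact ht (by simp [ω', h])
      have hτ : ∀ t, ∃ y, χ t - ∑ u, F.D u t • ω' u = g • y := by
        intro t
        rw [← hker]
        rw [map_sub, map_sum]
        simp only [map_smul, hω']
        rw [← hωχ t, sub_self]
      choose τ hτ using hτ
      refine ⟨fun u => if F.h u + 1 = q + 1 then τ u else 0, ?_, ?_⟩
      · intro u hu
        by_contra h
        exact hu (if_neg h)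
      · intro t
        apply hg
        change g • φ t = g • _
        rw [hχφ t]
        have e1 : ∀ u, F.D u t • χ u = F.D u t • (∑ v, F.D v u • ω' v) +
            g • (F.D u t • (if F.h u + 1 = q + 1 then τ u else 0)) := by
          intro u
          by_cases h : F.h u + 1 = q + 1
          · rw [if_pos h, smul_comm g, ← hτ u, ← smul_add]
            congr 1
            abel
          · rw [if_neg h, smul_zero, smul_zero, add_zero]
            have h1 : χ u = 0 := by
              by_contra h1
              exact h (hχ u h1)
            rw [h1, smul_zero]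
            symm
            rw [Finset.sum_eq_zero, smul_zero]
            intro v _
            by_cases hD : F.D v u = 0
            · rw [hD, zero_smul]
            · have h2 := F.level v u hD
              have h3 : ω' v = 0 := by
                by_contra h3
                have := hω'2 v h3
                omega
              rw [h3, smul_zero]
        rw [Finset.sum_congr rfl fun u _ => e1 u, Finset.sum_add_distrib, F.sum_sum_zero,
          zero_add, Finset.smul_sum]

/-- Over a domain, `F^*` is exact in level `0` if the ideal is not zero. -/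
theorem dualExact_zero [IsDomain R] (s : T) (hs : F.D F.o s ≠ 0) : F.DualExact R 0 := by
  intro φ hφ hc
  have h0 : ∀ t, φ t = 0 := by
    intro t
    by_contra h
    have ht := F.eq_o t (hφ t h)
    subst ht
    have h1 := hc s
    rw [Finset.sum_eq_single F.o] at h1
    · rw [smul_eq_mul] at h1
      exact (mul_ne_zero hs h) h1
    · intro u _ hu
      have : φ u = 0 := by
        by_contra h2
        exact hu (F.eq_o u (hφ u h2))
      rw [this, smul_zero]
    · intro h
      exact absurd (mem_univ _) h
  refine ⟨fun _ => 0, fun u h => absurd rfl h, fun t => ?_⟩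
  simp [h0]

/-- Over a GCD domain, `F^*` is exact in level `1` if the entries of the first differential
have no common factor. -/
theorem dualExact_one [NormalizedGCDMonoid R] (s : T) (hs : F.D F.o s ≠ 0)
    (hgcd : ∀ p, (∀ t, p ∣ F.D F.o t) → IsUnit p) : F.DualExact R 1 := by
  intro φ hφ hc
  have hmem : F.D F.o s ∈ F.augIdeal := by
    refine ⟨fun t => if t = s then 1 else 0, ?_, ?_⟩
    · intro t ht
      by_cases h : t = s
      · subst h
        rw [F.level _ _ hs, F.h_o]
      · simp [h] at ht
    · simp
  obtain ⟨χ, hχ, hχφ⟩ := F.smul_cocycle hmem φ hφ hc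
  have hsum : ∀ (ψ : T → R), (∀ u, ψ u ≠ 0 → F.h u + 1 = 1) → ∀ t, ∑ u, F.D u t • ψ u =
      F.D F.o t * ψ F.o := by
    intro ψ hψ t
    rw [Finset.sum_eq_single F.o]
    · rfl
    · intro u _ hu
      have : ψ u = 0 := by
        by_contra h
        exact hu (F.eq_o u (by have := hψ u h; omega))
      rw [this, smul_zero]
    · intro h
      exact absurd (mem_univ _) h
  have h1 : ∀ t, F.D F.o s * φ t = χ F.o * F.D F.o t := by
    intro t
    have := hχφ t
    rw [hsum χ hχ t, smul_eq_mul] at this
    rw [this, mul_comm]
  have hdvd : F.D F.o s ∣ χ F.o := by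
    have h2 : F.D F.o s ∣ univ.gcd (fun t => χ F.o * F.D F.o t) := by
      apply Finset.dvd_gcd
      intro t _
      exact ⟨φ t, (h1 t).symm⟩
    have h3 := (Finset.gcd_mul_left' univ (fun t => F.D F.o t) (χ F.o))
    have hu : IsUnit (univ.gcd (fun t => F.D F.o t)) :=
      hgcd _ (fun t => Finset.gcd_dvd (mem_univ t))
    exact hu.dvd_mul_right.1 (h3.dvd_iff_dvd_right.1 h2)
  obtain ⟨c, hc'⟩ := hdvd
  refine ⟨fun u => if u = F.o then c else 0, ?_, ?_⟩
  · intro u hu
    by_cases h : u = F.o
    · subst h
      rw [F.h_o]
    · simp [h] at hu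
  · intro t
    rw [hsum _ _ t]
    · simp only [if_true]
      apply mul_left_cancel₀ hs
      rw [h1 t, hc']
      ring
    · intro u hu
      by_cases h : u = F.o
      · subst h
        rw [F.h_o]
      · simp [h] at hu

end BasedRes

end Pool.Agent.Lib.P78a38c
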