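import Mathlib
import Pool.Agent.Lib.P78a38c.Dual

set_option autoImplicit false

/-! The duality argument. -/

namespace Pool.Agent.Lib.P78a38c

open Finset

variable {R : Type*} [CommRing R] {T : Type*} [Fintype T] [DecidableEq T]

namespace BasedRes

variable (F : BasedRes R T)

theorem duality_aux (B : T → T → R) (a b : ℕ)
    (hB : ∀ s t, ∑ u, F.D u s * B u t + (-1) ^ F.h s * ∑ u, F.D u t * B s u = 0)
    (h0 : ∀ s t, F.h s = b → F.h t = a → B s t = 0)
    (hE : ∀ q < b, F.DualExact R q) (j : ℕ) (hj : j < b) :
    ∃ A : T → T → R, ∀ x, F.h x = a + j + 1 → ∀ z, F.h z + j = b →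
      ∑ y, F.D y z * (B y x + ∑ u, F.D u x * A y u) = 0 := by
  induction j with
  | zero =>
    refine ⟨fun _ _ => 0, fun x hx z hz => ?_⟩
    have h1 := hB z x
    have h2 : ∑ u, F.D u x * B z u = 0 := by
      apply Finset.sum_eq_zero
      intro u _
      by_cases hu : F.D u x = 0
      · rw [hu, zero_mul]
      · have := F.level u x hu
        rw [h0 z u (by omega) (by omega), mul_zero]
    rw [h2, mul_zero, add_zero] at h1
    simpa using h1
  | succ j ih =>
    obtain ⟨A, hA⟩ := ih (by omega)
    -- the functional in level `b - j - 1`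
    have key : ∀ x, F.h x = a + j + 1 → ∃ χ : T → R, (∀ u, χ u ≠ 0 → F.h u + 1 + (j + 1) = b) ∧
        ∀ y, F.h y + (j + 1) = b → B y x + ∑ u, F.D u x * A y u = ∑ u, F.D u y * χ u := by
      intro x hx
      have hq : b - (j + 1) < b := by omega
      obtain ⟨χ, hχ, hχφ⟩ := hE _ hq
        (fun y => if F.h y + (j + 1) = b then B y x + ∑ u, F.D u x * A y u else 0) (by
          intro t ht
          by_cases h : F.h t + (j + 1) = b
          · omega
          · exact absurd (if_neg h) ht) (by
          intro z
          by_cases hz : F.h z + j = b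
          · rw [← hA x hx z hz]
            refine Finset.sum_congr rfl fun y _ => ?_
            by_cases hy : F.D y z = 0
            · rw [hy, zero_smul, zero_mul]
            · have := F.level y z hy
              rw [if_pos (by omega), smul_eq_mul]
          · apply Finset.sum_eq_zero
            intro y _
            by_cases hy : F.D y z = 0
            · rw [hy, zero_smul]
            · have := F.level y z hy
              rw [if_neg (by omega), smul_zero])
      refine ⟨χ, fun u hu => by have := hχ u hu; omega, fun y hy => ?_⟩
      have := hχφ y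
      rw [if_pos hy] at this
      simpa using this
    choose! χ hχ1 hχ2 using key
    refine ⟨fun y u => (-1) ^ (b - (j + 1)) * χ u y, fun x hx z hz => ?_⟩
    have hzb : F.h z = b - (j + 1) := by omega
    have e1 : ∑ y, F.D y z * (B y x + ∑ u, F.D u x * ((-1) ^ (b - (j + 1)) * χ u y)) =
        ∑ y, F.D y z * B y x +
          (-1) ^ (b - (j + 1)) * ∑ u, F.D u x * ∑ y, F.D y z * χ u y := by
      simp only [mul_add, Finset.sum_add_distrib, Finset.mul_sum]
      congr 1
      rw [Finset.sum_comm]
      refine Finset.sum_congr rfl fun u _ => Finset.sum_congr rfl fun y _ => by ring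
    have e2 : ∀ u, F.D u x * ∑ y, F.D y z * χ u y =
        F.D u x * B z u + F.D u x * ∑ w, F.D w u * A z w := by
      intro u
      by_cases hu : F.D u x = 0
      · rw [hu]; ring
      · have := F.level u x hu
        rw [← hχ2 u (by omega) z (by omega)]
        ring
    have e3 : ∑ u, F.D u x * ∑ w, F.D w u * A z w = 0 := by
      have : ∑ u, F.D u x * (∑ w, F.D w u * A z w) =
          ∑ w, (∑ u, F.D w u * F.D u x) * A z w := by
        simp only [Finset.mul_sum, Finset.sum_mul]
        rw [Finset.sum_comm]
        refine Finset.sum_congr rfl fun u _ => Finset.sum_congr rfl fun v _ => by ring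
      rw [this]
      simp [F.sq]
    rw [e1, Finset.sum_congr rfl fun u _ => e2 u, Finset.sum_add_distrib, e3, add_zero, ← hzb]
    exact hB z x

/-- The main duality statement: if the form `B` vanishes on `F b × F a` and the dual complex is
exact in levels `< b`, then `B (o, x)` is in the ideal generated by the column of `x`. -/
theorem duality (B : T → T → R) (a b : ℕ) (hb : 1 ≤ b)
    (hB : ∀ s t, ∑ u, F.D u s * B u t + (-1) ^ F.h s * ∑ u, F.D u t * B s u = 0)
    (h0 : ∀ s t, F.h s = b → F.h t = a → B s t = 0)
    (hE : ∀ q < b, F.DualExact R q) (x : T) (hx : F.h x = a + b) :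
    ∃ c : T → R, B F.o x = ∑ u, F.D u x * c u := by
  obtain ⟨A, hA⟩ := F.duality_aux B a b hB h0 hE (b - 1) (by omega)
  obtain ⟨χ, hχ, hχφ⟩ := hE 0 (by omega)
    (fun y => if F.h y = 0 then B y x + ∑ u, F.D u x * A y u else 0) (by
      intro t ht
      by_contra h
      exact ht (if_neg h)) (by
      intro z
      by_cases hz : F.h z = 1
      · rw [← hA x (by omega) z (by omega)]
        refine Finset.sum_congr rfl fun y _ => ?_
        by_cases hy : F.D y z = 0
        · rw [hy, zero_smul, zero_mul]
        · have := F.level y z hy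
          rw [if_pos (by omega), smul_eq_mul]
      · apply Finset.sum_eq_zero
        intro y _
        by_cases hy : F.D y z = 0
        · rw [hy, zero_smul]
        · have := F.level y z hy
          rw [if_neg (by omega), smul_zero])
  have h1 := hχφ F.o
  rw [if_pos F.h_o] at h1
  have h2 : ∑ u, F.D u F.o • χ u = 0 := by
    apply Finset.sum_eq_zero
    intro u _
    rw [F.D_eq_zero (s := u) (t := F.o) (by rw [F.h_o]; omega), zero_smul]
  rw [h2] at h1
  refine ⟨fun u => - A F.o u, ?_⟩
  simp only [mul_neg, Finset.sum_neg_distrib]
  linear_combination h1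

end BasedRes

end Pool.Agent.Lib.P78a38c
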