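import Mathlib
import Pool.Agent.Lib.P78a38c.Duality

set_option autoImplicit false

/-! The graded form of the duality argument. -/

namespace Pool.Agent.Lib.P78a38c

open Finset MvPolynomial

variable {K : Type*} [Field K] {σ : Type*}

/-- The part of `p` consisting of the monomials `μ` with `deg μ + c = e`. -/
noncomputable def comp (c e : ℕ) (p : MvPolynomial σ K) : MvPolynomial σ K :=
  if c ≤ e then homogeneousComponent (e - c) p else 0

theorem coeff_comp (c e : ℕ) (p : MvPolynomial σ K) (μ : σ →₀ ℕ) :
    coeff μ (comp c e p) = if μ.degree + c = e then coeff μ p else 0 := by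
  unfold comp
  by_cases h : c ≤ e
  · rw [if_pos h, coeff_homogeneousComponent]
    by_cases h2 : μ.degree = e - c
    · rw [if_pos h2, if_pos (by omega)]
    · rw [if_neg h2, if_neg (by omega)]
  · rw [if_neg h, if_neg (by omega), coeff_zero]

theorem comp_add (c e : ℕ) (p q : MvPolynomial σ K) : comp c e (p + q) = comp c e p + comp c e q := by
  ext μ
  simp only [coeff_comp, coeff_add]
  split_ifs <;> simp

theorem comp_zero (c e : ℕ) : comp c e (0 : MvPolynomial σ K) = 0 := by
  ext μ
  simp [coeff_comp]

theorem comp_sum {ι : Type*} (s : Finset ι) (c e : ℕ) (f : ι → MvPolynomial σ K) :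
    comp c e (∑ i ∈ s, f i) = ∑ i ∈ s, comp c e (f i) := by
  classical
  induction s using Finset.induction_on with
  | empty => simp [comp_zero]
  | insert a s ha ih => rw [sum_insert ha, sum_insert ha, comp_add, ih]

theorem comp_neg_one_pow_mul (c e k : ℕ) (p : MvPolynomial σ K) :
    comp c e ((-1) ^ k * p) = (-1) ^ k * comp c e p := by
  have h : ((-1 : MvPolynomial σ K) ^ k) = C ((-1 : K) ^ k) := by simp
  ext μ
  rw [h, coeff_comp, coeff_C_mul, coeff_C_mul, coeff_comp]
  split_ifs <;> simp

theorem comp_mul (c α β γ : ℕ) (q p : MvPolynomial σ K)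
    (hq : ∀ ν ∈ q.support, ν.degree + α = β) :
    comp c (β + γ) (q * p) = q * comp c (α + γ) p := by
  classical
  ext μ
  rw [coeff_comp, coeff_mul, coeff_mul]
  by_cases h : μ.degree + c = β + γ
  · rw [if_pos h]
    refine Finset.sum_congr rfl fun x hx => ?_
    rw [coeff_comp]
    by_cases h1 : coeff x.1 q = 0
    · rw [h1, zero_mul, zero_mul]
    · have h2 := hq x.1 (mem_support_iff.2 h1)
      have h3 := mem_antidiagonal.1 hx
      rw [if_pos]
      have h4 : μ.degree = x.1.degree + x.2.degree := by
        rw [← h3, map_add]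
      omega
  · rw [if_neg h]
    symm
    apply Finset.sum_eq_zero
    intro x hx
    rw [coeff_comp]
    by_cases h1 : coeff x.1 q = 0
    · rw [h1, zero_mul]
    · have h2 := hq x.1 (mem_support_iff.2 h1)
      have h3 := mem_antidiagonal.1 hx
      rw [if_neg, mul_zero]
      have h4 : μ.degree = x.1.degree + x.2.degree := by
        rw [← h3, map_add]
      omega

variable {T : Type*} [Fintype T] [DecidableEq T]

/-- The graded core: if the dual complex is exact in levels `< b` then the internal degree of a
basis element of top level `a + b` is at most the sum of those of some basis elements of levels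
`a` and `b`. -/
theorem graded_core (F : BasedRes (MvPolynomial σ K) T) (deg : T → ℕ)
    (hdeg : ∀ s t, ∀ ν ∈ (F.D s t).support, ν.degree + deg s = deg t)
    (a b : ℕ) (hb : 1 ≤ b) (htop : ∀ t, F.h t ≤ a + b)
    (hE : ∀ q < b, F.DualExact (MvPolynomial σ K) q) (x : T) (hx : F.h x = a + b)
    (hmin : ∀ s, constantCoeff (F.D s x) = 0) :
    ∃ s t, F.h s = b ∧ F.h t = a ∧ deg x + deg F.o ≤ deg s + deg t := by
  by_contra hcon
  push Not at hcon
  obtain ⟨m, hsup, hunit, hleib⟩ := F.exists_prod
  obtain ⟨c, hc⟩ := F.duality (fun s t => comp (deg x + deg F.o) (deg s + deg t) (m s t x)) a b hb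
    (by
      intro s t
      have h1 := hleib s t x
      have h2 : ∑ u, F.D x u * m s t u = 0 := by
        apply Finset.sum_eq_zero
        intro u _
        by_cases hu : F.D x u = 0
        · rw [hu, zero_mul]
        · have := F.level x u hu
          have := htop u
          omega
      rw [h2] at h1
      have e1 : ∀ u, F.D u s * comp (deg x + deg F.o) (deg u + deg t) (m u t x) =
          comp (deg x + deg F.o) (deg s + deg t) (F.D u s * m u t x) := fun u =>
        (comp_mul _ _ _ _ _ _ (hdeg u s)).symm
      have e2 : ∀ u, F.D u t * comp (deg x + deg F.o) (deg s + deg u) (m s u x) =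
          comp (deg x + deg F.o) (deg s + deg t) (F.D u t * m s u x) := fun u => by
        rw [add_comm (deg s) (deg u), add_comm (deg s) (deg t)]
        exact (comp_mul _ _ _ _ _ _ (hdeg u t)).symm
      change ∑ u, F.D u s * comp (deg x + deg F.o) (deg u + deg t) (m u t x) +
        (-1) ^ F.h s * ∑ u, F.D u t * comp (deg x + deg F.o) (deg s + deg u) (m s u x) = 0
      rw [Finset.sum_congr rfl fun u _ => e1 u, Finset.sum_congr rfl fun u _ => e2 u,
        ← comp_sum, ← comp_sum, ← comp_neg_one_pow_mul, ← comp_add, ← h1, comp_zero])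
    (by
      intro s t hs ht
      have h1 := hcon s t hs ht
      change comp _ _ _ = 0
      unfold comp
      rw [if_neg (by omega)]) hE x hx
  have h1 := congrArg constantCoeff hc
  rw [map_sum] at h1
  simp only [map_mul, hmin, zero_mul, sum_const_zero] at h1
  rw [hunit, if_pos rfl, constantCoeff_eq, coeff_comp, if_pos (by simp [add_comm])] at h1
  simp at h1

end Pool.Agent.Lib.P78a38c
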