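import Mathlib
import Pool.Agent.Lib.P78a38c.Defs
import Pool.Agent.Lib.P78a38c.Graded

set_option autoImplicit false

/-! Existence of minimal graded free resolutions. -/

namespace Pool.Agent.Lib.P78a38c

open Finset MvPolynomial

variable {K : Type*} [Field K] {n : ℕ}

/-- The component of degree `j` of a vector, with respect to the degrees `e` of the basis. -/
noncomputable def vcomp {r : ℕ} (e : Fin r → ℕ) (j : ℕ) (v : Fin r → MvPolynomial (Fin n) K) :
    Fin r → MvPolynomial (Fin n) K := fun k => comp (e k) j (v k)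

/-- A vector is homogeneous of degree `j`. -/
def VHom {r : ℕ} (e : Fin r → ℕ) (j : ℕ) (v : Fin r → MvPolynomial (Fin n) K) : Prop :=
  ∀ k, ∀ ν ∈ (v k).support, ν.degree + e k = j

theorem vhom_vcomp {r : ℕ} (e : Fin r → ℕ) (j : ℕ) (v : Fin r → MvPolynomial (Fin n) K) :
    VHom e j (vcomp e j v) := by
  intro k ν hν
  rw [mem_support_iff] at hν
  change coeff ν (comp (e k) j (v k)) ≠ 0 at hν
  rw [coeff_comp] at hν
  by_contra h
  exact hν (if_neg h)

theorem sum_vcomp {r : ℕ} (e : Fin r → ℕ) (v : Fin r → MvPolynomial (Fin n) K) :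
    ∃ M : ℕ, v = ∑ j ∈ range M, vcomp e j v := by
  refine ⟨(univ.sup fun k => (v k).totalDegree + e k) + 1, ?_⟩
  ext1 k
  ext μ
  rw [Finset.sum_apply, coeff_sum]
  change _ = ∑ j ∈ _, coeff μ (comp (e k) j (v k))
  simp only [coeff_comp]
  rw [Finset.sum_ite_eq]
  by_cases h : coeff μ (v k) = 0
  · simp [h]
  · rw [if_pos]
    rw [mem_range, Nat.lt_succ_iff]
    have h1 := Finset.le_sup (f := fun k => (v k).totalDegree + e k) (mem_univ k)
    have h2 : μ.degree ≤ (v k).totalDegree := by
      have := MvPolynomial.le_totalDegree (mem_support_iff.2 h)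
      rwa [Finsupp.degree_eq_sum, ← Finsupp.sum_fintype μ (fun _ a => a) (fun _ => rfl)]
    omega

/-- A graded submodule of a graded free module, contained in `𝔪` times the module. -/
structure Stage (K : Type*) [Field K] (n : ℕ) where
  r : ℕ
  e : Fin r → ℕ
  N : Submodule (MvPolynomial (Fin n) K) (Fin r → MvPolynomial (Fin n) K)
  graded : ∀ v ∈ N, ∀ j, vcomp e j v ∈ N
  min : ∀ v ∈ N, ∀ k, constantCoeff (v k) = 0

/-- A homogeneous generating family with `m` elements. -/
def Stage.Gen (s : Stage K n) (m : ℕ) : Prop :=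
  ∃ (w : Fin m → Fin s.r → MvPolynomial (Fin n) K) (deg : Fin m → ℕ),
    (∀ l, VHom s.e (deg l) (w l)) ∧ Submodule.span _ (Set.range w) = s.N

theorem Stage.exists_gen (s : Stage K n) : ∃ m, s.Gen m := by
  have hspan : Submodule.span (MvPolynomial (Fin n) K) {v | v ∈ s.N ∧ ∃ j, VHom s.e j v} = s.N := by
    apply le_antisymm
    · rw [Submodule.span_le]
      rintro v ⟨hv, -⟩
      exact hv
    · intro v hv
      obtain ⟨M, hM⟩ := sum_vcomp s.e v
      rw [hM]
      apply Submodule.sum_mem
      intro j _
      exact Submodule.subset_span ⟨s.graded v hv j, j, vhom_vcomp _ _ _⟩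
  have hfg : (Submodule.span (MvPolynomial (Fin n) K)
      {v | v ∈ s.N ∧ ∃ j, VHom s.e j v}).FG := IsNoetherian.noetherian _
  rw [Submodule.fg_span_iff_fg_span_finset_subset] at hfg
  obtain ⟨s', hs', hs'2⟩ := hfg
  refine ⟨s'.card, fun l => (s'.equivFin.symm l).1, ?_⟩
  have h1 : ∀ l : Fin s'.card, ∃ j, VHom s.e j (s'.equivFin.symm l).1 := fun l =>
    (hs' (s'.equivFin.symm l).2).2
  choose deg hdeg using h1
  refine ⟨deg, hdeg, ?_⟩
  rw [← hspan, hs'2]
  congr 1
  ext v
  constructor
  · rintro ⟨l, rfl⟩
    exact (s'.equivFin.symm l).2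
  · intro hv
    exact ⟨s'.equivFin ⟨v, hv⟩, by simp⟩

theorem Stage.exists_next (s : Stage K n) : ∃ (s' : Stage K n)
    (d : Matrix (Fin s.r) (Fin s'.r) (MvPolynomial (Fin n) K)),
    (∀ k l, ∀ ν ∈ (d k l).support, ν.degree + s.e k = s'.e l) ∧
    (∀ v, v ∈ s.N ↔ ∃ w, d.mulVec w = v) ∧
    (∀ v, v ∈ s'.N ↔ d.mulVec v = 0) := by
  classical
  obtain ⟨w, deg, hw, hspan⟩ := Nat.find_spec s.exists_gen
  have hmin := fun m (h : m < Nat.find s.exists_gen) => Nat.find_min s.exists_gen h
  generalize hm : Nat.find s.exists_gen = m at *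
  let d : Matrix (Fin s.r) (Fin m) (MvPolynomial (Fin n) K) := Matrix.of fun k l => w l k
  have hd : ∀ v, d.mulVec v = ∑ l, v l • w l := by
    intro v
    ext1 k
    simp only [Matrix.mulVec, dotProduct, Finset.sum_apply, Pi.smul_apply, smul_eq_mul]
    refine Finset.sum_congr rfl fun l _ => ?_
    change w l k * v l = _
    ring
  have hdhom : ∀ k l, ∀ ν ∈ (d k l).support, ν.degree + s.e k = deg l := fun k l ν hν =>
    hw l k ν hν
  have hcompd : ∀ v j, vcomp s.e j (d.mulVec v) = d.mulVec (vcomp deg j v) := by
    intro v j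
    ext1 k
    simp only [vcomp, Matrix.mulVec, dotProduct]
    rw [comp_sum]
    refine Finset.sum_congr rfl fun l _ => ?_
    have h1 : comp (s.e k) j (d k l * v l) = d k l * comp (deg l) j (v l) := by
      classical
      ext μ
      rw [coeff_comp, coeff_mul, coeff_mul]
      by_cases h : μ.degree + s.e k = j
      · rw [if_pos h]
        refine Finset.sum_congr rfl fun x hx => ?_
        rw [coeff_comp]
        by_cases h1 : coeff x.1 (d k l) = 0
        · rw [h1, zero_mul, zero_mul]
        · have h2 := hdhom k l x.1 (mem_support_iff.2 h1)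
          have h3 := mem_antidiagonal.1 hx
          have h4 : μ.degree = x.1.degree + x.2.degree := by
            rw [← h3, map_add]
          rw [if_pos (by omega)]
      · rw [if_neg h]
        symm
        apply Finset.sum_eq_zero
        intro x hx
        rw [coeff_comp]
        by_cases h1 : coeff x.1 (d k l) = 0
        · rw [h1, zero_mul]
        · have h2 := hdhom k l x.1 (mem_support_iff.2 h1)
          have h3 := mem_antidiagonal.1 hx
          have h4 : μ.degree = x.1.degree + x.2.degree := by
            rw [← h3, map_add]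
          rw [if_neg (by omega), mul_zero]
    exact h1
  refine ⟨⟨m, deg, LinearMap.ker (Matrix.mulVecLin d), ?_, ?_⟩, d, hdhom, ?_, ?_⟩
  · intro v hv j
    rw [LinearMap.mem_ker, Matrix.mulVecLin_apply] at hv ⊢
    rw [← hcompd, hv]
    ext1 k
    simp [vcomp, comp_zero]
  · intro v hv l0
    rw [LinearMap.mem_ker, Matrix.mulVecLin_apply] at hv
    by_contra hne
    have h1 : d.mulVec (vcomp deg (deg l0) v) = 0 := by
      rw [← hcompd, hv]
      ext1 k
      simp [vcomp, comp_zero]
    have h2 : vcomp deg (deg l0) v l0 = C (constantCoeff (v l0)) := by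
      ext μ
      change coeff μ (comp (deg l0) (deg l0) (v l0)) = _
      rw [coeff_comp, coeff_C]
      by_cases hμ : 0 = μ
      · subst hμ
        rw [if_pos (by simp), if_pos rfl]
        rfl
      · rw [if_neg hμ, if_neg]
        intro h3
        apply hμ
        have : μ.degree = 0 := by omega
        exact (Finsupp.degree_eq_zero_iff μ).1 this |>.symm
    rw [hd] at h1
    obtain ⟨m', rfl⟩ : ∃ m', m = m' + 1 := ⟨m - 1, by have := l0.2; omega⟩
    rw [Fin.sum_univ_succAbove _ l0, h2] at h1
    apply hmin m' (by omega)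
    refine ⟨fun l => w (l0.succAbove l), fun l => deg (l0.succAbove l), fun l => hw _, ?_⟩
    rw [← hspan]
    apply le_antisymm
    · apply Submodule.span_mono
      rintro _ ⟨l, rfl⟩
      exact ⟨_, rfl⟩
    · rw [Submodule.span_le]
      rintro _ ⟨l, rfl⟩
      by_cases hl : l = l0
      · subst hl
        have h3 : w l = (C (constantCoeff (v l))⁻¹ : MvPolynomial (Fin n) K) •
            ((C (constantCoeff (v l)) : MvPolynomial (Fin n) K) • w l) := by
          rw [smul_smul, ← C_mul, inv_mul_cancel₀ hne, C_1, one_smul]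
        have h4 : (C (constantCoeff (v l)) : MvPolynomial (Fin n) K) • w l =
            - ∑ i, vcomp deg (deg l) v (l.succAbove i) • w (l.succAbove i) :=
          eq_neg_of_add_eq_zero_left h1
        rw [SetLike.mem_coe, h3, h4]
        apply Submodule.smul_mem
        apply Submodule.neg_mem
        apply Submodule.sum_mem
        intro i _
        apply Submodule.smul_mem
        exact Submodule.subset_span ⟨i, rfl⟩
      · obtain ⟨i, rfl⟩ := Fin.exists_succAbove_eq hl
        exact Submodule.subset_span ⟨i, rfl⟩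
  · intro v
    have h0 : v ∈ s.N ↔ v ∈ Submodule.span (MvPolynomial (Fin n) K) (Set.range w) := by
      rw [hspan]
    refine h0.trans ?_
    rw [Submodule.mem_span_range_iff_exists_fun]
    constructor
    · rintro ⟨c, hc⟩
      exact ⟨c, by rw [hd]; exact hc⟩
    · rintro ⟨c, hc⟩
      exact ⟨c, by rw [← hd]; exact hc⟩
  · intro v
    rw [LinearMap.mem_ker, Matrix.mulVecLin_apply]

/-- The first stage: the ideal itself. -/
noncomputable def Stage.first (I : Ideal (MvPolynomial (Fin n) K))
    (hI : ∀ p ∈ I, ∀ j, homogeneousComponent j p ∈ I) (hne : I ≠ ⊤) : Stage K n where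
  r := 1
  e := fun _ => 0
  N := Submodule.comap (LinearMap.proj (R := MvPolynomial (Fin n) K)
    (φ := fun _ : Fin 1 => MvPolynomial (Fin n) K) 0) (I : Submodule _ _)
  graded := by
    intro v hv j
    rw [Submodule.mem_comap] at hv ⊢
    change comp 0 j (v 0) ∈ I
    unfold comp
    rw [if_pos (Nat.zero_le _)]
    exact hI _ hv _
  min := by
    intro v hv k
    rw [Submodule.mem_comap] at hv
    by_contra h
    apply hne
    have h1 := hI _ hv 0
    rw [LinearMap.proj_apply, homogeneousComponent_zero] at h1
    have hk : k = 0 := Subsingleton.elim _ _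
    subst hk
    have h2 : C (constantCoeff (v 0))⁻¹ * C (coeff 0 (v 0)) ∈ I := I.mul_mem_left _ h1
    rw [← C_mul, ← constantCoeff_eq, inv_mul_cancel₀ h, C_1] at h2
    exact (Ideal.eq_top_iff_one I).2 h2

/-- Every proper homogeneous ideal has a minimal graded free resolution. -/
theorem exists_minimalResolution (I : Ideal (MvPolynomial (Fin n) K))
    (hI : ∀ p ∈ I, ∀ j, homogeneousComponent j p ∈ I) (hne : I ≠ ⊤) :
    Nonempty (MinimalResolution K n I) := by
  choose next mat hhom hrange hker using (Stage.exists_next (K := K) (n := n))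
  let seq : ℕ → Stage K n := fun i => Nat.rec (Stage.first I hI hne) (fun _ s => next s) i
  exact ⟨
    { rank := fun i => (seq i).r
      deg := fun i => (seq i).e
      d := fun i => mat (seq i)
      rank_zero := rfl
      deg_zero := fun _ => rfl
      homogeneous := fun i => hhom (seq i)
      minimal := by
        intro i k l
        have : ((mat (seq i)).mulVec (Pi.single l 1)) ∈ (seq i).N :=
          (hrange (seq i) _).2 ⟨_, rfl⟩
        have := (seq i).min _ this k
        simpa using this
      exact_zero := by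
        intro f
        exact hrange (seq 0) (fun _ => f)
      exact_succ := by
        intro i v
        rw [← hker (seq i)]
        exact hrange (seq (i + 1)) v }⟩

end Pool.Agent.Lib.P78a38c
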