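import Mathlib
import Pool.Agent.Lib.P78a38c.Defs
import Pool.Agent.Lib.P78a38c.Graded
import Pool.Agent.Lib.P78a38c.Exists
import Pool.Agent.Lib.P78a38c.Poly

set_option autoImplicit false

/-! Koszul homology and the degrees in a minimal graded free resolution. -/

namespace Pool.Agent.Lib.P78a38c

open Finset MvPolynomial

variable {K : Type*} [Field K] {n : ℕ}

theorem comp_mul' (c' c j : ℕ) (q p : MvPolynomial (Fin n) K)
    (hq : ∀ ν ∈ q.support, ν.degree + c' = c) : comp c' j (q * p) = q * comp c j p := by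
  classical
  ext μ
  rw [coeff_comp, coeff_mul, coeff_mul]
  by_cases h : μ.degree + c' = j
  · rw [if_pos h]
    refine Finset.sum_congr rfl fun x hx => ?_
    rw [coeff_comp]
    by_cases h1 : coeff x.1 q = 0
    · rw [h1, zero_mul, zero_mul]
    · have h2 := hq x.1 (mem_support_iff.2 h1)
      have h3 := mem_antidiagonal.1 hx
      have h4 : μ.degree = x.1.degree + x.2.degree := by
        rw [← h3, map_add]
      rw [if_pos (by omega)]
  · rw [if_neg h]
    symm
    apply Finset.sum_eq_zero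
    intro x hx
    rw [coeff_comp]
    by_cases h1 : coeff x.1 q = 0
    · rw [h1, zero_mul]
    · have h2 := hq x.1 (mem_support_iff.2 h1)
      have h3 := mem_antidiagonal.1 hx
      have h4 : μ.degree = x.1.degree + x.2.degree := by
        rw [← h3, map_add]
      rw [if_neg (by omega), mul_zero]

theorem vcomp_mulVec {r m : ℕ} (e : Fin r → ℕ) (deg : Fin m → ℕ)
    (d : Matrix (Fin r) (Fin m) (MvPolynomial (Fin n) K))
    (hd : ∀ k l, ∀ ν ∈ (d k l).support, ν.degree + e k = deg l) (j : ℕ)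
    (v : Fin m → MvPolynomial (Fin n) K) :
    vcomp e j (d.mulVec v) = d.mulVec (vcomp deg j v) := by
  ext1 k
  simp only [vcomp, Matrix.mulVec, dotProduct]
  rw [comp_sum]
  exact Finset.sum_congr rfl fun l _ => comp_mul' _ _ _ _ _ (hd k l)

theorem vcomp_eq_self {r : ℕ} (e : Fin r → ℕ) (j : ℕ) (v : Fin r → MvPolynomial (Fin n) K)
    (hv : v ∈ Hm K n e j) : vcomp e j v = v := by
  ext1 k
  ext μ
  change coeff μ (comp (e k) j (v k)) = _
  rw [coeff_comp]
  by_cases h : coeff μ (v k) = 0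
  · rw [h]
    simp
  · have := hv k μ h
    rw [if_pos (by exact_mod_cast this)]

theorem vcomp_mem {r : ℕ} (e : Fin r → ℕ) (j : ℕ) (v : Fin r → MvPolynomial (Fin n) K) :
    vcomp e j v ∈ Hm K n e j := by
  intro k ν hν
  change coeff ν (comp (e k) j (v k)) ≠ 0 at hν
  rw [coeff_comp] at hν
  by_contra h
  apply hν
  rw [if_neg]
  intro h2
  exact h (by exact_mod_cast h2)

theorem mulVec_mem {r m : ℕ} (e : Fin r → ℕ) (deg : Fin m → ℕ)
    (d : Matrix (Fin r) (Fin m) (MvPolynomial (Fin n) K))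
    (hd : ∀ k l, ∀ ν ∈ (d k l).support, ν.degree + e k = deg l) (j : ℤ)
    (v : Fin m → MvPolynomial (Fin n) K) (hv : v ∈ Hm K n deg j) : d.mulVec v ∈ Hm K n e j := by
  classical
  rcases lt_or_ge j 0 with hj | hj
  · have : v = 0 := by
      ext1 l
      ext ν
      by_contra h
      have := hv l ν h
      omega
    rw [this, Matrix.mulVec_zero]
    exact zero_mem _
  · obtain ⟨j', rfl⟩ := Int.eq_ofNat_of_zero_le hj
    have h1 := vcomp_mulVec e deg d hd j' v
    rw [vcomp_eq_self deg j' v hv] at h1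
    rw [← h1]
    exact vcomp_mem e j' _

namespace MinimalResolution

variable {I : Ideal (MvPolynomial (Fin n) K)} (F : MinimalResolution K n I)

/-- The differential as a homomorphism. -/
noncomputable def dh (k : ℕ) : (Fin (F.rank (k + 1)) → MvPolynomial (Fin n) K) →+
    (Fin (F.rank k) → MvPolynomial (Fin n) K) := (Matrix.mulVecLin (F.d k)).toAddMonoidHom

theorem dh_apply (k : ℕ) (v : Fin (F.rank (k + 1)) → MvPolynomial (Fin n) K) :
    F.dh k v = (F.d k).mulVec v := rfl

theorem dh_vx (k : ℕ) (i : ℕ) (hi : i < n) (v : Fin (F.rank (k + 1)) → MvPolynomial (Fin n) K) :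
    F.dh k (vx K n _ i v) = vx K n _ i (F.dh k v) := by
  rw [vx_eq hi, vx_eq hi, dh_apply, dh_apply, Matrix.mulVec_smul]

/-- The kernel of the map leaving `F k`. -/
noncomputable def outKer (k : ℕ) : AddSubgroup (Fin (F.rank k) → MvPolynomial (Fin n) K) :=
  match k with
  | 0 =>
    { carrier := {v | ∀ l, v l ∈ I}
      zero_mem' := fun _ => I.zero_mem
      add_mem' := fun hv hw l => I.add_mem (hv l) (hw l)
      neg_mem' := fun hv l => I.neg_mem (hv l) }
  | k + 1 => (F.dh k).ker

theorem eq_const (v : Fin (F.rank 0) → MvPolynomial (Fin n) K) :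
    v = fun _ => v (Fin.cast F.rank_zero.symm 0) := by
  ext1 k
  have : Subsingleton (Fin (F.rank 0)) := by
    rw [F.rank_zero]
    infer_instance
  rw [Subsingleton.elim k]

theorem mem_outKer (k : ℕ) (v : Fin (F.rank k) → MvPolynomial (Fin n) K) :
    v ∈ F.outKer k ↔ ∃ w, F.dh k w = v := by
  cases k with
  | zero =>
    constructor
    · intro h
      obtain ⟨w, hw⟩ := (F.exact_zero (v (Fin.cast F.rank_zero.symm 0))).1 (h _)
      refine ⟨w, ?_⟩
      rw [F.eq_const v]
      exact hw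
    · rintro ⟨w, hw⟩ l
      refine (F.exact_zero (v l)).2 ⟨w, ?_⟩
      rw [← dh_apply, hw]
      conv_lhs => rw [F.eq_const v]
      ext1 _
      have : Subsingleton (Fin (F.rank 0)) := by
        rw [F.rank_zero]
        infer_instance
      rw [Subsingleton.elim l]
  | succ k =>
    exact F.exact_succ k v

theorem map_eq (k : ℕ) (j : ℤ) : (Hm K n (F.deg (k + 1)) j).map (F.dh k) =
    Hm K n (F.deg k) j ⊓ F.outKer k := by
  ext v
  constructor
  · rintro ⟨u, hu, rfl⟩
    refine ⟨mulVec_mem _ _ _ (F.homogeneous k) j u hu, (F.mem_outKer k _).2 ⟨u, rfl⟩⟩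
  · rintro ⟨hv, hk⟩
    obtain ⟨u, rfl⟩ := (F.mem_outKer k v).1 hk
    rcases lt_or_ge j 0 with hj | hj
    · have : F.dh k u = 0 := by
        ext1 l
        ext ν
        by_contra h
        have := hv l ν h
        omega
      rw [this]
      exact zero_mem _
    · obtain ⟨j', rfl⟩ := Int.eq_ofNat_of_zero_le hj
      refine ⟨vcomp (F.deg (k + 1)) j' u, vcomp_mem _ _ _, ?_⟩
      rw [dh_apply, ← vcomp_mulVec (F.deg k) (F.deg (k + 1)) (F.d k) (F.homogeneous k)]
      exact vcomp_eq_self _ _ _ hv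

theorem constantCoeff_of_mem {k : ℕ} {v : Fin (F.rank (k + 1)) → MvPolynomial (Fin n) K}
    (hv : v ∈ F.outKer (k + 1)) (l : Fin (F.rank (k + 1))) : constantCoeff (v l) = 0 := by
  obtain ⟨w, rfl⟩ := (F.mem_outKer (k + 1) v).1 hv
  rw [dh_apply]
  simp [Matrix.mulVec, dotProduct, F.minimal]

/-- Exactness of the Koszul complex of the `k`-th syzygy module in homological degree `q` and
internal degree `j`. -/
def E (k : ℕ) (q j : ℤ) : Prop :=
  Ex (vx K n (F.rank k)) n q (Hm K n (F.deg k) (j - q - 1) ⊓ F.outKer k)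
    (Hm K n (F.deg k) (j - q) ⊓ F.outKer k)

theorem exists_pre {M : Type*} (rk : ℕ) (e : Fin rk → ℕ) (G : AddSubgroup
    (Fin rk → MvPolynomial (Fin n) K)) (hG : ∀ v ∈ G, ∀ l, constantCoeff (v l) = 0) (i q : ℤ)
    (c : Kos (Fin rk → MvPolynomial (Fin n) K) n)
    (hc : c ∈ lev (Hm K n e i ⊓ G) n q) (hD : kD (vx K n rk) n c = 0) (_ : M) :
    ∃ u ∈ lev (Hm K n e (i - 1)) n (q + 1), kD (vx K n rk) n u = c := by
  by_cases hq : q = 0
  · subst hq
    obtain ⟨v, hv, rfl⟩ := eq_emb _ n c hc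
    rw [zero_add]
    refine exists_boundary e i n le_rfl v hv.1 ?_
    intro l ν hν
    by_contra h
    push Not at h
    have h0 : ν = 0 := by
      ext j
      exact h j j.2
    subst h0
    exact hν (hG v hv.2 l)
  · exact ex_free e i q hq n le_rfl c (lev_mono inf_le_left n q c hc) hD

theorem E_forward {k : ℕ} {q j : ℤ} (h : F.E k q j) : F.E (k + 1) (q - 1) j := by
  unfold E at h ⊢
  rw [← F.map_eq, ← F.map_eq] at h
  have e1 : j - (q - 1) - 1 = j - q := by ring
  rw [e1]
  refine shift_forward (F.dh k) n q (fun i hi => F.dh_vx k i hi) _ _ _ ?_ ?_ ?_ h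
  · intro i _ x hx
    exact vx_mem _ _ i x hx
  · intro i _ i' _ x
    exact vx_comm i i' x
  · intro c hc hD
    have := exists_pre (M := Unit) _ (F.deg (k + 1)) (F.outKer (k + 1))
      (fun v hv l => F.constantCoeff_of_mem hv l) (j - (q - 1)) (q - 1) c hc hD ()
    rw [sub_add_cancel, e1] at this
    exact this

theorem E_backward {k : ℕ} {q j : ℤ} (hq : q ≠ 0) (h : F.E (k + 1) (q - 1) j) : F.E k q j := by
  unfold E at h ⊢
  rw [← F.map_eq, ← F.map_eq]
  have e1 : j - (q - 1) - 1 = j - q := by ring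
  rw [e1] at h
  refine shift_backward (F.dh k) n q (fun i hi => F.dh_vx k i hi) _ _
    (Hm K n (F.deg (k + 1)) (j - (q - 1))) ?_ ?_ ?_ h
  · intro i _ x hx
    apply vx_mem
    rwa [e1]
  · intro i _ i' _ x
    exact vx_comm i i' x
  · exact ex_free _ _ q hq n le_rfl

/-- No minimal syzygy of degree `j` if the Koszul complex is exact. -/
theorem no_basis_of_E {k : ℕ} {j : ℤ} (h : F.E k 0 j) (t : Fin (F.rank (k + 1))) :
    (F.deg (k + 1) t : ℤ) ≠ j := by
  intro hj
  have hs : Pi.single t 1 ∈ Hm K n (F.deg (k + 1)) j := by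
    intro l ν hν
    by_cases hl : l = t
    · subst hl
      rw [Pi.single_eq_same, coeff_one] at hν
      have h0 : 0 = ν := by
        by_contra h1
        exact hν (if_neg h1)
      rw [← h0, ← hj]
      simp
    · rw [Pi.single_eq_of_ne hl, coeff_zero] at hν
      exact absurd rfl hν
  have hv : F.dh k (Pi.single t 1) ∈ Hm K n (F.deg k) j ⊓ F.outKer k := by
    rw [← F.map_eq]
    exact ⟨_, hs, rfl⟩
  obtain ⟨c', hc', hDc'⟩ := h (emb n (F.dh k (Pi.single t 1))) (by
    rw [sub_zero]
    exact emb_mem _ n _ hv) (kD_emb _ n _)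
  rw [zero_add] at hc'
  obtain ⟨g, hg, hgc⟩ := kD_one (vx K n (F.rank k)) _ n c' hc'
  rw [hgc] at hDc'
  have h1 := emb_injective n hDc'
  choose y hy using fun i => (F.mem_outKer k (g i)).1 (hg i).2
  have h2 : F.dh k (Pi.single t 1 - ∑ i ∈ range n, vx K n _ i (y i)) = 0 := by
    rw [map_sub, map_sum, ← h1, sub_eq_zero]
    refine Finset.sum_congr rfl fun i hi => ?_
    rw [F.dh_vx k i (Finset.mem_range.1 hi), hy]
  have h3 := F.constantCoeff_of_mem (k := k) (v := Pi.single t 1 - ∑ i ∈ range n, vx K n _ i (y i))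
    h2 t
  rw [Pi.sub_apply, Pi.single_eq_same, map_sub, map_one, Finset.sum_apply, map_sum] at h3
  have h4 : ∑ i ∈ range n, constantCoeff (vx K n _ i (y i) t) = 0 := by
    apply Finset.sum_eq_zero
    intro i hi
    rw [vx_apply, xop_apply (Finset.mem_range.1 hi), map_mul, constantCoeff_X, zero_mul]
  rw [h4, sub_zero] at h3
  exact one_ne_zero h3

/-- The Koszul complex is exact if there is no minimal syzygy of degree `j`. -/
theorem E_of_no_basis {k : ℕ} {j : ℤ} (h : ∀ t : Fin (F.rank (k + 1)), (F.deg (k + 1) t : ℤ) ≠ j) :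
    F.E k 0 j := by
  intro c hc _
  rw [← F.map_eq, sub_zero] at hc
  obtain ⟨v, ⟨u, hu, rfl⟩, rfl⟩ := eq_emb _ n c hc
  obtain ⟨w, hw, hDw⟩ := exists_boundary (F.deg (k + 1)) j n le_rfl u hu (by
    intro l ν hν
    by_contra h1
    push Not at h1
    have h0 : ν = 0 := by
      ext j
      exact h1 j j.2
    subst h0
    have := hu l 0 hν
    rw [map_zero] at this
    exact h l (by simpa using this))
  refine ⟨kmap (F.dh k) n w, ?_, ?_⟩
  · rw [← F.map_eq, sub_zero, zero_add]
    exact kmap_mem (F.dh k) (G := Hm K n (F.deg (k + 1)) (j - 1))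
      (G' := (Hm K n (F.deg (k + 1)) (j - 1)).map (F.dh k)) (fun x hx => ⟨x, hx, rfl⟩) n 1 w hw
  · rw [kD_kmap (vx K n _) (vx K n _) (F.dh k) n (fun i hi => F.dh_vx k i hi), hDw, kmap_emb]

theorem E_forward_iter {k : ℕ} {j : ℤ} (q : ℕ) (h : F.E k q j) : F.E (k + q) 0 j := by
  induction q generalizing k with
  | zero => exact h
  | succ q ih =>
    have h1 := F.E_forward h
    push_cast at h1
    rw [add_sub_cancel_right] at h1
    have h2 := ih h1
    have e : k + 1 + q = k + (q + 1) := by ring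
    rwa [e] at h2

theorem E_backward_iter {k : ℕ} {j : ℤ} (q : ℕ) (h : F.E (k + q) 0 j) : F.E k q j := by
  induction q generalizing k with
  | zero => exact h
  | succ q ih =>
    have e : k + (q + 1) = k + 1 + q := by ring
    rw [e] at h
    have h1 := ih h
    apply F.E_backward
    · push_cast
      omega
    · push_cast
      rw [add_sub_cancel_right]
      exact h1

/-- The Koszul complex of the quotient ring, presented by a map `π` with kernel `I`. -/
theorem quotient_forward {N : Type*} [AddCommGroup N] (Y : ℕ → N →+ N)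
    (π : (Fin (F.rank 0) → MvPolynomial (Fin n) K) →+ N)
    (hπ : ∀ i < n, ∀ x, π (vx K n _ i x) = Y i (π x)) (hker : π.ker = F.outKer 0)
    (hI : ∀ p ∈ I, constantCoeff p = 0) (q j : ℤ)
    (h : Ex Y n q ((Hm K n (F.deg 0) (j - q - 1)).map π) ((Hm K n (F.deg 0) (j - q)).map π)) :
    F.E 0 (q - 1) j := by
  unfold E
  rw [← hker]
  have e1 : j - (q - 1) - 1 = j - q := by ring
  rw [e1]
  refine shift_forward π n q hπ _ _ _ ?_ ?_ ?_ h
  · intro i _ x hx
    exact vx_mem _ _ i x hx
  · intro i _ i' _ x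
    exact vx_comm i i' x
  · intro c hc hD
    rw [hker] at hc
    have := exists_pre (M := Unit) _ (F.deg 0) (F.outKer 0)
      (fun v hv l => hI _ (hv l)) (j - (q - 1)) (q - 1) c hc hD ()
    rw [sub_add_cancel, e1] at this
    exact this

theorem quotient_backward {N : Type*} [AddCommGroup N] (Y : ℕ → N →+ N)
    (π : (Fin (F.rank 0) → MvPolynomial (Fin n) K) →+ N)
    (hπ : ∀ i < n, ∀ x, π (vx K n _ i x) = Y i (π x)) (hker : π.ker = F.outKer 0)
    (q j : ℤ) (hq : q ≠ 0) (h : F.E 0 (q - 1) j) :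
    Ex Y n q ((Hm K n (F.deg 0) (j - q - 1)).map π) ((Hm K n (F.deg 0) (j - q)).map π) := by
  unfold E at h
  rw [← hker] at h
  have e1 : j - (q - 1) - 1 = j - q := by ring
  rw [e1] at h
  refine shift_backward π n q hπ _ _ (Hm K n (F.deg 0) (j - (q - 1))) ?_ ?_ ?_ h
  · intro i _ x hx
    apply vx_mem
    rwa [e1]
  · intro i _ i' _ x
    exact vx_comm i i' x
  · exact ex_free _ _ q hq n le_rfl

end MinimalResolution

end Pool.Agent.Lib.P78a38c
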