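import Mathlib
import Pool.Agent.Lib.P78a38c.Counter
import Pool.Agent.Lib.P78a38c.Shift

set_option autoImplicit false

/-! The resolution of the example. -/

namespace Pool.Agent.Lib.P78a38c

open MvPolynomial Module

variable {K : Type*} [Field K] (l₁ l₂ : MvPolynomial (Fin 4) K →ₗ[K] K)
  (h₁ : ∀ d, d ≠ 14 → ∀ g ∈ Frm K 4 d, l₁ g = 0)
  (h₂ : ∀ d, d ≠ 14 → ∀ g ∈ Frm K 4 d, l₂ g = 0)
  (h₃ : ∀ h ∈ Frm K 4 8, (∀ g ∈ Frm K 4 6, l₁ (h * g) = 0) → (∀ g ∈ Frm K 4 6, l₂ (h * g) = 0) →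
        h = 0)

theorem Yop_mem (r : ℕ) (hr : r < 6) (i : ℤ)
    (x : MvPolynomial (Fin 4) K × (MvPolynomial (Fin 4) K →ₗ[K] K))
    (hx : x ∈ Ngrp l₁ l₂ (i - 1)) : Yop l₁ l₂ r x ∈ Ngrp l₁ l₂ i := by
  obtain ⟨p, hp, rfl⟩ := hx
  exact ⟨xop K 6 r p, xop_mem r p hp, piMap_xop l₁ l₂ r hr p⟩

include h₁ h₂ h₃ in
theorem ex_four (p : ℤ) (hp : p ≠ 0) (hp4 : p ≠ 4) (i : ℤ) (hi : 8 ≤ i) :
    Ex (Yop l₁ l₂) 4 p (Ngrp l₁ l₂ (i - 1)) (Ngrp l₁ l₂ i) := by
  rw [Ngrp_eq l₁ l₂ h₁ h₂ h₃ i (by omega), Ngrp_eq l₁ l₂ h₁ h₂ h₃ (i - 1) (by omega)]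
  have e1 : 15 - (i - 1) = 15 - i + 1 := by ring
  rw [e1]
  exact ex_prod (fun j hj x => Yop_lt l₁ l₂ hj x) (ex_poly 0 i p hp 4 le_rfl)
    (ex_dual 4 le_rfl p (by exact_mod_cast hp4) (15 - i))

include h₁ h₂ h₃ in
theorem ex_five (p : ℤ) (hp : 2 ≤ p) (hp3 : p ≤ 3) (i : ℤ) (hi : 8 ≤ i) :
    Ex (Yop l₁ l₂) 5 p (Ngrp l₁ l₂ (i - 1)) (Ngrp l₁ l₂ i) :=
  ex_step (Yop_mem l₁ l₂ 4 (by norm_num) i)
    (fun j hj x => Yop_comm l₁ l₂ 4 j (by norm_num) (by omega) x)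
    (ex_four l₁ l₂ h₁ h₂ h₃ (p - 1) (by omega) (by omega) i hi)
    (ex_four l₁ l₂ h₁ h₂ h₃ p (by omega) (by omega) i hi)

include h₁ h₂ h₃ in
theorem ex_six (i : ℤ) (hi : 8 ≤ i) :
    Ex (Yop l₁ l₂) 6 3 (Ngrp l₁ l₂ (i - 1)) (Ngrp l₁ l₂ i) :=
  ex_step (Yop_mem l₁ l₂ 5 (by norm_num) i)
    (fun j hj x => Yop_comm l₁ l₂ 5 j (by norm_num) (by omega) x)
    (ex_five l₁ l₂ h₁ h₂ h₃ (3 - 1) (by norm_num) (by norm_num) i hi)
    (ex_five l₁ l₂ h₁ h₂ h₃ 3 (by norm_num) (by norm_num) i hi)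

/-- The functional in the socle. -/
noncomputable def topFunctional (K : Type*) [Field K] : MvPolynomial (Fin 4) K →ₗ[K] K :=
  (lcoeff K (0 : Fin 4 →₀ ℕ))

theorem topFunctional_apply (p : MvPolynomial (Fin 4) K) :
    topFunctional K p = coeff 0 p := rfl

theorem topFunctional_mem : topFunctional K ∈ Dgrp K 4 0 := by
  intro d hd g hg
  rw [topFunctional_apply]
  by_contra h
  have := mem_Frm.1 hg 0 h
  rw [map_zero] at this
  exact hd (by exact_mod_cast this.symm)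

include h₁ h₂ h₃ in
/-- The Koszul homology in homological degree `6`. -/
theorem not_ex : ¬ Ex (Yop l₁ l₂) 6 6 (Ngrp l₁ l₂ 14) (Ngrp l₁ l₂ 15) := by
  intro h
  have hmem : ((0, topFunctional K) :
      MvPolynomial (Fin 4) K × (MvPolynomial (Fin 4) K →ₗ[K] K)) ∈ Ngrp l₁ l₂ 15 := by
    rw [Ngrp_eq l₁ l₂ h₁ h₂ h₃ 15 (by norm_num)]
    refine ⟨zero_mem _, ?_⟩
    rw [sub_self]
    exact topFunctional_mem
  obtain ⟨c', hc', hDc'⟩ := h (topEmb 6 (0, topFunctional K)) (topEmb_mem _ 6 _ hmem)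
    (kD_topEmb _ 6 _ (by
      intro i hi
      by_cases hi4 : i < 4
      · rw [Yop_lt _ _ hi4]
        refine Prod.ext (map_zero _) ?_
        refine LinearMap.ext fun g => ?_
        change yop K 4 i (topFunctional K) g = 0
        rw [yop_apply hi4, topFunctional_apply, ← constantCoeff_eq, map_mul, constantCoeff_X,
          zero_mul]
      · have h1 : i = 4 ∨ i = 5 := by omega
        rcases h1 with rfl | rfl
        · rw [Yop_four]
          exact Prod.ext rfl (map_zero _)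
        · rw [Yop_five]
          exact Prod.ext rfl (map_zero _)))
  have hc0 : c' = 0 := lev_eq_zero _ 6 _ (Or.inr (by norm_num)) c' hc'
  rw [hc0, map_zero, ← topEmb_zero 6] at hDc'
  have h1 := topEmb_injective 6 hDc'
  have h2 : topFunctional K = 0 := (congrArg Prod.snd h1).symm
  have h3 : topFunctional K 1 = 0 := by
    rw [h2]
    rfl
  rw [topFunctional_apply, coeff_zero_one] at h3
  exact one_ne_zero h3

section resolution

variable {l₁ l₂} (F : MinimalResolution K 6 (theIdeal l₁ l₂))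

/-- The index of the basis element of `F 0`. -/
def idx {n : ℕ} {I : Ideal (MvPolynomial (Fin n) K)} (F : MinimalResolution K n I) :
    Fin (F.rank 0) := Fin.cast F.rank_zero.symm 0

/-- The map from `F 0`. -/
noncomputable def piF : (Fin (F.rank 0) → MvPolynomial (Fin 6) K) →+
    MvPolynomial (Fin 4) K × (MvPolynomial (Fin 4) K →ₗ[K] K) :=
  (piMap l₁ l₂).comp (Pi.evalAddMonoidHom _ (idx F))

theorem piF_apply (v : Fin (F.rank 0) → MvPolynomial (Fin 6) K) :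
    piF F v = piMap l₁ l₂ (v (idx F)) := rfl

theorem piF_vx (i : ℕ) (hi : i < 6) (x : Fin (F.rank 0) → MvPolynomial (Fin 6) K) :
    piF F (vx K 6 _ i x) = Yop l₁ l₂ i (piF F x) := by
  rw [piF_apply, piF_apply, vx_apply, piMap_xop l₁ l₂ i hi]

theorem piF_ker : (piF F).ker = F.outKer 0 := by
  ext v
  constructor
  · intro h l
    have : Subsingleton (Fin (F.rank 0)) := by
      rw [F.rank_zero]
      infer_instance
    rw [Subsingleton.elim l (idx F)]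
    exact h
  · intro h
    exact h (idx F)

theorem piF_map (i : ℤ) : (Hm K 6 (F.deg 0) i).map (piF F) = Ngrp l₁ l₂ i := by
  ext x
  constructor
  · rintro ⟨v, hv, rfl⟩
    refine ⟨v (idx F), ?_, rfl⟩
    have := hv (idx F)
    rwa [F.deg_zero] at this
  · rintro ⟨p, hp, rfl⟩
    refine ⟨fun _ => p, ?_, rfl⟩
    intro l
    change p ∈ hgrp K 6 (F.deg 0 l) i
    rw [F.deg_zero]
    exact hp

include h₁ h₂ h₃ in
theorem deg_three (t : Fin (F.rank 3)) : F.deg 3 t ≤ 10 := by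
  by_contra hcon
  push Not at hcon
  have h := F.quotient_forward (Yop l₁ l₂) (piF F) (piF_vx F) (piF_ker F)
    (constantCoeff_theIdeal l₁ l₂) 3 (F.deg 3 t) (by
      rw [piF_map, piF_map]
      exact ex_six l₁ l₂ h₁ h₂ h₃ ((F.deg 3 t : ℤ) - 3) (by omega))
  have h' : F.E 0 (2 : ℕ) (F.deg 3 t) := h
  have h2 := F.E_forward_iter 2 h'
  exact F.no_basis_of_E (k := 2) h2 t rfl

include h₁ h₂ h₃ in
theorem deg_six : ∃ t : Fin (F.rank 6), F.deg 6 t = 21 := by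
  by_contra hcon
  push Not at hcon
  have h := F.E_of_no_basis (k := 5) (j := 21) (by
    intro t h
    exact hcon t (by exact_mod_cast h))
  have h2 : F.E 0 (5 : ℕ) 21 := F.E_backward_iter (k := 0) 5 h
  have h3 := F.quotient_backward (Yop l₁ l₂) (piF F) (piF_vx F) (piF_ker F) 6 21 (by norm_num) h2
  rw [piF_map, piF_map] at h3
  exact not_ex l₁ l₂ h₁ h₂ h₃ h3

include h₁ h₂ h₃ in
theorem t_three : F.t 3 ≤ 10 := by
  unfold MinimalResolution.t
  rw [Finset.sup_le_iff]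
  intro t _
  exact_mod_cast deg_three h₁ h₂ h₃ F t

include h₁ h₂ h₃ in
theorem t_six : 21 ≤ F.t 6 := by
  obtain ⟨t, ht⟩ := deg_six h₁ h₂ h₃ F
  unfold MinimalResolution.t
  have := Finset.le_sup (f := fun k : Fin (F.rank 6) => (F.deg 6 k : WithBot ℕ))
    (Finset.mem_univ t)
  rw [ht] at this
  exact_mod_cast this

end resolution

/-- The counterexample. -/
theorem counterexample (K : Type*) [Field K] [Infinite K] :
    ∃ I : Ideal (MvPolynomial (Fin 6) K),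
      (∀ p ∈ I, ∀ j, homogeneousComponent j p ∈ I) ∧ I ≠ ⊤ ∧
      ∀ F : MinimalResolution K 6 I, F.t 3 ≤ 10 ∧ 21 ≤ F.t 6 := by
  obtain ⟨l₁, l₂, h12, h₃⟩ := exists_functionals K
  refine ⟨theIdeal l₁ l₂, fun p hp j => theIdeal_homogeneous l₁ l₂ (fun d hd g hg =>
    (h12 d hd g hg).1) (fun d hd g hg => (h12 d hd g hg).2) p hp j, theIdeal_ne_top l₁ l₂,
    fun F => ⟨t_three (fun d hd g hg => (h12 d hd g hg).1) (fun d hd g hg =>
      (h12 d hd g hg).2) h₃ F, t_six (fun d hd g hg => (h12 d hd g hg).1) (fun d hd g hg =>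
      (h12 d hd g hg).2) h₃ F⟩⟩

end Pool.Agent.Lib.P78a38c
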