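import Mathlib

set_option autoImplicit false

/-! Factors of homogeneous polynomials are homogeneous; common factors. -/

namespace Pool.Agent.Lib.P78a38c

open Finset MvPolynomial

variable {K : Type*} [Field K] {σ : Type*}

/-- The substitution `x_i ↦ x_i T`. -/
noncomputable def phi (K : Type*) [Field K] (σ : Type*) :
    MvPolynomial σ K →ₐ[K] Polynomial (MvPolynomial σ K) :=
  aeval (fun i => Polynomial.C (X i) * Polynomial.X)

theorem phi_monomial (μ : σ →₀ ℕ) (a : K) :
    phi K σ (monomial μ a) = Polynomial.C (monomial μ a) * Polynomial.X ^ μ.degree := by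
  unfold phi
  rw [aeval_monomial]
  have h1 : (μ.prod fun i k => (Polynomial.C (X i : MvPolynomial σ K) * Polynomial.X) ^ k) =
      Polynomial.C (μ.prod fun i k => (X i : MvPolynomial σ K) ^ k) * Polynomial.X ^ μ.degree := by
    simp only [Finsupp.prod, mul_pow, Finset.prod_mul_distrib, map_prod, map_pow]
    congr 1
    rw [Finset.prod_pow_eq_pow_sum]
    rfl
  rw [h1, monomial_eq, map_mul, mul_assoc]
  rfl

theorem coeff_phi (p : MvPolynomial σ K) (k : ℕ) :
    (phi K σ p).coeff k = homogeneousComponent k p := by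
  induction p using MvPolynomial.induction_on' with
  | monomial μ a =>
    rw [phi_monomial, Polynomial.coeff_C_mul, Polynomial.coeff_X_pow]
    by_cases h : k = μ.degree
    · rw [if_pos h, mul_one]
      subst h
      exact (homogeneousComponent_of_mem (isHomogeneous_monomial a rfl)).symm ▸ (by simp)
    · rw [if_neg h, mul_zero]
      symm
      rw [homogeneousComponent_of_mem (isHomogeneous_monomial a rfl), if_neg h]
  | add p q hp hq => rw [map_add, Polynomial.coeff_add, hp, hq, map_add]

theorem phi_ne_zero {p : MvPolynomial σ K} (hp : p ≠ 0) : phi K σ p ≠ 0 := by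
  intro h
  apply hp
  ext μ
  have := coeff_phi p μ.degree
  rw [h, Polynomial.coeff_zero] at this
  have h2 := congrArg (coeff μ) this
  rw [coeff_homogeneousComponent, if_pos rfl] at h2
  rw [← h2]

/-- A nonzero polynomial whose image under `phi` has equal degree and trailing degree. -/
theorem homog_of_natDegree {p : MvPolynomial σ K} {δ : ℕ} (hδ : (phi K σ p).natDegree = δ)
    (hδ' : (phi K σ p).natTrailingDegree = δ) : ∀ ν ∈ p.support, ν.degree = δ := by
  intro ν hν
  rw [mem_support_iff] at hν
  have h1 : (phi K σ p).coeff ν.degree ≠ 0 := by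
    intro h
    rw [coeff_phi] at h
    have h2 := congrArg (coeff ν) h
    rw [coeff_homogeneousComponent, if_pos rfl] at h2
    exact hν h2
  have h2 := Polynomial.le_natDegree_of_ne_zero h1
  have h3 := Polynomial.natTrailingDegree_le_of_ne_zero h1
  omega

/-- Factors of homogeneous polynomials are homogeneous. -/
theorem homog_factor {c g p : MvPolynomial σ K} (hp : p ≠ 0) (h : c * g = p) {e : ℕ}
    (hhom : ∀ ν ∈ p.support, ν.degree = e) :
    (∀ ν ∈ g.support, ν.degree + (phi K σ c).natDegree = e) := by
  have hc : c ≠ 0 := by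
    rintro rfl
    exact hp (by rw [← h, zero_mul])
  have hg : g ≠ 0 := by
    rintro rfl
    exact hp (by rw [← h, mul_zero])
  have hcoef : ∀ k, (phi K σ p).coeff k ≠ 0 → k = e := by
    intro k hk
    rw [coeff_phi] at hk
    obtain ⟨μ, hμ⟩ := MvPolynomial.ne_zero_iff.1 hk
    rw [coeff_homogeneousComponent] at hμ
    by_cases h1 : μ.degree = k
    · rw [if_pos h1] at hμ
      rw [← h1]
      exact hhom μ (mem_support_iff.2 hμ)
    · rw [if_neg h1] at hμ
      exact absurd rfl hμ
  have hpn := phi_ne_zero hp
  have d1 : (phi K σ p).natDegree = e := hcoef _ (by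
    rw [← Polynomial.leadingCoeff]
    exact Polynomial.leadingCoeff_ne_zero.2 hpn)
  have d2 : (phi K σ p).natTrailingDegree = e := hcoef _ (by
    rw [← Polynomial.trailingCoeff]
    exact Polynomial.trailingCoeff_nonzero_iff_nonzero.2 hpn)
  rw [← h, map_mul] at d1 d2
  rw [Polynomial.natDegree_mul (phi_ne_zero hc) (phi_ne_zero hg)] at d1
  rw [Polynomial.natTrailingDegree_mul (phi_ne_zero hc) (phi_ne_zero hg)] at d2
  have d3 := Polynomial.natTrailingDegree_le_natDegree (phi K σ c)
  have d4 := Polynomial.natTrailingDegree_le_natDegree (phi K σ g)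
  intro ν hν
  have := homog_of_natDegree (p := g) (δ := (phi K σ g).natDegree) rfl (by omega) ν hν
  omega

/-- Extraction of the common factor of a family of homogeneous polynomials. -/
theorem exists_common_factor {ι : Type*} [Fintype ι] [Nonempty ι] (f : ι → MvPolynomial σ K)
    (hf : ∀ i, f i ≠ 0) (e : ι → ℕ) (hhom : ∀ i, ∀ ν ∈ (f i).support, ν.degree = e i) :
    ∃ (c : MvPolynomial σ K) (g : ι → MvPolynomial σ K) (δ : ℕ), (∀ i, f i = c * g i) ∧
      (∀ p, (∀ i, p ∣ g i) → IsUnit p) ∧ ∀ i, ∀ ν ∈ (g i).support, ν.degree + δ = e i := by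
  classical
  obtain ⟨inst⟩ := (inferInstance : Nonempty (NormalizedGCDMonoid (MvPolynomial σ K)))
  obtain ⟨g, hg, hg1⟩ := Finset.extract_gcd (s := univ) f univ_nonempty
  refine ⟨univ.gcd f, g, (phi K σ (univ.gcd f)).natDegree, fun i => hg i (mem_univ i), ?_, ?_⟩
  · intro p hp
    have : p ∣ univ.gcd g := Finset.dvd_gcd (fun i _ => hp i)
    rw [hg1] at this
    exact isUnit_of_dvd_one this
  · intro i ν hν
    exact homog_factor (hf i) (hg i (mem_univ i)).symm (hhom i) ν hν

end Pool.Agent.Lib.P78a38c
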