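import Mathlib

set_option autoImplicit false

/-! Hilbert's syzygy theorem for minimal resolutions over a polynomial ring, in the form that
the ranks vanish beyond the number of variables. -/

namespace Pool.Agent.Lib.P78a38c

open MvPolynomial

variable {K : Type*} [Field K]

/-- Setting the first variable equal to `0`. -/
noncomputable def rho (K : Type*) [Field K] (n : ℕ) :
    MvPolynomial (Fin (n + 1)) K →+* MvPolynomial (Fin n) K :=
  (Polynomial.constantCoeff (R := MvPolynomial (Fin n) K)).comp
    (finSuccEquiv K n).toAlgHom.toRingHom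

theorem rho_eq_zero {n : ℕ} (p : MvPolynomial (Fin (n + 1)) K) (h : rho K n p = 0) :
    ∃ q, p = X 0 * q := by
  have h1 : (Polynomial.X : Polynomial (MvPolynomial (Fin n) K)) ∣ finSuccEquiv K n p := by
    rw [Polynomial.X_dvd_iff]
    exact h
  obtain ⟨q, hq⟩ := h1
  refine ⟨(finSuccEquiv K n).symm q, ?_⟩
  apply (finSuccEquiv K n).injective
  rw [map_mul, finSuccEquiv_X_zero, AlgEquiv.apply_symm_apply, hq]

theorem rho_X_zero {n : ℕ} : rho K n (X 0) = 0 := by
  change Polynomial.constantCoeff (finSuccEquiv K n (X 0)) = 0
  rw [finSuccEquiv_X_zero]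
  simp

theorem rho_surjective {n : ℕ} : Function.Surjective (rho K n) := by
  intro p
  refine ⟨(finSuccEquiv K n).symm (Polynomial.C p), ?_⟩
  change Polynomial.constantCoeff (finSuccEquiv K n ((finSuccEquiv K n).symm (Polynomial.C p))) = p
  rw [AlgEquiv.apply_symm_apply]
  simp

theorem constantCoeff_rho {n : ℕ} (p : MvPolynomial (Fin (n + 1)) K) :
    constantCoeff (rho K n p) = constantCoeff p := by
  have : (constantCoeff (R := K) (σ := Fin n)).comp (rho K n) = constantCoeff := by
    apply MvPolynomial.ringHom_ext
    · intro r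
      change constantCoeff (Polynomial.constantCoeff (finSuccEquiv K n (C r))) = _
      simp [finSuccEquiv_apply]
    · intro i
      change constantCoeff (Polynomial.constantCoeff (finSuccEquiv K n (X i))) = _
      refine Fin.cases ?_ (fun j => ?_) i
      · rw [finSuccEquiv_X_zero]
        simp
      · rw [finSuccEquiv_X_succ]
        simp
  exact congrArg (fun f : MvPolynomial (Fin (n + 1)) K →+* K => f p) this

/-- Hilbert's syzygy theorem. -/
theorem rank_eq_zero (n : ℕ) : ∀ (rank : ℕ → ℕ)
    (d : ∀ i, Matrix (Fin (rank i)) (Fin (rank (i + 1))) (MvPolynomial (Fin n) K)),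
    (∀ i k l, constantCoeff (d i k l) = 0) →
    (∀ i (v : Fin (rank (i + 1)) → MvPolynomial (Fin n) K),
      (d i).mulVec v = 0 ↔ ∃ w, (d (i + 1)).mulVec w = v) →
    ∀ i, n < i → rank i = 0 := by
  induction n with
  | zero =>
    intro rank d hmin hex i hi
    obtain ⟨j, rfl⟩ : ∃ j, i = j + 1 := ⟨i - 1, by omega⟩
    have hzero : ∀ i k l, d i k l = 0 := by
      intro i k l
      have h1 := hmin i k l
      have h2 := eq_C_of_isEmpty (d i k l)
      rw [h2]
      rw [← constantCoeff_eq, h1, C_0]
    obtain ⟨w, hw⟩ := (hex j (fun _ => 1)).1 (by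
      ext1 k
      simp [Matrix.mulVec, dotProduct, hzero])
    by_contra hne
    have hpos : 0 < rank (j + 1) := Nat.pos_of_ne_zero hne
    have := congrFun hw ⟨0, hpos⟩
    simp [Matrix.mulVec, dotProduct, hzero] at this
  | succ n ih =>
    intro rank d hmin hex i hi
    obtain ⟨j, rfl⟩ : ∃ j, i = j + 1 := ⟨i - 1, by omega⟩
    have hmap : ∀ i (v : Fin (rank (i + 1)) → MvPolynomial (Fin (n + 1)) K),
        ((d i).map (rho K n)).mulVec (fun t => rho K n (v t)) =
          fun k => rho K n ((d i).mulVec v k) := by
      intro i v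
      ext1 k
      simp [Matrix.mulVec, dotProduct]
    refine ih (fun i => rank (i + 1)) (fun i => (d (i + 1)).map (rho K n)) ?_ ?_ j (by omega)
    · intro i k l
      rw [Matrix.map_apply, constantCoeff_rho]
      exact hmin _ _ _
    · intro i v'
      constructor
      · intro hv'
        choose lift hlift using (rho_surjective (K := K) (n := n))
        let v : Fin (rank (i + 1 + 1)) → MvPolynomial (Fin (n + 1)) K := fun t => lift (v' t)
        have hv : (fun t => rho K n (v t)) = v' := by
          ext1 t
          exact hlift _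
        have h1 : ∀ k, rho K n ((d (i + 1)).mulVec v k) = 0 := by
          intro k
          have h2 := congrFun (hmap (i + 1) v) k
          rw [hv] at h2
          rw [← h2]
          exact congrFun hv' k
        choose w hw using fun k => rho_eq_zero _ (h1 k)
        have hw' : (d (i + 1)).mulVec v = (X 0 : MvPolynomial (Fin (n + 1)) K) • w := by
          ext1 k
          rw [hw k]
          rfl
        have h3 : (d i).mulVec ((X 0 : MvPolynomial (Fin (n + 1)) K) • w) = 0 := by
          rw [← hw']
          exact (hex i _).2 ⟨v, rfl⟩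
        rw [Matrix.mulVec_smul] at h3
        have h4 : (d i).mulVec w = 0 := by
          ext1 k
          have := congrFun h3 k
          simp only [Pi.smul_apply, smul_eq_mul, Pi.zero_apply, mul_eq_zero] at this
          exact this.resolve_left (X_ne_zero _)
        obtain ⟨u, hu⟩ := (hex i w).1 h4
        have h5 : (d (i + 1)).mulVec (v - (X 0 : MvPolynomial (Fin (n + 1)) K) • u) = 0 := by
          rw [Matrix.mulVec_sub, Matrix.mulVec_smul, hu, hw', sub_self]
        obtain ⟨z, hz⟩ := (hex (i + 1) _).1 h5
        refine ⟨fun t => rho K n (z t), ?_⟩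
        rw [hmap (i + 1 + 1) z, hz, ← hv]
        ext1 t
        simp [rho_X_zero]
      · rintro ⟨w', rfl⟩
        choose lift hlift using (rho_surjective (K := K) (n := n))
        let w : Fin (rank (i + 1 + 1 + 1)) → MvPolynomial (Fin (n + 1)) K := fun t => lift (w' t)
        have hw : (fun t => rho K n (w t)) = w' := by
          ext1 t
          exact hlift _
        rw [← hw, hmap (i + 1 + 1) w, hmap (i + 1)]
        have h1 : (d (i + 1)).mulVec ((d (i + 1 + 1)).mulVec w) = 0 := (hex (i + 1) _).2 ⟨w, rfl⟩
        rw [h1]
        ext1 k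
        simp

end Pool.Agent.Lib.P78a38c
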