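import Mathlib
import Pool.Agent.Lib.P78a38c.Defs
import Pool.Agent.Lib.P78a38c.Graded
import Pool.Agent.Lib.P78a38c.Syzygy
import Pool.Agent.Lib.P78a38c.Based
import Pool.Agent.Lib.P78a38c.Factor

set_option autoImplicit false

namespace Pool.Agent.Lib.P78a38c

open Finset MvPolynomial

variable {K : Type*} [Field K] {n : ℕ}

/-- The typed form of `graded_core`. -/
theorem typed_core (rank : ℕ → ℕ)
    (d : ∀ i, Matrix (Fin (rank i)) (Fin (rank (i + 1))) (MvPolynomial (Fin n) K))
    (deg : ∀ i, Fin (rank i) → ℕ) (δ : ℕ)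
    (h1 : rank 0 = 1) (hn : ∀ i, n < i → rank i = 0)
    (hex : ∀ i (v : Fin (rank (i + 1)) → MvPolynomial (Fin n) K),
      (d i).mulVec v = 0 ↔ ∃ w, (d (i + 1)).mulVec w = v)
    (hδ : ∀ k, deg 0 k = δ)
    (hhom : ∀ i k l, ∀ ν ∈ (d i k l).support, ν.degree + deg i k = deg (i + 1) l)
    (hmin : ∀ i, i + 1 = n → ∀ k l, constantCoeff (d i k l) = 0)
    (a b : ℕ) (hab : a + b = n) (hb : 1 ≤ b)
    (hE : ∀ q < b, (toBased n rank d h1 hn hex).DualExact (MvPolynomial (Fin n) K) q)
    (x : Fin (rank n)) :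
    ∃ (k : Fin (rank b)) (l : Fin (rank a)), deg n x + δ ≤ deg b k + deg a l := by
  obtain ⟨⟨⟨i, hi⟩, k⟩, ⟨⟨j, hj⟩, l⟩, hs, ht, hle⟩ := graded_core
    (toBased n rank d h1 hn hex) (fun t => deg t.1 t.2)
    (by
      rintro s ⟨⟨j, hj⟩, l⟩ ν hν
      change ν ∈ (totD n rank d s ⟨⟨j, hj⟩, l⟩).support at hν
      unfold totD at hν
      by_cases h : j = s.1 + 1
      · subst h
        simp only [dif_pos] at hν
        exact hhom _ _ _ _ hν
      · rw [dif_neg h] at hν
        simp at hν)
    a b hb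
    (by
      rintro ⟨⟨i, hi⟩, k⟩
      change i ≤ a + b
      omega) hE ⟨⟨n, Nat.lt_succ_self n⟩, x⟩ hab.symm
    (by
      intro s
      change constantCoeff (totD n rank d s ⟨⟨n, Nat.lt_succ_self n⟩, x⟩) = 0
      unfold totD
      split_ifs with h
      · exact hmin _ h.symm _ _
      · simp)
  change i = b at hs
  change j = a at ht
  subst hs
  subst ht
  refine ⟨k, l, ?_⟩
  rw [← hδ (Fin.cast h1.symm 0)]
  exact hle

namespace MinimalResolution

variable {I : Ideal (MvPolynomial (Fin n) K)} (F : MinimalResolution K n I)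

/-- Hilbert's syzygy theorem. -/
theorem rank_eq_zero (i : ℕ) (hi : n < i) : F.rank i = 0 :=
  Pool.Agent.Lib.P78a38c.rank_eq_zero n F.rank F.d F.minimal F.exact_succ i hi

theorem t_zero : F.t 0 = 0 := by
  unfold t
  apply le_antisymm
  · apply Finset.sup_le
    intro k _
    rw [F.deg_zero k]
    rfl
  · have := Finset.le_sup (f := fun k : Fin (F.rank 0) => (F.deg 0 k : WithBot ℕ))
      (mem_univ (Fin.cast F.rank_zero.symm 0))
    rw [F.deg_zero] at this
    exact this

theorem t_le_of {a b c : ℕ} (h : ∀ x : Fin (F.rank c), ∃ (k : Fin (F.rank b))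
    (l : Fin (F.rank a)), F.deg c x ≤ F.deg b k + F.deg a l) : F.t c ≤ F.t b + F.t a := by
  apply Finset.sup_le
  intro x _
  obtain ⟨k, l, hkl⟩ := h x
  have h1 := Finset.le_sup (f := fun k : Fin (F.rank b) => (F.deg b k : WithBot ℕ)) (mem_univ k)
  have h2 := Finset.le_sup (f := fun k : Fin (F.rank a) => (F.deg a k : WithBot ℕ)) (mem_univ l)
  calc ((F.deg c x : ℕ) : WithBot ℕ) ≤ ((F.deg b k + F.deg a l : ℕ) : WithBot ℕ) := by
        exact_mod_cast hkl
    _ = (F.deg b k : WithBot ℕ) + (F.deg a l : WithBot ℕ) := by push_cast; rfl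
    _ ≤ F.t b + F.t a := add_le_add h1 h2

theorem grade_aux (a b : ℕ) (hab : a + b = n) (rs : List (MvPolynomial (Fin n) K))
    (hlen : rs.length = b) (hmem : ∀ r ∈ rs, r ∈ I)
    (hreg : RingTheory.Sequence.IsWeaklyRegular (MvPolynomial (Fin n) K) rs) :
    F.t n ≤ F.t b + F.t a := by
  rcases Nat.eq_zero_or_pos b with hb | hb
  · subst hb
    rw [F.t_zero, zero_add]
    have : a = n := by omega
    rw [this]
  apply F.t_le_of
  intro x
  obtain ⟨k, l, hkl⟩ := typed_core F.rank F.d F.deg 0 F.rank_zero F.rank_eq_zero F.exact_succ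
    F.deg_zero F.homogeneous (fun i _ => F.minimal i) a b hab hb (by
      intro q hq
      refine BasedRes.dualExact_of_regular _ rs _ ?_ hreg q (by omega)
      intro r hr
      obtain ⟨v, hv⟩ := (F.exact_zero r).1 (hmem r hr)
      refine ⟨fun t => if h : (t.1 : ℕ) = 1 then v (Fin.cast (congrArg F.rank h) t.2) else 0,
        ?_, ?_⟩
      · intro t ht
        by_contra h
        exact ht (dif_neg h)
      · change ∑ t, totD n F.rank F.d ⟨⟨0, Nat.succ_pos n⟩, Fin.cast F.rank_zero.symm 0⟩ t * _ = r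
        rw [sum_totD n F.rank F.d F.rank_eq_zero _ 0 (Nat.succ_pos n)]
        have h3 : hat n F.rank (fun t => if h : (t.1 : ℕ) = 1 then
            v (Fin.cast (congrArg F.rank h) t.2) else 0) (0 + 1) = v := by
          by_cases hlt : 0 + 1 < n + 1
          · ext1 l
            simp only [hat, hlt, dif_pos]
            rfl
          · have h1 : F.rank (0 + 1) = 0 := F.rank_eq_zero _ (by omega)
            have : IsEmpty (Fin (F.rank (0 + 1))) := by
              rw [h1]
              infer_instance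
            exact Subsingleton.elim _ _
        rw [h3, hv]) x
  exact ⟨k, l, by omega⟩

/-- If all entries of a differential vanish then the source is `0`. -/
theorem rank_succ_eq_zero (i : ℕ) (h : ∀ k l, F.d i k l = 0) : F.rank (i + 1) = 0 := by
  obtain ⟨w, hw⟩ := (F.exact_succ i (fun _ => 1)).1 (by
    ext1 k
    simp [Matrix.mulVec, dotProduct, h])
  by_contra hne
  have hpos : 0 < F.rank (i + 1) := Nat.pos_of_ne_zero hne
  have h1 := congrArg constantCoeff (congrFun hw ⟨0, hpos⟩)
  simp [Matrix.mulVec, dotProduct, F.minimal] at h1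

theorem rank_eq_zero_of_rank_one (h : F.rank 1 = 0) (i : ℕ) : F.rank (i + 1) = 0 := by
  induction i with
  | zero => exact h
  | succ i ih =>
    apply F.rank_succ_eq_zero
    intro k
    exact absurd k.2 (by omega)

/-- No column of a differential vanishes. -/
theorem column_ne_zero (i : ℕ) (l : Fin (F.rank (i + 1))) : ∃ k, F.d i k l ≠ 0 := by
  by_contra hcon
  push Not at hcon
  obtain ⟨w, hw⟩ := (F.exact_succ i (Pi.single l 1)).1 (by
    ext1 k
    simp [hcon])
  have h1 := congrArg constantCoeff (congrFun hw l)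
  simp [Matrix.mulVec, dotProduct, F.minimal] at h1

theorem small_aux (a b : ℕ) (hab : a + b = n) (hb : 1 ≤ b) (ha : 1 ≤ a) (hb2 : b ≤ 2) :
    F.t n ≤ F.t b + F.t a := by
  apply F.t_le_of
  intro x
  have hr1 : F.rank 1 ≠ 0 := by
    intro h
    have h1 := F.rank_eq_zero_of_rank_one h (n - 1)
    have h2 : n - 1 + 1 = n := by omega
    rw [h2] at h1
    exact absurd x.2 (by omega)
  have hne : Nonempty (Fin (F.rank (0 + 1))) := ⟨⟨0, Nat.pos_of_ne_zero hr1⟩⟩
  let o : Fin (F.rank 0) := Fin.cast F.rank_zero.symm 0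
  have hsub : ∀ k : Fin (F.rank 0), k = o := by
    have : Subsingleton (Fin (F.rank 0)) := by
      rw [F.rank_zero]
      infer_instance
    intro k
    exact Subsingleton.elim _ _
  obtain ⟨c, g, δ, hcg, hgcd, hhom⟩ := exists_common_factor (fun l => F.d 0 o l) (by
      intro l
      obtain ⟨k, hk⟩ := F.column_ne_zero 0 l
      rw [hsub k] at hk
      exact hk) (fun l => F.deg (0 + 1) l) (by
      intro l ν hν
      have := F.homogeneous 0 o l ν hν
      rw [F.deg_zero] at this
      exact this)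
  have hc : c ≠ 0 := by
    rintro rfl
    obtain ⟨k, hk⟩ := F.column_ne_zero 0 (Classical.arbitrary _)
    rw [hsub k, hcg, zero_mul] at hk
    exact hk rfl
  let d' : ∀ i, Matrix (Fin (F.rank i)) (Fin (F.rank (i + 1))) (MvPolynomial (Fin n) K) :=
    fun i => match i with
      | 0 => fun _ l => g l
      | (i + 1) => F.d (i + 1)
  let deg' : ∀ i, Fin (F.rank i) → ℕ := fun i => match i with
      | 0 => fun _ => δ
      | (i + 1) => F.deg (i + 1)
  have hd0 : ∀ v k, (F.d 0).mulVec v k = c * (d' 0).mulVec v k := by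
    intro v k
    simp only [Matrix.mulVec, dotProduct, Finset.mul_sum]
    refine Finset.sum_congr rfl fun l _ => ?_
    rw [hsub k, hcg l]
    change _ = c * (g l * v l)
    ring
  have hex' : ∀ i (v : Fin (F.rank (i + 1)) → MvPolynomial (Fin n) K),
      (d' i).mulVec v = 0 ↔ ∃ w, (d' (i + 1)).mulVec w = v := by
    intro i v
    rcases i with _ | i
    · rw [← F.exact_succ 0 v]
      constructor
      · intro h
        ext1 k
        rw [hd0, h]
        simp
      · intro h
        ext1 k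
        have h1 := hd0 v k
        rw [h] at h1
        simp only [Pi.zero_apply] at h1
        exact (mul_eq_zero.1 h1.symm).resolve_left hc
    · exact F.exact_succ (i + 1) v
  obtain ⟨l0, hl0⟩ : ∃ l0, g l0 ≠ 0 := by
    refine ⟨Classical.arbitrary _, ?_⟩
    intro h
    obtain ⟨k, hk⟩ := F.column_ne_zero 0 (Classical.arbitrary (Fin (F.rank (0 + 1))))
    rw [hsub k, hcg, h, mul_zero] at hk
    exact hk rfl
  have h1lt : 1 < n + 1 := by omega
  have htotD : ∀ l, totD n F.rank d' ⟨⟨0, Nat.succ_pos n⟩, o⟩ ⟨⟨1, h1lt⟩, l⟩ = g l := by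
    intro l
    unfold totD
    rw [dif_pos rfl]
    rfl
  obtain ⟨inst⟩ := (inferInstance : Nonempty (NormalizedGCDMonoid (MvPolynomial (Fin n) K)))
  obtain ⟨k, l, hkl⟩ := typed_core F.rank d' deg' δ F.rank_zero F.rank_eq_zero hex'
    (fun _ => rfl)
    (by
      intro i k l ν hν
      rcases i with _ | i
      · exact hhom l ν hν
      · exact F.homogeneous (i + 1) k l ν hν)
    (by
      intro i hi k l
      rcases i with _ | i
      · omega
      · exact F.minimal (i + 1) k l) a b hab hb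
    (by
      intro q hq
      have hq2 : q = 0 ∨ q = 1 := by omega
      rcases hq2 with rfl | rfl
      · refine BasedRes.dualExact_zero _ ⟨⟨1, h1lt⟩, l0⟩ ?_
        change totD n F.rank d' ⟨⟨0, Nat.succ_pos n⟩, o⟩ ⟨⟨1, h1lt⟩, l0⟩ ≠ 0
        rw [htotD]
        exact hl0
      · refine BasedRes.dualExact_one _ ⟨⟨1, h1lt⟩, l0⟩ ?_ ?_
        · change totD n F.rank d' ⟨⟨0, Nat.succ_pos n⟩, o⟩ ⟨⟨1, h1lt⟩, l0⟩ ≠ 0
          rw [htotD]
          exact hl0
        · intro p hp
          apply hgcd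
          intro l
          have := hp ⟨⟨1, h1lt⟩, l⟩
          change p ∣ totD n F.rank d' ⟨⟨0, Nat.succ_pos n⟩, o⟩ ⟨⟨1, h1lt⟩, l⟩ at this
          rw [htotD] at this
          exact this) x
  refine ⟨k, l, ?_⟩
  obtain ⟨a, rfl⟩ : ∃ a', a = a' + 1 := ⟨a - 1, by omega⟩
  obtain ⟨b, rfl⟩ : ∃ b', b = b' + 1 := ⟨b - 1, by omega⟩
  subst hab
  change F.deg _ x + δ ≤ F.deg _ k + F.deg _ l at hkl
  omega

/-- The inequality for `a + b = n`, `b ≤ 2`. -/
theorem small (a b : ℕ) (hab : a + b = n) (hb2 : b ≤ 2) : F.t n ≤ F.t b + F.t a := by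
  rcases Nat.eq_zero_or_pos b with hb | hb
  · subst hb
    rw [F.t_zero, zero_add]
    have : a = n := by omega
    rw [this]
  · rcases Nat.eq_zero_or_pos a with ha | ha
    · subst ha
      rw [F.t_zero, add_zero]
      have : b = n := by omega
      rw [this]
    · exact F.small_aux a b hab hb ha hb2

end MinimalResolution

end Pool.Agent.Lib.P78a38c
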